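import Pool.Agent.Lib.UMB.FL.Defs

/-! # UMB.FL, chunk A15 -/

set_option autoImplicit false

open Filter Topology Set MeasureTheory
open scoped ContDiff

namespace UMB.FL

open Pool.Agent.Lib.PenroseSph (E3 Tens pd chr trg gradNorm)
open UMB.Lin (Ann cAnn sig)

theorem a15_q1 {g : Matrix (Fin 3) (Fin 3) ℝ} (hd : IsUnit g.det) (n : Fin 3 → ℝ) :
    q1 g⁻¹ (g.mulVec n) = ∑ i, n i * g.mulVec n i := by
  have h1 : g⁻¹.mulVec (g.mulVec n) = n := by
    rw [Matrix.mulVec_mulVec, Matrix.nonsing_inv_mul _ hd, Matrix.one_mulVec]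
  have h2 : q1 g⁻¹ (g.mulVec n) = ∑ i, g.mulVec n i * g⁻¹.mulVec (g.mulVec n) i := by
    unfold q1
    refine Finset.sum_congr rfl fun i _ => ?_
    have h3 : g⁻¹.mulVec (g.mulVec n) i = ∑ j, g⁻¹ i j * g.mulVec n j := rfl
    rw [h3, Finset.mul_sum]
    refine Finset.sum_congr rfl fun j _ => ?_
    ring
  rw [h2, h1]
  exact Finset.sum_congr rfl fun i _ => mul_comm _ _

theorem a15_alg {g k : Matrix (Fin 3) (Fin 3) ℝ} (hs : g.IsSymm) (hp : ∀ v, v ≠ 0 → 0 < SSM.qf g v)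
    (hk : ∀ v, 0 ≤ (∑ i, ∑ j, g⁻¹ i j * k i j) * SSM.qf g v - SSM.qf k v) (t : ℝ) (n : Fin 3 → ℝ) (h1 : 1 ≤ t)
    (h2 : t ≤ 2) (hn : ∀ u : Fin 3 → ℝ, (∑ i, n i * u i) ^ 2 ≤ q1 g⁻¹ u) :
    0 ≤ tr2 (fun i j => g⁻¹ i j + (t - 2) * n i * n j) k := by
  obtain ⟨e, he⟩ := SSM.exists_frame hs hp
  have hd : IsUnit g.det := (SSM.posDef hs hp).det_pos.ne'.isUnit
  have hT := he.tr k
  set T : ℝ := ∑ i, ∑ j, g⁻¹ i j * k i j with hTd
  have hT0 : 0 ≤ T := by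
    have h3 : ∀ a, SSM.qf g (e a) = 1 := fun a => by rw [SSM.qf_eq, he.orth]; simp
    have h4 := hk (e 0)
    have h5 := hk (e 1)
    have h6 := hk (e 2)
    rw [h3] at h4 h5 h6
    rw [Fin.sum_univ_three] at hT
    linarith
  have hN : SSM.qf g n = ∑ i, n i * g.mulVec n i := by
    unfold SSM.qf
    refine Finset.sum_congr rfl fun i _ => ?_
    have h3 : g.mulVec n i = ∑ j, g i j * n j := rfl
    rw [h3, Finset.mul_sum]
    refine Finset.sum_congr rfl fun j _ => ?_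
    ring
  have hN1 : SSM.qf g n ≤ 1 := by
    have h3 := hn (g.mulVec n)
    rw [a15_q1 hd, ← hN] at h3
    by_contra hcon
    have h4 : 1 < SSM.qf g n := not_le.1 hcon
    nlinarith
  have hK := hk n
  have e1 : tr2 (fun i j => g⁻¹ i j + (t - 2) * n i * n j) k = T + (t - 2) * SSM.qf k n := by
    rw [hTd]
    unfold tr2 SSM.qf
    simp only [Fin.sum_univ_three]
    ring
  rw [e1]
  have hTN : SSM.qf k n ≤ T := by
    have : T * SSM.qf g n ≤ T := mul_le_of_le_one_right hT0 hN1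
    linarith
  nlinarith [mul_nonneg (sub_nonneg.2 h1) (sub_nonneg.2 hTN), mul_nonneg (sub_nonneg.2 h2) (sub_nonneg.2 hTN), mul_nonneg (sub_nonneg.2 h1) hT0]

/-- **A15** (M). `TwoNonneg` implies the sign condition of `W.drift_err`. If `|x| ≥ 5R1/4` then `kh = 0`. If `|x| < 5R1/4` then
`gh = g`, `kh = chk k` with `0 ≤ chk ≤ 1`. With `G = g⁻¹`: the hypothesis on `n` with `u = g n` gives `N² ≤ N` for
`N = g(n,n)` (`q1 G (g n) = g(n,n)`), so `0 ≤ N ≤ 1`; `TwoNonneg` at `n`: `k(n,n) ≤ tr k N`; `tr k ≥ 0` (sum of `TwoNonneg` over a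
`g`-orthonormal frame: `2 tr k ≥ 0`; frames in SS/Mat.lean), so `tr k - (2-t) k(n,n) ≥ tr k (1 - (2-t) N) ≥ 0` or `k(n,n) < 0`. -/
theorem two_of {P : Par} (h : P.Ok) (hg : AF P.g P.a) (hk : ∀ x : E3, 1 ≤ ‖x‖ → TwoNonneg P.g P.k x) :
    ∀ x ∈ Ann P.R, ∀ (t : ℝ) (n : Fin 3 → ℝ), 1 ≤ t → t ≤ 2 →
    (∀ u : Fin 3 → ℝ, (∑ i, n i * u i) ^ 2 ≤ q1 (P.op.G x) u) →
      0 ≤ tr2 (fun i j => P.op.G x i j + (t - 2) * n i * n j) (P.op.k x) := by
  intro x hx t n h1 h2 hn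
  have hR1 : 0 < P.R1 := by have := h.r1_ge; have := h.R1_ge; linarith
  have hax : P.a < ‖x‖ := hg.lt.trans hx.1
  have ek : P.op.k x = P.chk ‖x‖ • P.k x := rfl
  have eG : P.op.G x = (P.gh x)⁻¹ := rfl
  have etr : ∀ (S : Matrix (Fin 3) (Fin 3) ℝ) (c : ℝ) (B : Matrix (Fin 3) (Fin 3) ℝ), tr2 S (c • B) = c * tr2 S B := by
    intro S c B
    unfold tr2
    simp only [Matrix.smul_apply, smul_eq_mul, Finset.mul_sum]
    exact Finset.sum_congr rfl fun i _ => Finset.sum_congr rfl fun j _ => by ring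
  rw [ek, etr]
  rcases le_or_gt (5 * P.R1 / 4) ‖x‖ with hfar | hnear
  · have h3 : P.chk ‖x‖ = 0 := by
      unfold Par.chk
      refine Real.smoothTransition.zero_of_nonpos ?_
      have h4 : 5 / 4 ≤ ‖x‖ / P.R1 := by
        rw [le_div_iff₀ hR1]
        linarith
      linarith
    rw [h3, zero_mul]
  · have h3 : P.chi ‖x‖ = 1 := by
      unfold Par.chi
      refine Real.smoothTransition.one_of_one_le ?_
      have h4 : ‖x‖ / P.R1 ≤ 3 / 2 := by
        rw [div_le_iff₀ hR1]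
        linarith
      linarith
    have h4 : P.gh x = P.g x := by
      unfold Par.gh
      rw [h3, one_smul, sub_self, zero_smul, add_zero]
    refine mul_nonneg (Real.smoothTransition.nonneg _) ?_
    rw [eG, h4] at hn ⊢
    exact a15_alg (hg.symm x hax) (hg.pos x hax) (hk x hx.1.le) t n h1 h2 hn

end UMB.FL
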