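import Pool.Agent.Lib.UMB.FL.A12
import Pool.Agent.Lib.UMB.W.E1

/-! # UMB.FL, chunk A14 -/

set_option autoImplicit false

open Filter Topology Set MeasureTheory
open scoped ContDiff

namespace UMB.FL

open Pool.Agent.Lib.PenroseSph (E3 Tens pd chr trg gradNorm)
open UMB.Lin (Ann cAnn sig)

theorem a14_alg {C w g2 gv eps q κ0 θ : ℝ} (hC : 0 < C) (hκ : 0 < κ0) (hw : κ0 ≤ w) (hg2 : 0 ≤ g2) (he : 0 < eps)
    (he1 : eps ≤ 1) (hgv : gv = Real.sqrt (g2 + eps ^ 2)) (hq : 0 < q) (hq1 : q < 1) :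
    (Real.sqrt g2 / w) ^ (1 + q) ≤ C ^ (-q) * Real.exp ((2 - q) * θ) *
      (C⁻¹ * Real.exp (-3 * θ) * (C * (Real.exp θ / w * gv)) ^ (q + 1) * (g2 / gv ^ 2)) + (1 + κ0⁻¹) ^ 2 * eps := by
  have hw0 : 0 < w := hκ.trans_le hw
  have hgv2 : gv ^ 2 = g2 + eps ^ 2 := by rw [hgv, Real.sq_sqrt (by positivity)]
  have hgv0 : 0 < gv := by rw [hgv]; positivity
  have hgve : eps ≤ gv := by
    rw [hgv]
    exact Real.le_sqrt_of_sq_le (by linarith)
  have hgvs : Real.sqrt g2 ≤ gv := by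
    rw [hgv]
    exact Real.sqrt_le_sqrt (by nlinarith)
  have hE : 0 < Real.exp θ := Real.exp_pos θ
  have e1 : (C * (Real.exp θ / w * gv)) ^ (q + 1) = C ^ (q + 1) * Real.exp (θ * (q + 1)) * (gv / w) ^ (q + 1) := by
    have h1 : C * (Real.exp θ / w * gv) = C * Real.exp θ * (gv / w) := by field_simp
    rw [h1, Real.mul_rpow (by positivity) (by positivity), Real.mul_rpow hC.le hE.le, Real.exp_mul]
  have e2 : C ^ (-q) * C⁻¹ * C ^ (q + 1) = 1 := by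
    rw [← Real.rpow_neg_one C, ← Real.rpow_add hC, ← Real.rpow_add hC]
    have : -q + -1 + (q + 1) = 0 := by ring
    rw [this, Real.rpow_zero]
  have e3 : Real.exp ((2 - q) * θ) * Real.exp (-3 * θ) * Real.exp (θ * (q + 1)) = 1 := by
    rw [← Real.exp_add, ← Real.exp_add]
    have : (2 - q) * θ + -3 * θ + θ * (q + 1) = 0 := by ring
    rw [this, Real.exp_zero]
  have e4 : C ^ (-q) * Real.exp ((2 - q) * θ) *
      (C⁻¹ * Real.exp (-3 * θ) * (C * (Real.exp θ / w * gv)) ^ (q + 1) * (g2 / gv ^ 2)) =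
        (gv / w) ^ (q + 1) * (g2 / gv ^ 2) := by
    rw [e1]
    calc _ = (C ^ (-q) * C⁻¹ * C ^ (q + 1)) *
          (Real.exp ((2 - q) * θ) * Real.exp (-3 * θ) * Real.exp (θ * (q + 1))) * ((gv / w) ^ (q + 1) * (g2 / gv ^ 2)) := by ring
      _ = _ := by rw [e2, e3, one_mul, one_mul]
  rw [e4, Real.div_rpow (Real.sqrt_nonneg _) hw0.le, Real.div_rpow hgv0.le hw0.le, add_comm 1 q]
  have hwp : 0 < w ^ (q + 1) := Real.rpow_pos_of_pos hw0 _
  have e5 : gv ^ (q + 1) / w ^ (q + 1) * (g2 / gv ^ 2) = (gv ^ (q + 1) - eps ^ 2 * gv ^ (q - 1)) / w ^ (q + 1) := by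
    have h1 : gv ^ (q + 1) = gv ^ (q - 1) * gv ^ 2 := by
      rw [← Real.rpow_natCast gv 2, ← Real.rpow_add hgv0]
      congr 1
      push_cast
      ring
    have h2 : g2 = gv ^ 2 - eps ^ 2 := by linarith
    rw [h1, h2]
    field_simp
  rw [e5]
  have h1 : Real.sqrt g2 ^ (q + 1) ≤ gv ^ (q + 1) := Real.rpow_le_rpow (Real.sqrt_nonneg _) hgvs (by linarith)
  have h2 : eps ^ 2 * gv ^ (q - 1) ≤ eps := by
    have h3 : gv ^ (q - 1) ≤ eps ^ (q - 1) := Real.rpow_le_rpow_of_nonpos he hgve (by linarith)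
    have h4 : eps ^ 2 * eps ^ (q - 1) = eps ^ (q + 1) := by
      rw [← Real.rpow_natCast eps 2, ← Real.rpow_add he]
      congr 1
      push_cast
      ring
    have h5 : eps ^ (q + 1) ≤ eps ^ (1 : ℝ) := Real.rpow_le_rpow_of_exponent_ge he he1 (by linarith)
    rw [Real.rpow_one] at h5
    calc eps ^ 2 * gv ^ (q - 1) ≤ eps ^ 2 * eps ^ (q - 1) := mul_le_mul_of_nonneg_left h3 (by positivity)
      _ ≤ eps := h4.trans_le h5
  have h6 : (w ^ (q + 1))⁻¹ ≤ (1 + κ0⁻¹) ^ 2 := by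
    have h7 : w⁻¹ ≤ 1 + κ0⁻¹ := (inv_anti₀ hκ hw).trans (by linarith)
    have h8 : (w⁻¹) ^ (q + 1) ≤ (1 + κ0⁻¹) ^ (q + 1) := Real.rpow_le_rpow (by positivity) h7 (by linarith)
    have h9 : (1 + κ0⁻¹) ^ (q + 1) ≤ (1 + κ0⁻¹) ^ ((2 : ℕ) : ℝ) :=
      Real.rpow_le_rpow_of_exponent_le (by have := inv_pos.2 hκ; linarith) (by push_cast; linarith)
    rw [Real.rpow_natCast] at h9
    rw [← Real.inv_rpow hw0.le]
    exact h8.trans h9
  have h10 : eps ^ 2 * gv ^ (q - 1) / w ^ (q + 1) ≤ (1 + κ0⁻¹) ^ 2 * eps := by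
    rw [div_eq_inv_mul]
    exact mul_le_mul h6 h2 (by positivity) (by positivity)
  have h11 : Real.sqrt g2 ^ (q + 1) / w ^ (q + 1) ≤ gv ^ (q + 1) / w ^ (q + 1) := div_le_div_of_nonneg_right h1 hwp.le
  rw [sub_div]
  linarith

/-- **A14** (M). Where `b(v) = q`: with `G2 = gsq P.g v x ≥ 0`, `gv² = G2 + eps²`, `y = √G2/w`, `(C s)^{1+q} = C^{1+q} e^{(1+q)θ} (gv/w)^{1+q}`:
`C^{-q} e^{(2-q)θ} mm = w^{-(1+q)} gv^{q-1} G2`, and `gv^{q-1} G2 = gv^{1+q} - eps² gv^{q-1} ≥ G2^{(1+q)/2} - eps^{1+q}`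
(`gv^{q-1} ≤ eps^{q-1}` as `q < 1`). Finally `w ≥ κ0`, `eps^{1+q} ≤ eps`, `w^{-(1+q)} ≤ (1 + κ0⁻¹)²`. -/
theorem y_bd {P : Par} (h : HP P) (hg : AF P.g P.a) {κ0 : ℝ} {v : E3 → ℝ} (hv : HV P κ0 v) {x : E3} (hx : x ∈ Ann P.R)
    (hb : P.b (v x) = P.q) :
    gradNorm P.g (P.th v) x ^ (1 + P.q) ≤
      P.CC v ^ (-P.q) * Real.exp ((2 - P.q) * P.th v x) * mm P v x + (1 + κ0⁻¹) ^ 2 * P.eps := by
  have hM : MetOn P.g {x : E3 | P.a < ‖x‖} :=
    { isOpen := isOpen_lt continuous_const continuous_norm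
      smooth := hg.smooth
      symm := hg.symm
      pos := hg.pos }
  have hxU : x ∈ {x : E3 | P.a < ‖x‖} := hg.lt.trans hx.1
  have hpos : 0 ≤ v x := hv.sol.nonneg x (UMB.Lin.Ann_subset _ hx)
  have hw := ww_ge h.ok (v := v) hpos
  have hww : κ0 ≤ P.ww v (v x) := by linarith [hv.kap_ge]
  have hw0 : 0 < P.ww v (v x) := hv.κ0_pos.trans_le hww
  have hgr : gradNorm P.g (P.th v) x = Real.sqrt (gsq P.g v x) / P.ww v (v x) := by
    have h1 : ∀ i, pd i (P.th v) x = - (P.ww v (v x))⁻¹ * pd i v x := by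
      intro i
      have := W.D1_theta (expo h.ok) hv.kap_pos (UMB.Lin.isOpen_Ann P.R) hv.sol.smooth
        (fun y hy => hv.sol.nonneg y (UMB.Lin.Ann_subset _ hy)) hx i
      exact this
    unfold gradNorm
    simp only [h1]
    have h2 : (∑ i, ∑ j, (P.g x)⁻¹ i j * (- (P.ww v (v x))⁻¹ * pd i v x) * (- (P.ww v (v x))⁻¹ * pd j v x)) =
        gsq P.g v x / (P.ww v (v x)) ^ 2 := by
      unfold gsq gradU
      simp only [Fin.sum_univ_three]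
      field_simp
    rw [h2, Real.sqrt_div' _ (by positivity), Real.sqrt_sq hw0.le]
  rw [hgr]
  have h3 := a14_alg (C := P.CC v) (w := P.ww v (v x)) (g2 := gsq P.g v x) (gv := P.gv v x) (eps := P.eps) (q := P.q)
    (κ0 := κ0) (θ := P.th v x) (CC_pos h.ok v) hv.κ0_pos hww (hM.gsq_nonneg hxU) h.ok.eps_pos h.ok.eps_le rfl h.ok.q_pos
    h.ok.q_lt
  unfold mm
  rw [hb]
  exact h3

end UMB.FL
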