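import Pool.Agent.Lib.UMB.FL.F1
import Pool.Agent.Lib.UMB.FL.A14

/-! # UMB.FL, chunk F2 -/

set_option autoImplicit false

open Filter Topology Set MeasureTheory
open scoped ContDiff

namespace UMB.FL

open Pool.Agent.Lib.PenroseSph (E3 Tens pd chr trg gradNorm)
open UMB.Lin (Ann cAnn sig)

/-- `vol` is integrable on the annulus. -/
theorem f2_vol {g : Tens} {a : ℝ} (hg : AF g a) (R : ℝ) : IntegrableOn (vol g) (Ann R) := by
  have h1 : ContinuousOn (vol g) (cAnn R) := by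
    intro x hx
    have hx1 : a < ‖x‖ := hg.lt.trans_le hx.1
    have h2 : ContDiffAt ℝ ∞ (fun y => (g y).det) x :=
      s_det_at fun i j => (hg.smooth i j).contDiffAt ((isOpen_ext' a).mem_nhds hx1)
    unfold vol
    exact h2.continuousAt.sqrt.continuousWithinAt
  exact (h1.integrableOn_compact (UMB.Lin.isCompact_cAnn R)).mono_set (UMB.Lin.Ann_subset R)

/-- The window is measurable. -/
theorem f2_meas {P : Par} (h : HP P) {κ0 : ℝ} {v : E3 → ℝ} (hv : HV P κ0 v) (s t : ℝ) :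
    MeasurableSet {x : E3 | (1 < ‖x‖ ∧ ‖x‖ < P.R) ∧ s ≤ P.th v x ∧ P.th v x < t} := by
  have hc : ContinuousOn (P.th v) (Ann P.R) := (th_props h hv).1.continuousOn
  have ho : IsOpen (Ann P.R) := UMB.Lin.isOpen_Ann P.R
  have h1 : {x : E3 | (1 < ‖x‖ ∧ ‖x‖ < P.R) ∧ s ≤ P.th v x ∧ P.th v x < t} =
      (Ann P.R ∩ (P.th v) ⁻¹' (Iio t)) \ (Ann P.R ∩ (P.th v) ⁻¹' (Iio s)) := by
    ext x
    constructor
    · rintro ⟨h2, h3, h4⟩
      exact ⟨⟨h2, h4⟩, fun h5 => absurd h5.2 (not_lt.2 h3)⟩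
    · rintro ⟨⟨h2, h3⟩, h4⟩
      refine ⟨h2, ?_, h3⟩
      by_contra h5
      exact h4 ⟨h2, not_le.1 h5⟩
  rw [h1]
  exact (hc.isOpen_inter_preimage ho isOpen_Iio).measurableSet.diff (hc.isOpen_inter_preimage ho isOpen_Iio).measurableSet

/-- Letting `h` tend to `0`. -/
theorem f2_lim {B A c x h0 : ℝ} (hA : 0 ≤ A) (hh0 : 0 < h0) (H : ∀ h : ℝ, 0 < h → h < h0 → B ≤ (x + 2 * h) * A + c) :
    B ≤ x * A + c := by
  refine le_of_forall_pos_le_add fun ε hε => ?_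
  obtain ⟨h, hh, hh1, hh2⟩ : ∃ h : ℝ, 0 < h ∧ h < h0 ∧ 2 * h * A ≤ ε := by
    refine ⟨min (h0 / 2) (ε / (2 * (A + 1))), lt_min (by linarith) (by positivity), ?_, ?_⟩
    · exact (min_le_left _ _).trans_lt (by linarith)
    · calc 2 * min (h0 / 2) (ε / (2 * (A + 1))) * A ≤ 2 * (ε / (2 * (A + 1))) * A :=
            mul_le_mul_of_nonneg_right (mul_le_mul_of_nonneg_left (min_le_right _ _) (by norm_num)) hA
        _ = ε * (A / (A + 1)) := by field_simp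
        _ ≤ ε * 1 := mul_le_mul_of_nonneg_left ((div_le_one (by linarith)).2 (by linarith)) hε.le
        _ = ε := mul_one ε
  have := H h hh hh1
  nlinarith

/-- **F2** (M). THE WINDOW FORM. `T2 = F(v1)`; for `|x| ≥ R1/2` one has `v ≤ v1`, so `θ ≥ T2` (`W.FF_anti`); where `θ < T1 = F(2 v1)`
one has `v > 2 v1`, so `b = q`; `T1 < T2`. For small `h` take the bump of `exists_bump` (`t + h ≤ T2`), `y_bd` on `{s ≤ θ < t}`,
`F1` with `T' = t + h`, and let `h → 0`. `BT` = integral of `gradNorm^(1+q) vol` (`vol = √det` by definition);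
`C^{-q} 4 π C² = 4 π C^{2-q}`. The constant `C1` here is the one of `F1` plus `(1 + κ0⁻¹)² ∫_Ann vol`. -/
theorem F2 {q : ℝ} (hq : 0 < q) : ∃ Cq : ℝ, 0 ≤ Cq ∧ ∀ (P : Par), P.q = q → HP P → AF P.g P.a → ∀ κ0 : ℝ, 0 < κ0 →
    ∃ C1 : ℝ, 0 ≤ C1 ∧ ∀ (eps d : ℝ) (etm : E3 → ℝ), HP (upd P eps d etm) → ∀ v : E3 → ℝ, HV (upd P eps d etm) κ0 v →
      ∀ s t : ℝ, 0 < s → s < t → t ≤ (upd P eps d etm).T1 v →
        BT P.g ((upd P eps d etm).th v) P.R q s t ≤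
          (t - s) * (Real.exp ((2 - q) * t) * (4 * Real.pi * (upd P eps d etm).CC v ^ (2 - q)
            + (upd P eps d etm).CC v ^ (-q) * (Cq / (upd P eps d etm).CC v * (upd P eps d etm).Err v
            + C1 * (eps⁻¹ ^ 2 * d ^ (1 / 2 : ℝ))))) + C1 * eps := by
  obtain ⟨Cq, hCq, hF⟩ := F1 hq
  refine ⟨Cq, hCq, fun P hPq hP hg κ0 hκ0 => ?_⟩
  obtain ⟨C1, hC1, hF1⟩ := hF P hPq hP hg κ0 hκ0
  have hV0 : 0 ≤ ∫ x in Ann P.R, vol P.g x := setIntegral_nonneg (UMB.Lin.isOpen_Ann P.R).measurableSet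
    fun x _ => Real.sqrt_nonneg _
  refine ⟨C1 + (1 + κ0⁻¹) ^ 2 * ∫ x in Ann P.R, vol P.g x, by positivity, fun eps d etm hP' v hv s t hs hst htT => ?_⟩
  have hF2 := hF1 eps d etm hP' v hv
  obtain ⟨Q, hQdef⟩ : ∃ Q : Par, Q = upd P eps d etm := ⟨_, rfl⟩
  have hQR : Q.R = P.R := by rw [hQdef]; rfl
  have hQR1 : Q.R1 = P.R1 := by rw [hQdef]; rfl
  have hQg : Q.g = P.g := by rw [hQdef]; rfl
  have hQq : Q.q = q := by rw [hQdef]; exact hPq
  have hQeps : Q.eps = eps := by rw [hQdef]; rfl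
  have hQd : Q.d = d := by rw [hQdef]; rfl
  have hgQ : AF Q.g Q.a := by rw [hQdef]; exact hg
  rw [← hQdef] at hP' hv hF2 htT ⊢
  have heps : 0 < eps := by rw [← hQeps]; exact hP'.ok.eps_pos
  have hd : 0 < d := by rw [← hQd]; exact hP'.ok.d_pos
  have hq1 : q < 1 := by rw [← hQq]; exact hP'.ok.q_lt
  have hκ : 0 < Q.kap v := hv.kap_pos
  have hC : 0 < Q.CC v := CC_pos hP'.ok v
  have hv1 : 0 < Q.v1 := v1_pos hP'.ok
  have hexpo := expo hP'.ok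
  have hanti := W.FF_anti hexpo hκ
  have hA : MeasurableSet (Ann P.R) := (UMB.Lin.isOpen_Ann P.R).measurableSet
  have hR1 : 0 < Q.R1 := by
    have := hP'.ok.R1_ge
    have := hP'.ok.r1_ge
    linarith
  have hsubc : ∀ x ∈ Ann P.R, x ∈ cAnn Q.R := by
    intro x hx
    rw [hQR]
    exact UMB.Lin.Ann_subset P.R hx
  have hvn : ∀ x ∈ Ann P.R, 0 ≤ v x := fun x hx => hv.sol.nonneg x (hsubc x hx)
  -- the far zone
  have hT12 : Q.T1 v < Q.T2 v := hanti (Set.mem_Ici.2 hv1.le) (Set.mem_Ici.2 (by linarith)) (by linarith)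
  have hfar : ∀ x ∈ Ann P.R, 3 * P.R1 / 2 ≤ ‖x‖ → Q.T2 v ≤ Q.th v x := by
    intro x hx hx2
    have h1 : v x ≤ Q.v1 := hv.far x (hsubc x hx) (by rw [hQR1]; rw [hQR1] at hR1; linarith)
    exact hanti.antitoneOn (Set.mem_Ici.2 (hvn x hx)) (Set.mem_Ici.2 hv1.le) h1
  -- the near zone
  have hnear : ∀ x ∈ Ann P.R, Q.th v x < t → Q.b (v x) = Q.q := by
    intro x hx hx2
    refine b_eq_q hP'.ok ?_
    by_contra h1
    have h2 : Q.T1 v < Q.th v x := hanti (Set.mem_Ici.2 (hvn x hx)) (Set.mem_Ici.2 (by linarith)) (not_le.1 h1)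
    linarith
  have hed := ed_int hP' hgQ hv
  rw [hQR, hQg] at hed
  have hErr : 0 ≤ Q.Err v := by
    rw [Err_eq, hQR]
    have hm := f1_shell_meas hv
    rw [hQR] at hm
    exact setIntegral_nonneg hm fun x hx => (hed.2.2 x hx.2).1
  have hvolI := f2_vol hg P.R
  obtain ⟨K, hK⟩ : ∃ K : ℝ, K = 4 * Real.pi * Q.CC v ^ 2 + Cq / Q.CC v * Q.Err v + C1 * (eps⁻¹ ^ 2 * d ^ (1 / 2 : ℝ)) := ⟨_, rfl⟩
  have hK0 : 0 ≤ K := by rw [hK]; positivity
  obtain ⟨E, hE⟩ : ∃ E : ℝ, E = Q.CC v ^ (-q) * Real.exp ((2 - q) * t) := ⟨_, rfl⟩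
  have hE0 : 0 ≤ E := by rw [hE]; positivity
  -- the inequality for a bump
  have hh : ∀ h : ℝ, 0 < h → h < min s (Q.T2 v - t) → BT P.g (Q.th v) P.R q s t ≤
      ((t - s) + 2 * h) * (E * K) + (1 + κ0⁻¹) ^ 2 * eps * ∫ x in Ann P.R, vol P.g x := by
    intro h hh0 hh1
    obtain ⟨rh, ht, hrh1, -, hetb⟩ := exists_bump hh0 (hh1.trans_le (min_le_left _ _)) hst.le
    have hth : t + h ≤ Q.T2 v := by
      have := hh1.trans_le (min_le_right _ _)
      linarith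
    have hfl := hF2 rh (s - h) (t + h) ht fun x hx hx2 => hth.trans (hfar x hx hx2)
    obtain ⟨hI, -, -⟩ := ident hP' hgQ hv ht (by
      rw [hQR, hQR1]
      exact fun x hx hx2 => hth.trans (hfar x hx hx2))
    rw [hQR, hQg] at hI
    have hmm0 : ∀ x ∈ Ann P.R, 0 ≤ rh (Q.th v x) * (mm Q v x * vol P.g x) := fun x hx =>
      mul_nonneg (ht.nonneg _) (hed.2.2 x hx).2
    have hgI : IntegrableOn (fun x => E * (rh (Q.th v x) * (mm Q v x * vol P.g x)) + (1 + κ0⁻¹) ^ 2 * eps * vol P.g x)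
        (Ann P.R) := (hI.const_mul _).add (hvolI.const_mul _)
    have hg0 : ∀ x ∈ Ann P.R, 0 ≤ E * (rh (Q.th v x) * (mm Q v x * vol P.g x)) + (1 + κ0⁻¹) ^ 2 * eps * vol P.g x :=
      fun x hx => add_nonneg (mul_nonneg hE0 (hmm0 x hx)) (mul_nonneg (by positivity) (Real.sqrt_nonneg _))
    have hWm := f2_meas hP' hv s t
    rw [hQR] at hWm
    have hWs : {x : E3 | (1 < ‖x‖ ∧ ‖x‖ < P.R) ∧ s ≤ Q.th v x ∧ Q.th v x < t} ⊆ Ann P.R := fun x hx => hx.1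
    have hle : ∀ x ∈ {x : E3 | (1 < ‖x‖ ∧ ‖x‖ < P.R) ∧ s ≤ Q.th v x ∧ Q.th v x < t},
        gradNorm P.g (Q.th v) x ^ (1 + q) * Real.sqrt (P.g x).det ≤
          E * (rh (Q.th v x) * (mm Q v x * vol P.g x)) + (1 + κ0⁻¹) ^ 2 * eps * vol P.g x := by
      intro x hx
      have hxA : x ∈ Ann P.R := hx.1
      have hxQ : x ∈ Ann Q.R := by rw [hQR]; exact hxA
      have h1 := y_bd hP' hgQ hv hxQ (hnear x hxA hx.2.2)
      rw [hQg, hQq, hQeps] at h1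
      rw [hrh1 _ hx.2.1 hx.2.2.le, one_mul]
      have hvol : 0 ≤ vol P.g x := Real.sqrt_nonneg _
      have hmmv := (hed.2.2 x hxA).2
      have h2 := mul_le_mul_of_nonneg_right h1 hvol
      have h3 : Real.exp ((2 - q) * Q.th v x) ≤ Real.exp ((2 - q) * t) :=
        Real.exp_le_exp.2 (mul_le_mul_of_nonneg_left hx.2.2.le (by linarith))
      have h4 : Q.CC v ^ (-q) * Real.exp ((2 - q) * Q.th v x) * (mm Q v x * vol P.g x) ≤ E * (mm Q v x * vol P.g x) := by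
        rw [hE]
        exact mul_le_mul_of_nonneg_right (mul_le_mul_of_nonneg_left h3 (by positivity)) hmmv
      have h5 : (Q.CC v ^ (-q) * Real.exp ((2 - q) * Q.th v x) * mm Q v x + (1 + κ0⁻¹) ^ 2 * eps) * vol P.g x =
          Q.CC v ^ (-q) * Real.exp ((2 - q) * Q.th v x) * (mm Q v x * vol P.g x) + (1 + κ0⁻¹) ^ 2 * eps * vol P.g x := by
        ring
      rw [h5] at h2
      exact h2.trans (by linarith)
    have hf0 : ∀ x, 0 ≤ gradNorm P.g (Q.th v) x ^ (1 + q) * Real.sqrt (P.g x).det := fun x =>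
      mul_nonneg (Real.rpow_nonneg (Real.sqrt_nonneg _) _) (Real.sqrt_nonneg _)
    calc BT P.g (Q.th v) P.R q s t
        ≤ ∫ x in {x : E3 | (1 < ‖x‖ ∧ ‖x‖ < P.R) ∧ s ≤ Q.th v x ∧ Q.th v x < t},
            (E * (rh (Q.th v x) * (mm Q v x * vol P.g x)) + (1 + κ0⁻¹) ^ 2 * eps * vol P.g x) :=
          integral_mono_of_nonneg (Eventually.of_forall hf0) (hgI.mono_set hWs)
            ((ae_restrict_iff' hWm).2 (Eventually.of_forall hle))
      _ ≤ ∫ x in Ann P.R, (E * (rh (Q.th v x) * (mm Q v x * vol P.g x)) + (1 + κ0⁻¹) ^ 2 * eps * vol P.g x) :=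
          setIntegral_mono_set hgI ((ae_restrict_iff' hA).2 (Eventually.of_forall hg0)) hWs.eventuallyLE
      _ = E * (∫ x in Ann P.R, rh (Q.th v x) * (mm Q v x * vol P.g x)) + (1 + κ0⁻¹) ^ 2 * eps * ∫ x in Ann P.R, vol P.g x := by
          rw [integral_add (hI.const_mul _) (hvolI.const_mul _), integral_const_mul, integral_const_mul]
      _ ≤ E * (((t - s) + 2 * h) * K) + (1 + κ0⁻¹) ^ 2 * eps * ∫ x in Ann P.R, vol P.g x := by
          have h6 : ∫ x in Ann P.R, rh (Q.th v x) * (mm Q v x * vol P.g x) ≤ ((t - s) + 2 * h) * K := by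
            rw [hK]
            refine hfl.trans ?_
            rw [← hK]
            exact mul_le_mul_of_nonneg_right hetb hK0
          have h7 := mul_le_mul_of_nonneg_left h6 hE0
          linarith
      _ = ((t - s) + 2 * h) * (E * K) + (1 + κ0⁻¹) ^ 2 * eps * ∫ x in Ann P.R, vol P.g x := by ring
  have hlim := f2_lim (mul_nonneg hE0 hK0) (lt_min hs (by linarith)) hh
  refine hlim.trans ?_
  have hE4 : E * K = Real.exp ((2 - q) * t) * (4 * Real.pi * Q.CC v ^ (2 - q) + Q.CC v ^ (-q) *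
      (Cq / Q.CC v * Q.Err v + C1 * (eps⁻¹ ^ 2 * d ^ (1 / 2 : ℝ)))) := by
    have h8 : Q.CC v ^ (2 - q) = Q.CC v ^ (-q) * Q.CC v ^ 2 := by
      rw [← Real.rpow_natCast (Q.CC v) 2, ← Real.rpow_add hC]
      congr 1
      push_cast
      ring
    rw [hE, hK, h8]
    ring
  have hmon : E * K ≤ Real.exp ((2 - q) * t) * (4 * Real.pi * Q.CC v ^ (2 - q) + Q.CC v ^ (-q) *
      (Cq / Q.CC v * Q.Err v + (C1 + (1 + κ0⁻¹) ^ 2 * ∫ x in Ann P.R, vol P.g x) * (eps⁻¹ ^ 2 * d ^ (1 / 2 : ℝ)))) := by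
    rw [hE4]
    have h9 : C1 ≤ C1 + (1 + κ0⁻¹) ^ 2 * ∫ x in Ann P.R, vol P.g x := by
      have : 0 ≤ (1 + κ0⁻¹) ^ 2 * ∫ x in Ann P.R, vol P.g x := mul_nonneg (sq_nonneg _) hV0
      linarith
    have h10 : 0 ≤ eps⁻¹ ^ 2 * d ^ (1 / 2 : ℝ) := by positivity
    have h11 := mul_le_mul_of_nonneg_right h9 h10
    have h12 : 0 ≤ Q.CC v ^ (-q) := by positivity
    have h13 := mul_le_mul_of_nonneg_left h11 h12
    refine mul_le_mul_of_nonneg_left ?_ (Real.exp_pos _).le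
    linarith
  have h14 := mul_le_mul_of_nonneg_left hmon (by linarith : (0 : ℝ) ≤ t - s)
  have h15 : (1 + κ0⁻¹) ^ 2 * eps * ∫ x in Ann P.R, vol P.g x ≤ (C1 + (1 + κ0⁻¹) ^ 2 * ∫ x in Ann P.R, vol P.g x) * eps := by
    have : 0 ≤ C1 * eps := by positivity
    linarith
  linarith

end UMB.FL
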