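import Pool.Agent.Lib.UMB.FL.F1

/-! # UMB.FL, chunk F3 -/

set_option autoImplicit false

open Filter Topology Set MeasureTheory
open scoped ContDiff

namespace UMB.FL

open Pool.Agent.Lib.PenroseSph (E3 Tens pd chr trg gradNorm)
open UMB.Lin (Ann cAnn sig)

/-- **F3** (M). THE SHELL BOUND (input of the rounding block): `m = ∫_shell mm vol ≤ 3 (4 π C² + ...)`. The shell is
`{T1 ≤ θ ≤ T2}` (`F` is strictly decreasing). `T1 ≥ 1` is assumed, and a level `T3 > T2`, `T3 ≤ T1 + 1` with `θ ≥ T3` for `|x| ≥ 3R1/2`. Take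
the bump for `s = T1`, `t = T2`, `h = min ((T3 - T2)/2) (1/2)`: `η(T') ≤ T2 - T1 + 2h ≤ 3`. -/
theorem F3 {q : ℝ} (hq : 0 < q) : ∃ Cq : ℝ, 0 ≤ Cq ∧ ∀ (P : Par), P.q = q → HP P → AF P.g P.a → ∀ κ0 : ℝ, 0 < κ0 →
    ∃ C1 : ℝ, 0 ≤ C1 ∧ ∀ (eps d : ℝ) (etm : E3 → ℝ), HP (upd P eps d etm) → ∀ v : E3 → ℝ, HV (upd P eps d etm) κ0 v →
      1 ≤ (upd P eps d etm).T1 v → (∃ T3 : ℝ, (upd P eps d etm).T2 v < T3 ∧ T3 ≤ (upd P eps d etm).T1 v + 2 ∧
        ∀ x ∈ Ann P.R, 3 * P.R1 / 2 ≤ ‖x‖ → T3 ≤ (upd P eps d etm).th v x) →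
        ∫ x in shell (upd P eps d etm) v ∩ Ann P.R, mm (upd P eps d etm) v x * vol P.g x ≤
          3 * (4 * Real.pi * (upd P eps d etm).CC v ^ 2 + Cq / (upd P eps d etm).CC v * (upd P eps d etm).Err v
            + C1 * (eps⁻¹ ^ 2 * d ^ (1 / 2 : ℝ))) := by
  obtain ⟨Cq, hCq, hF⟩ := F1 hq
  refine ⟨Cq, hCq, ?_⟩
  intro P hPq hP hAF κ0 hκ0
  obtain ⟨C1, hC1, hF1⟩ := hF P hPq hP hAF κ0 hκ0
  refine ⟨C1, hC1, ?_⟩
  intro eps d etm hP' v hv hT1 hT3
  obtain ⟨T3, hT23, hT31, hfar⟩ := hT3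
  set P' := upd P eps d etm with hP'def
  have hok : P'.Ok := hP'.ok
  have hκ : 0 < P'.kap v := hv.kap_pos
  have hv1 : 0 < P'.v1 := v1_pos hok
  have hanti := W.FF_anti (expo hok) hκ
  have hT12 : P'.T1 v ≤ P'.T2 v := by
    refine hanti.antitoneOn ?_ ?_ ?_
    · exact hv1.le
    · show (0 : ℝ) ≤ 2 * P'.v1
      linarith
    · linarith
  set h := min ((T3 - P'.T2 v) / 2) (1 / 2) with hh
  have hhpos : 0 < h := lt_min (by linarith) (by norm_num)
  have hh1 : h ≤ (T3 - P'.T2 v) / 2 := min_le_left _ _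
  have hh2 : h ≤ 1 / 2 := min_le_right _ _
  obtain ⟨rh, hTst, hrh1, hrhle, hrheta⟩ := exists_bump (s := P'.T1 v) (t := P'.T2 v) hhpos
    (by linarith) hT12
  have hmain := hF1 eps d etm hP' v hv rh _ _ hTst (fun x hx hx2 => by
    have := hfar x hx hx2
    linarith)
  obtain ⟨_, hmmint, hpos⟩ := ed_int hP' hAF hv
  -- the bracket is nonnegative
  have hvc : ContinuousOn v (Ann P.R) := hv.sol.smooth.continuousOn
  have hthc : ContinuousOn (P'.th v) (Ann P.R) := (th_props hP' hv).1.continuousOn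
  have hAopen : IsOpen (Ann P.R) := UMB.Lin.isOpen_Ann P.R
  have hAmeas : MeasurableSet (Ann P.R) := hAopen.measurableSet
  have hSmeas : MeasurableSet (shell P' v ∩ Ann P.R) := by
    have h1 : IsOpen (Ann P.R ∩ v ⁻¹' (Icc P'.v1 (2 * P'.v1))ᶜ) :=
      hvc.isOpen_inter_preimage hAopen isClosed_Icc.isOpen_compl
    have h2 : shell P' v ∩ Ann P.R = Ann P.R \ (Ann P.R ∩ v ⁻¹' (Icc P'.v1 (2 * P'.v1))ᶜ) := by
      ext x
      simp only [shell, mem_inter_iff, mem_setOf_eq, mem_diff, mem_preimage, mem_compl_iff, mem_Icc]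
      constructor
      · rintro ⟨a1, a2⟩
        exact ⟨a2, fun a3 => a3.2 a1⟩
      · rintro ⟨a1, a2⟩
        refine ⟨?_, a1⟩
        by_contra a3
        exact a2 ⟨a1, a3⟩
    rw [h2]
    exact hAmeas.diff h1.measurableSet
  have hint : IntegrableOn (fun x => rh (P'.th v x) * (mm P' v x * vol P.g x)) (Ann P.R) := by
    have h1 : AEStronglyMeasurable (fun x => rh (P'.th v x)) (volume.restrict (Ann P.R)) :=
      (hTst.smooth.continuous.comp_continuousOn hthc).aestronglyMeasurable hAmeas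
    refine Integrable.bdd_mul (c := 1) hmmint h1 (Eventually.of_forall (fun x => ?_))
    rw [Real.norm_of_nonneg (hTst.nonneg _)]
    exact hrhle _
  have h1 : ∫ x in shell P' v ∩ Ann P.R, mm P' v x * vol P.g x =
      ∫ x in shell P' v ∩ Ann P.R, rh (P'.th v x) * (mm P' v x * vol P.g x) := by
    refine setIntegral_congr_fun hSmeas (fun x hx => ?_)
    have hx1 : P'.v1 ≤ v x := hx.1.1
    have hx2 : v x ≤ 2 * P'.v1 := hx.1.2
    have h3 : P'.T1 v ≤ P'.th v x := hanti.antitoneOn (show (0 : ℝ) ≤ v x by linarith)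
      (show (0 : ℝ) ≤ 2 * P'.v1 by linarith) hx2
    have h4 : P'.th v x ≤ P'.T2 v := hanti.antitoneOn (show (0 : ℝ) ≤ P'.v1 from hv1.le)
      (show (0 : ℝ) ≤ v x by linarith) hx1
    show mm P' v x * vol P.g x = rh (P'.th v x) * (mm P' v x * vol P.g x)
    rw [hrh1 _ h3 h4, one_mul]
  have h2 : ∫ x in shell P' v ∩ Ann P.R, rh (P'.th v x) * (mm P' v x * vol P.g x) ≤
      ∫ x in Ann P.R, rh (P'.th v x) * (mm P' v x * vol P.g x) := by
    refine setIntegral_mono_set hint ?_ (Eventually.of_forall (fun x hx => hx.2))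
    refine (ae_restrict_iff' hAmeas).mpr (Eventually.of_forall (fun x hx => ?_))
    exact mul_nonneg (hTst.nonneg _) (hpos x hx).2
  rw [h1]
  refine h2.trans (hmain.trans ?_)
  have heta : eta rh (P'.T2 v + h) ≤ 3 := by linarith
  refine mul_le_mul_of_nonneg_right heta ?_
  have hErr : 0 ≤ P'.Err v := by
    rw [Err_eq]
    exact setIntegral_nonneg hSmeas (fun x hx => (hpos x hx.2).1)
  have hCC : 0 < P'.CC v := CC_pos hok v
  have hd : 0 < P'.d := hok.d_pos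
  have hd' : 0 < d := hd
  have heps : 0 < eps := hok.eps_pos
  positivity

end UMB.FL
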