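import Pool.Agent.Lib.UMB.Asm.FA
import Pool.Agent.Lib.UMB.Asm.Moll
import Pool.Agent.Lib.UMB.B.Bw
import Pool.Agent.Lib.UMB.BR.Top
import Pool.Agent.Lib.UMB.FL.F2
import Pool.Agent.Lib.UMB.FL.F3
import Pool.Agent.Lib.UMB.FL.A15

/-! # UMB.FL: the inputs `F1w`, `F2w` of `flux'` -/

set_option autoImplicit false

open Filter Topology Set MeasureTheory
open scoped ContDiff

namespace UMB.FL

open Pool.Agent.Lib.PenroseSph (E3 Tens pd chr trg gradNorm)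
open UMB.Lin (Ann cAnn sig)

/-- The input of block F from block B. -/
theorem HVw {g : Tens} {a : ℝ} (hg : AF g a) (K : ℝ) :
    ∃ c00 : ℝ, 0 ≤ c00 ∧ ∀ c0 : ℝ, c00 ≤ c0 → ∀ q : ℝ, 0 < q → q < 1 → ∃ cq : ℝ, 0 < cq ∧ ∀ N : ℝ,
      ∀ᶠ R1 in atTop, ∀ R0 : ℝ, ∀ᶠ R in atTop, FA g a K c0 q R1 R0 R fun P v =>
        0 < P.kap v ∧ P.kap v ≤ P.v1 ∧ cq ≤ P.CC v ∧ N ≤ P.T1 v ∧
          (∀ x ∈ cAnn P.R, v x ≤ (P.r1 / ‖x‖) ^ (P.q / 2)) ∧
          ∀ r : ℝ, 2 * P.R1 ≤ r → r ≤ P.R → Par.mean v r = P.Cv v * (1 / r - 1 / P.R) :=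
  UMB.B.HVw hg K

theorem top_v1 {P : Par} (h : P.Ok) : P.v1 = (2 * P.r1 / P.R1) ^ (P.q / 2) := by
  unfold Par.v1
  apply min_eq_right
  have h1 := h.r1_ge
  have h2 := h.R1_ge
  have h3 : 0 < P.R1 := by linarith
  apply Real.rpow_le_one (by positivity) _ (by have := h.q_pos; linarith)
  rw [div_le_one h3]
  linarith

theorem hp_of {g k : Tens} {a K η0 R0 δ' : ℝ} {η : E3 → ℝ} (hg : AF g a) (hk : Adm g k a K η η0 R0 δ')
    {c0 q R1 R eps d : ℝ} {eta : E3 → ℝ} (hP : (mkP g k a c0 q R1 R eps d eta).Ok) :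
    HP (mkP g k a c0 q R1 R eps d eta) where
  ok := hP
  opok := BR.op_ok hg hk hP
  met := BR.met (P := mkP g k a c0 q R1 R eps d eta) hg hP
  two := two_of (P := mkP g k a c0 q R1 R eps d eta) hP hg hk.two

theorem hv_of {P : Par} (hP : P.Ok) {cq : ℝ} {v : E3 → ℝ} (hv : W.Sol P.op v) (hcq : 0 < cq)
    (h1 : 0 < P.kap v) (h2 : P.kap v ≤ P.v1) (h3 : cq ≤ P.CC v)
    (h5 : ∀ x ∈ cAnn P.R, v x ≤ (P.r1 / ‖x‖) ^ (P.q / 2))
    (h6 : ∀ r : ℝ, 2 * P.R1 ≤ r → r ≤ P.R → Par.mean v r = P.Cv v * (1 / r - 1 / P.R)) :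
    HV P (cq * P.v1 / P.R) v where
  sol := hv
  κ0_pos := by
    have := v1_pos hP
    have hR : 0 < P.R := by linarith [hP.r1_ge, hP.R1_ge, hP.R_ge]
    positivity
  kap_ge := by
    have hv1 := v1_pos hP
    have hR : 0 < P.R := by linarith [hP.r1_ge, hP.R1_ge, hP.R_ge]
    have hCv : 0 < P.Cv v := by
      have e : P.kap v = P.Cv v / P.R := rfl
      rw [e] at h1
      have := mul_pos h1 hR
      rwa [div_mul_cancel₀ _ hR.ne'] at this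
    have hF : 0 ≤ P.F v P.v1 := (W.FF_bd (expo hP) h1 hv1.le (v1_le hP)).1
    have hCst : P.Cst v ≤ 1 / P.v1 := by
      unfold Par.Cst
      have e1 : Real.exp (-P.F v P.v1) ≤ 1 := Real.exp_le_one_iff.2 (by linarith)
      exact div_le_div₀ zero_le_one e1 hv1 (by linarith)
    have e2 := CC_eq hP h1
    have e3 : P.CC v ≤ P.Cv v / P.v1 := by
      rw [e2]
      have := mul_le_mul_of_nonneg_right hCst hCv.le
      calc P.Cst v * P.Cv v ≤ 1 / P.v1 * P.Cv v := this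
        _ = P.Cv v / P.v1 := by ring
    have e4 : cq * P.v1 ≤ P.Cv v := by
      have := h3.trans e3
      rwa [le_div_iff₀ hv1] at this
    have e : P.kap v = P.Cv v / P.R := rfl
    rw [e]
    exact div_le_div_of_nonneg_right e4 hR.le
  kap_le := h2
  far := by
    intro x hx hx2
    rw [top_v1 hP]
    refine (h5 x hx).trans ?_
    have h1 := hP.r1_ge
    have h2 := hP.R1_ge
    have h3 : 0 < P.R1 := by linarith
    have hx0 : 0 < ‖x‖ := by linarith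
    apply Real.rpow_le_rpow (by positivity) _ (by have := hP.q_pos; linarith)
    rw [div_le_div_iff₀ hx0 h3]
    nlinarith
  mean := h6

/-- `Err ≥ 0`. -/
theorem Err_nonneg {P : Par} (h : HP P) (hg : AF P.g P.a) {κ0 : ℝ} {v : E3 → ℝ} (hv : HV P κ0 v) : 0 ≤ P.Err v := by
  rw [Err_eq]
  have hm : MeasurableSet (shell P v ∩ Ann P.R) := by
    have h1 : IsClosed (cAnn P.R ∩ v ⁻¹' (Icc P.v1 (2 * P.v1))) :=
      hv.sol.cont.preimage_isClosed_of_isClosed (UMB.Lin.isCompact_cAnn P.R).isClosed isClosed_Icc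
    have h2 : shell P v ∩ Ann P.R = (cAnn P.R ∩ v ⁻¹' (Icc P.v1 (2 * P.v1))) ∩ Ann P.R := by
      ext x
      constructor
      · rintro ⟨hx1, hx2⟩
        exact ⟨⟨UMB.Lin.Ann_subset P.R hx2, hx1⟩, hx2⟩
      · rintro ⟨⟨_, hx1⟩, hx2⟩
        exact ⟨hx1, hx2⟩
    rw [h2]
    exact h1.measurableSet.inter (UMB.Lin.measurableSet_Ann P.R)
  exact setIntegral_nonneg hm fun x hx => ((ed_int h hg hv).2.2 x hx.2).1

/-- Smallness: `C eps ≤ τ` for small `eps`. -/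
theorem top_small {C τ : ℝ} (hC : 0 ≤ C) (hτ : 0 < τ) : ∀ᶠ eps in 𝓝[>] (0 : ℝ), C * eps ≤ τ := by
  have h1 : 0 < τ / (C + 1) := by positivity
  filter_upwards [Ioo_mem_nhdsGT h1] with eps heps
  have h2 : eps * (C + 1) ≤ τ := by
    have := heps.2.le
    rwa [le_div_iff₀ (by linarith)] at this
  nlinarith [heps.1]

theorem top_small2 {C τ : ℝ} (hC : 0 ≤ C) (hτ : 0 < τ) : ∀ᶠ d in 𝓝[>] (0 : ℝ), C * d ^ (1 / 2 : ℝ) ≤ τ := by
  have h1 : 0 < (τ / (C + 1)) ^ 2 := by positivity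
  filter_upwards [Ioo_mem_nhdsGT h1] with d hd
  have h2 : d ^ (1 / 2 : ℝ) ≤ τ / (C + 1) := by
    rw [← Real.sqrt_eq_rpow]
    exact Real.sqrt_le_iff.2 ⟨by positivity, hd.2.le⟩
  have h3 : d ^ (1 / 2 : ℝ) * (C + 1) ≤ τ := by
    rwa [le_div_iff₀ (by linarith)] at h2
  have h4 : 0 ≤ d ^ (1 / 2 : ℝ) := Real.rpow_nonneg hd.1.le _
  nlinarith

theorem base_ok {g k : Tens} {a c0 q R1 R : ℝ} {em : E3 → ℝ} (hc0 : 0 ≤ c0) (hq0 : 0 < q) (hq1 : q < 1)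
    (hR1 : 4 * (1 + 100 * c0 / q) ≤ R1) (hR : 8 * R1 ≤ R) (hem : Moll em) : (mkP g k a c0 q R1 R 1 1 em).Ok where
  q_pos := hq0
  q_lt := hq1
  r1_ge := by
    show 1 ≤ 1 + 100 * c0 / q
    have : 0 ≤ 100 * c0 / q := by positivity
    linarith
  R1_ge := hR1
  R_ge := hR
  eps_pos := one_pos
  eps_le := le_rfl
  d_pos := one_pos
  d_le := le_rfl
  eta_smooth := hem.smooth
  eta_nonneg := hem.nonneg
  eta_supp := hem.supp
  eta_int := hem.int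

/-- **F2w** (the input of `flux'`). -/
theorem F2w {g : Tens} {a : ℝ} (hg : AF g a) (K : ℝ) :
    ∃ c00 : ℝ, 0 ≤ c00 ∧ ∀ c0 : ℝ, c00 ≤ c0 → ∀ q : ℝ, 0 < q → q < 1 → ∃ Cq : ℝ, 0 < Cq ∧
      ∀ᶠ R1 in atTop, ∀ R0 : ℝ, ∀ᶠ R in atTop, ∀ τ : ℝ, 0 < τ → FA g a K c0 q R1 R0 R fun P v =>
        BT g (P.th v) R q (q ^ 2 / 16) (q ^ 2 / 8) ≤
          (q ^ 2 / 16) * (Real.exp ((2 - q) * (q ^ 2 / 8)) *
            (4 * Real.pi * P.CC v ^ (2 - q) + Cq * P.CC v ^ (-q) * (P.Err v / P.CC v) + τ)) := by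
  obtain ⟨c00, h00, H⟩ := HVw hg K
  refine ⟨c00, h00, fun c0 hc0 q hq0 hq1 => ?_⟩
  obtain ⟨cq, hcq, H⟩ := H c0 hc0 q hq0 hq1
  obtain ⟨Cq, hCq, HF⟩ := F2 hq0
  refine ⟨Cq + 1, by linarith, ?_⟩
  filter_upwards [H 1, eventually_ge_atTop (4 * (1 + 100 * c0 / q))] with R1 H hR1 R0
  filter_upwards [H R0, eventually_ge_atTop (8 * R1)] with R H hR τ hτ
  intro k η η0 δ' h1 h3 eta heta
  obtain ⟨em, hem⟩ := exists_moll
  have hP0 : (mkP g k a c0 q R1 R 1 1 em).Ok := base_ok (h00.trans hc0) hq0 hq1 hR1 hR hem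
  have hHP0 := hp_of hg h3 hP0
  have hv1 := v1_pos hP0
  have hRp : 0 < R := by
    have h5 := hP0.r1_ge
    have h6 : 4 * (mkP g k a c0 q R1 R 1 1 em).r1 ≤ R1 := hP0.R1_ge
    linarith
  obtain ⟨κ0, hκ0⟩ : ∃ κ0 : ℝ, κ0 = cq * (mkP g k a c0 q R1 R 1 1 em).v1 / R := ⟨_, rfl⟩
  have hκ0p : 0 < κ0 := by rw [hκ0]; positivity
  obtain ⟨C1, hC1, HF⟩ := HF _ rfl hHP0 hg κ0 hκ0p
  have hcc : 0 < cq ^ (-q) := Real.rpow_pos_of_pos hcq _
  filter_upwards [H k η η0 δ' h1 h3 eta heta, top_small hC1 (show 0 < q ^ 2 / 16 * (τ / 2) by positivity),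
    self_mem_nhdsWithin] with eps Heps heps1 heps0
  have heps0' : 0 < eps := heps0
  filter_upwards [Heps, top_small2 (C := cq ^ (-q) * C1 * eps⁻¹ ^ 2) (by positivity)
    (show 0 < τ / 2 by positivity), self_mem_nhdsWithin] with d Hd hd1 hd0
  have hd0' : 0 < d := hd0
  intro hP v hv
  obtain ⟨k1, k2, k3, k4, k5, k6⟩ := Hd hP v hv
  have hHP := hp_of hg h3 hP
  have hHV := hv_of hP hv hcq k1 k2 k3 k5 k6
  have hHV' : HV (upd (mkP g k a c0 q R1 R 1 1 em) eps d eta) κ0 v := by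
    rw [hκ0]
    exact hHV
  have hfin := HF eps d eta hHP v hHV' (q ^ 2 / 16) (q ^ 2 / 8) (by positivity) (by nlinarith [sq_pos_of_pos hq0])
    (le_trans (by nlinarith) k4)
  have hErr := Err_nonneg hHP hg hHV
  show BT g ((mkP g k a c0 q R1 R eps d eta).th v) R q (q ^ 2 / 16) (q ^ 2 / 8) ≤ _
  have hup : upd (mkP g k a c0 q R1 R 1 1 em) eps d eta = mkP g k a c0 q R1 R eps d eta := rfl
  rw [hup] at hfin
  have hCC : 0 < (mkP g k a c0 q R1 R eps d eta).CC v := hcq.trans_le k3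
  have hCCq : (mkP g k a c0 q R1 R eps d eta).CC v ^ (-q) ≤ cq ^ (-q) :=
    Real.rpow_le_rpow_of_nonpos hcq k3 (by linarith)
  have hCCq0 : 0 < (mkP g k a c0 q R1 R eps d eta).CC v ^ (-q) := Real.rpow_pos_of_pos hCC _
  refine hfin.trans ?_
  have he : 1 ≤ Real.exp ((2 - q) * (q ^ 2 / 8)) := Real.one_le_exp (by positivity [show 0 < 2 - q by linarith])
  generalize (mkP g k a c0 q R1 R eps d eta).CC v = X at *
  generalize (mkP g k a c0 q R1 R eps d eta).Err v = Y at *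
  have hd2 : X ^ (-q) * (C1 * (eps⁻¹ ^ 2 * d ^ (1 / 2 : ℝ))) ≤ τ / 2 := by
    refine le_trans ?_ hd1
    have h4 : 0 ≤ d ^ (1 / 2 : ℝ) := Real.rpow_nonneg hd0'.le _
    have h5 : 0 ≤ C1 * (eps⁻¹ ^ 2 * d ^ (1 / 2 : ℝ)) := by positivity
    calc X ^ (-q) * (C1 * (eps⁻¹ ^ 2 * d ^ (1 / 2 : ℝ))) ≤ cq ^ (-q) * (C1 * (eps⁻¹ ^ 2 * d ^ (1 / 2 : ℝ))) :=
          mul_le_mul_of_nonneg_right hCCq h5
      _ = _ := by ring
  have hd3 : X ^ (-q) * (Cq / X * Y) ≤ (Cq + 1) * X ^ (-q) * (Y / X) := by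
    have : 0 ≤ X ^ (-q) * (Y / X) := mul_nonneg hCCq0.le (div_nonneg hErr hCC.le)
    calc X ^ (-q) * (Cq / X * Y) = Cq * (X ^ (-q) * (Y / X)) := by ring
      _ ≤ (Cq + 1) * (X ^ (-q) * (Y / X)) := by nlinarith
      _ = _ := by ring
  have hA : q ^ 2 / 8 - q ^ 2 / 16 = q ^ 2 / 16 := by ring
  rw [hA]
  have hq16 : 0 < q ^ 2 / 16 := by positivity
  have hB : 4 * Real.pi * X ^ (2 - q) + X ^ (-q) * (Cq / X * Y + C1 * (eps⁻¹ ^ 2 * d ^ (1 / 2 : ℝ))) ≤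
      4 * Real.pi * X ^ (2 - q) + (Cq + 1) * X ^ (-q) * (Y / X) + τ / 2 := by
    rw [mul_add]
    linarith
  have hC : Real.exp ((2 - q) * (q ^ 2 / 8)) * (4 * Real.pi * X ^ (2 - q) + X ^ (-q) * (Cq / X * Y +
      C1 * (eps⁻¹ ^ 2 * d ^ (1 / 2 : ℝ)))) + τ / 2 ≤ Real.exp ((2 - q) * (q ^ 2 / 8)) *
      (4 * Real.pi * X ^ (2 - q) + (Cq + 1) * X ^ (-q) * (Y / X) + τ) := by
    have h6 := mul_le_mul_of_nonneg_left hB (Real.exp_pos ((2 - q) * (q ^ 2 / 8))).le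
    nlinarith
  calc _ ≤ q ^ 2 / 16 * (Real.exp ((2 - q) * (q ^ 2 / 8)) * (4 * Real.pi * X ^ (2 - q) + X ^ (-q) * (Cq / X * Y +
      C1 * (eps⁻¹ ^ 2 * d ^ (1 / 2 : ℝ)))) + τ / 2) := by
        rw [mul_add]
        linarith
    _ ≤ _ := mul_le_mul_of_nonneg_left hC hq16.le

/-- `F` decreases slowly. -/
theorem top_F {P : Par} (h : P.Ok) {v : E3 → ℝ} (hκ : 0 < P.kap v) {m z1 z2 : ℝ} (hm : 0 < m) (h1 : m ≤ z1) (h2 : z1 ≤ z2) :
    P.F v z1 - P.F v z2 ≤ (z2 - z1) / m := by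
  have hd : ∀ z ∈ Icc z1 z2, HasDerivAt (P.F v) (-(P.ww v z)⁻¹) z := fun z hz =>
    W.FF_deriv (expo h) hκ (hm.le.trans (h1.trans hz.1))
  have h3 := (convex_Icc z1 z2).mul_sub_le_image_sub_of_le_deriv (f := P.F v) (C := -(1 / m))
    (fun z hz => (hd z hz).continuousAt.continuousWithinAt)
    (fun z hz => (hd z (interior_subset hz)).differentiableAt.differentiableWithinAt)
    (fun z hz => by
      rw [(hd z (interior_subset hz)).deriv]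
      have hz1 := interior_subset hz
      have hz0 : 0 ≤ z := hm.le.trans (h1.trans hz1.1)
      have h4 := ww_ge h (v := v) hz0
      have h5 : m ≤ P.ww v z := by linarith [hz1.1]
      have h6 : (P.ww v z)⁻¹ ≤ 1 / m := by
        rw [one_div]
        exact inv_anti₀ hm h5
      linarith)
    z1 (left_mem_Icc.2 h2) z2 (right_mem_Icc.2 h2) h2
  have h4 : (z2 - z1) / m = 1 / m * (z2 - z1) := by ring
  rw [h4]
  linarith

/-- A level above the transition which contains the metric cut-off. -/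
theorem exists_T3 {P : Par} (hP : P.Ok) {v : E3 → ℝ} (hv : W.Sol P.op v) (hκ : 0 < P.kap v)
    (h5 : ∀ x ∈ cAnn P.R, v x ≤ (P.r1 / ‖x‖) ^ (P.q / 2)) :
    ∃ T3 : ℝ, P.T2 v < T3 ∧ T3 ≤ P.T1 v + 2 ∧ ∀ x ∈ Ann P.R, 3 * P.R1 / 2 ≤ ‖x‖ → T3 ≤ P.th v x := by
  have hv1 := v1_pos hP
  have hq0 := hP.q_pos
  have hq1 := hP.q_lt
  obtain ⟨c, hc⟩ : ∃ c : ℝ, c = (1 / 3 : ℝ) ^ (P.q / 2) := ⟨_, rfl⟩
  have hc0 : 0 < c := by rw [hc]; positivity
  have hc1 : c < 1 := by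
    rw [hc]
    exact Real.rpow_lt_one (by norm_num) (by norm_num) (by linarith)
  have hc2 : 1 / 2 ≤ c := by
    have h1 : (1 / 3 : ℝ) ^ (1 / 2 : ℝ) ≤ c := by
      rw [hc]
      exact Real.rpow_le_rpow_of_exponent_ge (by norm_num) (by norm_num) (by linarith)
    have h2 : (1 / 2 : ℝ) ≤ (1 / 3 : ℝ) ^ (1 / 2 : ℝ) := by
      rw [← Real.sqrt_eq_rpow]
      exact Real.le_sqrt_of_sq_le (by norm_num)
    linarith
  refine ⟨P.F v (c * P.v1), ?_, ?_, ?_⟩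
  · exact W.FF_anti (expo hP) hκ (show c * P.v1 ∈ Set.Ici (0 : ℝ) from (by positivity : 0 ≤ c * P.v1))
      (show P.v1 ∈ Set.Ici (0 : ℝ) from hv1.le) (by nlinarith)
  · have h1 := top_F hP (v := v) hκ (m := c * P.v1) (z1 := c * P.v1) (z2 := P.v1) (by positivity) le_rfl (by nlinarith)
    have h2 := top_F hP (v := v) hκ (m := P.v1) (z1 := P.v1) (z2 := 2 * P.v1) hv1 le_rfl (by linarith)
    have h3 : (P.v1 - c * P.v1) / (c * P.v1) ≤ 1 := by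
      rw [div_le_one (by positivity)]
      nlinarith
    have h4 : (2 * P.v1 - P.v1) / P.v1 = 1 := by
      rw [div_eq_one_iff_eq hv1.ne']
      ring
    rw [h4] at h2
    show P.F v (c * P.v1) ≤ P.F v (2 * P.v1) + 2
    linarith
  · intro x hx hx2
    have hxc := UMB.Lin.Ann_subset P.R hx
    have hR1 : 0 < P.R1 := by linarith [hP.r1_ge, hP.R1_ge]
    have hr1 := hP.r1_ge
    have hx0 : 0 < ‖x‖ := by linarith
    have h1 : v x ≤ c * P.v1 := by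
      refine (h5 x hxc).trans ?_
      rw [top_v1 hP, hc, ← Real.mul_rpow (by norm_num) (by positivity)]
      apply Real.rpow_le_rpow (by positivity) _ (by linarith)
      rw [div_le_iff₀ hx0]
      have : 1 / 3 * (2 * P.r1 / P.R1) * (3 * P.R1 / 2) = P.r1 := by field_simp
      have h2 : 0 ≤ 1 / 3 * (2 * P.r1 / P.R1) := by positivity
      nlinarith
    exact (W.FF_anti (expo hP) hκ).antitoneOn (hv.nonneg x hxc) (show c * P.v1 ∈ Set.Ici (0 : ℝ) from (by positivity : 0 ≤ c * P.v1)) h1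

/-- **F1w** (the input of block R). -/
theorem F1w {g : Tens} {a : ℝ} (hg : AF g a) (K : ℝ) :
    ∃ c00 : ℝ, 0 ≤ c00 ∧ ∀ c0 : ℝ, c00 ≤ c0 → ∀ q : ℝ, 0 < q → q < 1 → ∃ Cq : ℝ, 0 < Cq ∧
      ∀ᶠ R1 in atTop, ∀ R0 : ℝ, ∀ᶠ R in atTop, ∀ τ : ℝ, 0 < τ → FA g a K c0 q R1 R0 R fun P v =>
        P.m v ≤ 12 * Real.pi * P.CC v ^ 2 + Cq / P.CC v * P.Err v + τ := by
  obtain ⟨c00, h00, H⟩ := HVw hg K
  refine ⟨c00, h00, fun c0 hc0 q hq0 hq1 => ?_⟩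
  obtain ⟨cq, hcq, H⟩ := H c0 hc0 q hq0 hq1
  obtain ⟨Cq, hCq, HF⟩ := F3 hq0
  refine ⟨3 * Cq + 1, by linarith, ?_⟩
  filter_upwards [H 1, eventually_ge_atTop (4 * (1 + 100 * c0 / q))] with R1 H hR1 R0
  filter_upwards [H R0, eventually_ge_atTop (8 * R1)] with R H hR τ hτ
  intro k η η0 δ' h1 h3 eta heta
  obtain ⟨em, hem⟩ := exists_moll
  have hP0 : (mkP g k a c0 q R1 R 1 1 em).Ok := base_ok (h00.trans hc0) hq0 hq1 hR1 hR hem
  have hHP0 := hp_of hg h3 hP0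
  have hv1 := v1_pos hP0
  have hRp : 0 < R := by
    have h5 := hP0.r1_ge
    have h6 : 4 * (mkP g k a c0 q R1 R 1 1 em).r1 ≤ R1 := hP0.R1_ge
    linarith
  obtain ⟨κ0, hκ0⟩ : ∃ κ0 : ℝ, κ0 = cq * (mkP g k a c0 q R1 R 1 1 em).v1 / R := ⟨_, rfl⟩
  have hκ0p : 0 < κ0 := by rw [hκ0]; positivity
  obtain ⟨C1, hC1, HF⟩ := HF _ rfl hHP0 hg κ0 hκ0p
  filter_upwards [H k η η0 δ' h1 h3 eta heta, self_mem_nhdsWithin] with eps Heps heps0
  have heps0' : 0 < eps := heps0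
  filter_upwards [Heps, top_small2 (C := 3 * C1 * eps⁻¹ ^ 2) (by positivity) hτ, self_mem_nhdsWithin] with d Hd hd1 hd0
  have hd0' : 0 < d := hd0
  intro hP v hv
  obtain ⟨k1, k2, k3, k4, k5, k6⟩ := Hd hP v hv
  have hHP := hp_of hg h3 hP
  have hHV := hv_of hP hv hcq k1 k2 k3 k5 k6
  have hHV' : HV (upd (mkP g k a c0 q R1 R 1 1 em) eps d eta) κ0 v := by
    rw [hκ0]
    exact hHV
  have hfin := HF eps d eta hHP v hHV' k4 (exists_T3 hP hv k1 k5)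
  have hErr := Err_nonneg hHP hg hHV
  have hup : upd (mkP g k a c0 q R1 R 1 1 em) eps d eta = mkP g k a c0 q R1 R eps d eta := rfl
  rw [hup] at hfin
  have hCC : 0 < (mkP g k a c0 q R1 R eps d eta).CC v := hcq.trans_le k3
  have hm : (mkP g k a c0 q R1 R eps d eta).m v =
      ∫ x in shell (mkP g k a c0 q R1 R eps d eta) v ∩ Ann R, mm (mkP g k a c0 q R1 R eps d eta) v x * vol g x := by
    unfold Par.m Par.mm mm
    simp only [one_div]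
    rfl
  show (mkP g k a c0 q R1 R eps d eta).m v ≤ _
  rw [hm]
  refine hfin.trans ?_
  generalize (mkP g k a c0 q R1 R eps d eta).CC v = X at *
  generalize (mkP g k a c0 q R1 R eps d eta).Err v = Y at *
  have h7 : 0 ≤ Y / X := div_nonneg hErr hCC.le
  have h8 : 3 * (Cq / X * Y) ≤ (3 * Cq + 1) / X * Y := by
    calc 3 * (Cq / X * Y) = 3 * Cq * (Y / X) := by ring
      _ ≤ (3 * Cq + 1) * (Y / X) := by nlinarith
      _ = _ := by ring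
  have h9 : 3 * (C1 * (eps⁻¹ ^ 2 * d ^ (1 / 2 : ℝ))) ≤ τ := by
    calc _ = 3 * C1 * eps⁻¹ ^ 2 * d ^ (1 / 2 : ℝ) := by ring
      _ ≤ τ := hd1
  linarith

end UMB.FL
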