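import Pool.Agent.Lib.UMB.FL.Defs

/-! # UMB.FL, chunk A0 -/

set_option autoImplicit false

open Filter Topology Set MeasureTheory
open scoped ContDiff

namespace UMB.FL

open Pool.Agent.Lib.PenroseSph (E3 Tens pd chr trg gradNorm)
open UMB.Lin (Ann cAnn sig)

theorem a0_one {R1 : ℝ} (h : 0 < R1) {x : E3} (hx : ‖x‖ < 3 * R1) : cut R1 =ᶠ[𝓝 x] fun _ => 1 := by
  have hopen : IsOpen {x : E3 | ‖x‖ < 3 * R1} := isOpen_lt continuous_norm continuous_const
  filter_upwards [hopen.mem_nhds hx] with y hy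
  have hy' : ‖y‖ < 3 * R1 := hy
  unfold cut
  apply Real.smoothTransition.one_of_one_le
  have : ‖y‖ / R1 ≤ 3 := by
    rw [div_le_iff₀ h]
    exact hy'.le
  linarith

theorem cut_smooth {R1 : ℝ} (h : 0 < R1) : ContDiff ℝ ∞ (cut R1) := by
  rw [contDiff_iff_contDiffAt]
  intro x
  by_cases hx : ‖x‖ < 3 * R1
  · exact contDiffAt_const.congr_of_eventuallyEq (a0_one h hx)
  · have hx0 : x ≠ 0 := by
      rintro rfl
      rw [norm_zero] at hx
      exact hx (by positivity)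
    have h1 : ContDiffAt ℝ ∞ (fun y : E3 => 4 - ‖y‖ / R1) x :=
      contDiffAt_const.sub ((contDiffAt_norm ℝ hx0).div_const R1)
    exact Real.smoothTransition.contDiff.contDiffAt.comp x h1

theorem cut_vals {R1 : ℝ} (h : 0 < R1) (x : E3) : 0 ≤ cut R1 x ∧ cut R1 x ≤ 1 ∧ (‖x‖ ≤ 3 * R1 → cut R1 x = 1) ∧
    (4 * R1 ≤ ‖x‖ → cut R1 x = 0) ∧ (‖x‖ < 3 * R1 → ∀ a, pd a (cut R1) x = 0) := by
  refine ⟨Real.smoothTransition.nonneg _, Real.smoothTransition.le_one _, fun hx => ?_, fun hx => ?_, fun hx a => ?_⟩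
  · unfold cut
    apply Real.smoothTransition.one_of_one_le
    have : ‖x‖ / R1 ≤ 3 := by
      rw [div_le_iff₀ h]
      exact hx
    linarith
  · unfold cut
    apply Real.smoothTransition.zero_of_nonpos
    have : 4 ≤ ‖x‖ / R1 := by
      rw [le_div_iff₀ h]
      exact hx
    linarith
  · unfold Pool.Agent.Lib.PenroseSph.pd
    rw [(a0_one h hx).fderiv_eq]
    simp

end UMB.FL
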