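import Pool.Agent.Lib.UMB.FL.Defs
import Pool.Agent.Lib.UMB.Asm.Br

/-! # UMB.FL, chunk A1 -/

set_option autoImplicit false

open Filter Topology Set MeasureTheory
open scoped ContDiff

namespace UMB.FL

open Pool.Agent.Lib.PenroseSph (E3 Tens pd chr trg gradNorm)
open UMB.Lin (Ann cAnn sig)

/-- **A1** (S/M). The exponent `b`. `smoothTransition` is smooth, `= 0` on `(-∞,0]`, `= 1` on `[1,∞)`, with values in `[0,1]`;
`P.v1 = min 1 ((2 r1/R1)^(q/2)) > 0`. -/
theorem v1_pos {P : Par} (h : P.Ok) : 0 < P.v1 := h.v1_pos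

theorem v1_le {P : Par} (_h : P.Ok) : P.v1 ≤ 1 := by
  unfold Par.v1
  exact min_le_left _ _

theorem b_smooth {P : Par} (_h : P.Ok) : ContDiff ℝ ∞ P.b := by
  unfold Par.b
  have h1 : ContDiff ℝ ∞ fun z : ℝ => (2 * P.v1 - z) / P.v1 := (contDiff_const.sub contDiff_id).div_const _
  exact contDiff_const.add (contDiff_const.mul (Real.smoothTransition.contDiff.comp h1))

theorem b_mem {P : Par} (h : P.Ok) (z : ℝ) : P.q ≤ P.b z ∧ P.b z ≤ 1 := by
  unfold Par.b
  have h1 := Real.smoothTransition.nonneg ((2 * P.v1 - z) / P.v1)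
  have h2 := Real.smoothTransition.le_one ((2 * P.v1 - z) / P.v1)
  have h3 := h.q_lt
  constructor <;> nlinarith

theorem b_eq_q {P : Par} (h : P.Ok) {z : ℝ} (hz : 2 * P.v1 ≤ z) : P.b z = P.q := by
  unfold Par.b
  rw [Real.smoothTransition.zero_of_nonpos]
  · ring
  · apply div_nonpos_of_nonpos_of_nonneg _ h.v1_pos.le
    linarith

theorem b_eq_one {P : Par} (h : P.Ok) {z : ℝ} (hz : z ≤ P.v1) : P.b z = 1 := by
  unfold Par.b
  rw [Real.smoothTransition.one_of_one_le]
  · ring
  · rw [le_div_iff₀ h.v1_pos]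
    linarith

/-- `b` is locally constant there. -/
theorem db_zero {P : Par} (h : P.Ok) {z : ℝ} (hz : z < P.v1 ∨ 2 * P.v1 < z) : deriv P.b z = 0 := by
  rcases hz with hz | hz
  · have h1 : P.b =ᶠ[𝓝 z] fun _ => 1 := by
      filter_upwards [gt_mem_nhds hz] with s hs
      exact b_eq_one h hs.le
    rw [h1.deriv_eq, deriv_const]
  · have h1 : P.b =ᶠ[𝓝 z] fun _ => P.q := by
      filter_upwards [lt_mem_nhds hz] with s hs
      exact b_eq_q h hs.le
    rw [h1.deriv_eq, deriv_const]

/-- `|deriv smoothTransition| ≤ M`: zero outside `[0,1]`, continuous (compactness); chain rule; `0 ≤ 1 - q ≤ 1`. -/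
theorem db_bd : ∃ M : ℝ, 0 ≤ M ∧ ∀ P : Par, P.Ok → ∀ z : ℝ, |deriv P.b z| ≤ M / P.v1 := by
  have hc : Continuous (deriv Real.smoothTransition) := Real.smoothTransition.contDiff.continuous_deriv (n := ∞) (by simp)
  obtain ⟨S, hS⟩ := (isCompact_Icc (a := (0:ℝ)) (b := 1)).exists_bound_of_continuousOn hc.continuousOn
  have hb : ∀ t : ℝ, |deriv Real.smoothTransition t| ≤ max S 0 := by
    intro t
    rcases lt_or_ge t 0 with h | h
    · have h1 : Real.smoothTransition =ᶠ[𝓝 t] fun _ => 0 := by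
        filter_upwards [gt_mem_nhds h] with s hs
        exact Real.smoothTransition.zero_of_nonpos hs.le
      rw [h1.deriv_eq, deriv_const, abs_zero]
      exact le_max_right _ _
    · rcases lt_or_ge 1 t with h' | h'
      · have h1 : Real.smoothTransition =ᶠ[𝓝 t] fun _ => 1 := by
          filter_upwards [lt_mem_nhds h'] with s hs
          exact Real.smoothTransition.one_of_one_le hs.le
        rw [h1.deriv_eq, deriv_const, abs_zero]
        exact le_max_right _ _
      · exact (hS t ⟨h, h'⟩).trans (le_max_left _ _)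
  refine ⟨max S 0, le_max_right _ _, fun P hP z => ?_⟩
  have hv := hP.v1_pos
  have h1 : HasDerivAt (fun z : ℝ => (2 * P.v1 - z) / P.v1) (-1 / P.v1) z :=
    ((hasDerivAt_id z).const_sub (2 * P.v1)).div_const P.v1
  have h2 : HasDerivAt Real.smoothTransition (deriv Real.smoothTransition ((2 * P.v1 - z) / P.v1)) ((2 * P.v1 - z) / P.v1) :=
    (Real.smoothTransition.contDiff.differentiable (n := ∞) (by simp) _).hasDerivAt
  have h3 : HasDerivAt P.b ((1 - P.q) * (deriv Real.smoothTransition ((2 * P.v1 - z) / P.v1) * (-1 / P.v1))) z := by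
    have h4 : HasDerivAt (fun z : ℝ => Real.smoothTransition ((2 * P.v1 - z) / P.v1))
        (deriv Real.smoothTransition ((2 * P.v1 - z) / P.v1) * (-1 / P.v1)) z :=
      HasDerivAt.comp (h₂ := Real.smoothTransition) z h2 h1
    exact (h4.const_mul (1 - P.q)).const_add P.q
  rw [h3.deriv, abs_mul, abs_mul, abs_div, abs_neg, abs_one, abs_of_pos hv, abs_of_pos (by linarith [hP.q_lt])]
  have h5 := hb ((2 * P.v1 - z) / P.v1)
  have h6 := hP.q_pos
  calc (1 - P.q) * (|deriv Real.smoothTransition ((2 * P.v1 - z) / P.v1)| * (1 / P.v1))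
      ≤ 1 * (max S 0 * (1 / P.v1)) := by
        have : 0 ≤ 1 - P.q := by linarith [hP.q_lt]
        gcongr
        linarith
    _ = max S 0 / P.v1 := by ring

theorem expo {P : Par} (h : P.Ok) : W.Expo (1 + P.q) P.p := h.expo

end UMB.FL
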