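import Pool.Agent.Lib.UMB.FL.A9
import Pool.Agent.Lib.UMB.FL.A0
import Pool.Agent.Lib.UMB.BR.Hopf
import Pool.Agent.Lib.UMB.SS.Flux4

/-! # UMB.FL, chunk A10 -/

set_option autoImplicit false

open Filter Topology Set MeasureTheory
open scoped ContDiff

namespace UMB.FL

open Pool.Agent.Lib.PenroseSph (E3 Tens pd chr trg gradNorm avg S2 sm norm_S2 norm_ray pd_radial hasDerivAt_avg avg_congr)
open UMB.Lin (Ann cAnn sig)

/-- The cut-off as a function of the radius. -/
noncomputable def a10_tau (R1 r : ℝ) : ℝ := Real.smoothTransition (4 - r / R1)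

theorem a10_smooth (R1 : ℝ) : ContDiff ℝ ∞ (a10_tau R1) :=
  Real.smoothTransition.contDiff.comp (contDiff_const.sub (contDiff_id.div_const _))

theorem a10_lo {R1 r : ℝ} (h : 0 < R1) (hr : r < 3 * R1) : deriv (a10_tau R1) r = 0 := by
  have h1 : a10_tau R1 =ᶠ[𝓝 r] fun _ => 1 := by
    filter_upwards [gt_mem_nhds hr] with s hs
    apply Real.smoothTransition.one_of_one_le
    have h2 : s / R1 ≤ 3 := by
      rw [div_le_iff₀ h]
      exact hs.le
    linarith
  rw [h1.deriv_eq, deriv_const]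

theorem a10_hi {R1 r : ℝ} (h : 0 < R1) (hr : 4 * R1 < r) : deriv (a10_tau R1) r = 0 := by
  have h1 : a10_tau R1 =ᶠ[𝓝 r] fun _ => 0 := by
    filter_upwards [lt_mem_nhds hr] with s hs
    apply Real.smoothTransition.zero_of_nonpos
    have h2 : 4 ≤ s / R1 := by
      rw [le_div_iff₀ h]
      exact hs.le
    linarith
  rw [h1.deriv_eq, deriv_const]

theorem a10_pd (R1 : ℝ) {x : E3} (hx : x ≠ 0) (a : Fin 3) :
    pd a (cut R1) x = deriv (a10_tau R1) ‖x‖ * (x a / ‖x‖) :=
  pd_radial hx ((a10_smooth R1).differentiable (by simp) _) a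

/-- **A10** (M/L). The flux. `ψ = cut R1 = τ(|x|)`. `v` is replaced by a global function `w` of class `C¹` which agrees with `v` near
`{3R1 ≤ |x| ≤ 4R1}`; in polar coordinates the integral is `4π ∫ τ'(r) r² (avg w)'(r) dr = 4π ∫ τ' (-c) dr = 4πc`. -/
theorem flux_cut {R R1 c : ℝ} (hR1 : 1 ≤ R1) (hR : 8 * R1 ≤ R) {v : E3 → ℝ} (hv : ContDiffOn ℝ ∞ v (Ann R))
    (hm : ∀ r : ℝ, 2 * R1 ≤ r → r ≤ R → Par.mean v r = c * (1 / r - 1 / R)) :
    ∫ x in Ann R, (∑ a, pd a (cut R1) x * pd a v x) = 4 * Real.pi * c := by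
  have hR10 : 0 < R1 := by linarith
  have hR0 : 0 < R := by linarith
  have hcp : IsCompact {x : E3 | 3 * R1 ≤ ‖x‖ ∧ ‖x‖ ≤ 4 * R1} := by
    apply Metric.isCompact_of_isClosed_isBounded
    · exact (isClosed_le continuous_const continuous_norm).inter (isClosed_le continuous_norm continuous_const)
    · apply (Metric.isBounded_closedBall (x := (0:E3)) (r := 4 * R1)).subset
      intro x hx
      rw [mem_closedBall_zero_iff]
      exact hx.2
  obtain ⟨w, hw, hwv⟩ := UMB.BR.glob (n := 1) hcp (UMB.Lin.isOpen_Ann R)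
    (fun x hx => ⟨by linarith [hx.1], by linarith [hx.2]⟩) (hv.of_le (WithTop.coe_le_coe.2 (le_top : (1 : ℕ∞) ≤ ⊤)))
  have hw1 : ContDiff ℝ 1 w := by exact_mod_cast hw
  have hne : ∀ x : E3, 1 < ‖x‖ → x ≠ 0 := fun x hx h => by
    rw [h, norm_zero] at hx
    linarith
  set F : E3 → ℝ := fun x => ∑ a, pd a (cut R1) x * pd a w x with hF
  have h1 : ∫ x in Ann R, (∑ a, pd a (cut R1) x * pd a v x) = ∫ x in Ann R, F x := by
    apply setIntegral_congr_fun (UMB.Lin.isOpen_Ann R).measurableSet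
    intro x hx
    simp only [hF]
    by_cases hK : x ∈ {x : E3 | 3 * R1 ≤ ‖x‖ ∧ ‖x‖ ≤ 4 * R1}
    · have h2 : ∀ a, pd a w x = pd a v x := fun a => by
        unfold pd
        rw [(hwv x hK).fderiv_eq]
      simp only [h2]
    · have h2 : ∀ a, pd a (cut R1) x = 0 := by
        intro a
        rw [a10_pd R1 (hne x hx.1) a]
        rcases lt_or_ge ‖x‖ (3 * R1) with h3 | h3
        · rw [a10_lo hR10 h3, zero_mul]
        · rcases lt_or_ge (4 * R1) ‖x‖ with h4 | h4
          · rw [a10_hi hR10 h4, zero_mul]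
          · exact absurd ⟨h3, h4⟩ hK
      simp only [h2, zero_mul]
  have hFc : Continuous F := by
    apply continuous_finsetSum
    intro a _
    have e1 : Continuous (pd a (cut R1)) :=
      ((cut_smooth hR10).continuous_fderiv (by simp)).clm_apply continuous_const
    have e2 : Continuous (pd a w) := (hw1.continuous_fderiv one_ne_zero).clm_apply continuous_const
    exact e1.mul e2
  have hFi : IntegrableOn F {x : E3 | 1 < ‖x‖ ∧ ‖x‖ < R} := by
    have h2 : IntegrableOn F (cAnn R) := hFc.continuousOn.integrableOn_compact (UMB.BR.isCompact_cAnn R)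
    exact h2.mono_set fun x hx => ⟨hx.1.le, hx.2.le⟩
  have h2 : ∫ r in (1 : ℝ)..R, r ^ 2 * avg F r = (4 * Real.pi)⁻¹ * ∫ x in Ann R, F x :=
    polar_avg zero_le_one (by linarith) hFi
  have h3 : ∫ x in Ann R, F x = 4 * Real.pi * ∫ r in (1 : ℝ)..R, r ^ 2 * avg F r := by
    rw [h2, ← mul_assoc, mul_inv_cancel₀ (by positivity), one_mul]
  -- the average of `F`
  have h4 : ∀ r : ℝ, 1 < r → r ^ 2 * avg F r =
      deriv (a10_tau R1) r * (r ^ 2 * avg (fun x => ∑ m, (x m / ‖x‖) * pd m w x) r) := by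
    intro r hr
    have e1 : avg F r = avg (fun x => deriv (a10_tau R1) r * ∑ m, (x m / ‖x‖) * pd m w x) r := by
      apply avg_congr
      intro n
      have hn : ‖r • (n : E3)‖ = r := norm_ray (by linarith) n
      simp only [hF]
      rw [Finset.mul_sum]
      apply Finset.sum_congr rfl
      intro a _
      rw [a10_pd R1 (hne _ (by rw [hn]; exact hr)) a, hn]
      ring
    rw [e1, Pool.Agent.Lib.PenroseSph.avg_smul]
    ring
  have h5 : ∀ r : ℝ, 3 * R1 < r → r < 4 * R1 →
      r ^ 2 * avg (fun x => ∑ m, (x m / ‖x‖) * pd m w x) r = -c := by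
    intro r hr1 hr2
    have hr0 : 0 < r := by linarith
    have e1 : HasDerivAt (avg w) (avg (fun x => ∑ m, (x m / ‖x‖) * pd m w x) r) r :=
      hasDerivAt_avg le_rfl hr0 hw1.contDiffOn
    have e2 : avg w =ᶠ[𝓝 r] fun s => c * (1 / s - 1 / R) := by
      filter_upwards [Ioo_mem_nhds hr1 hr2] with s hs
      have hs0 : 0 < s := by linarith [hs.1]
      rw [← hm s (by linarith [hs.1]) (by linarith [hs.2])]
      have e3 : avg w s = avg v s := by
        apply avg_congr
        intro n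
        have hn : ‖s • (n : E3)‖ = s := norm_ray hs0 n
        exact (hwv _ ⟨by rw [hn]; exact hs.1.le, by rw [hn]; exact hs.2.le⟩).eq_of_nhds
      rw [e3]
      unfold avg Par.mean
      rw [one_div]
    have e3 : HasDerivAt (fun s : ℝ => c * (1 / s - 1 / R)) (c * (-(r ^ 2)⁻¹)) r := by
      have := ((hasDerivAt_inv hr0.ne').sub_const (1 / R)).const_mul c
      simpa [one_div] using this
    have e4 := (e1.congr_of_eventuallyEq e2.symm).unique e3
    rw [e4]
    field_simp
  have h6 : ∫ r in (1 : ℝ)..R, r ^ 2 * avg F r = ∫ r in (1 : ℝ)..R, (-c) * deriv (a10_tau R1) r := by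
    apply intervalIntegral.integral_congr_ae
    have e1 : ∀ᵐ r : ℝ, r ≠ 3 * R1 ∧ r ≠ 4 * R1 := by
      have s1 : ∀ᵐ r : ℝ, r ≠ 3 * R1 := by simp [ae_iff]
      have s2 : ∀ᵐ r : ℝ, r ≠ 4 * R1 := by simp [ae_iff]
      filter_upwards [s1, s2] with r a b using ⟨a, b⟩
    filter_upwards [e1] with r hr hr'
    rw [uIoc_of_le (by linarith)] at hr'
    rw [h4 r hr'.1]
    rcases lt_or_ge r (3 * R1) with h7 | h7
    · rw [a10_lo hR10 h7]
      ring
    · rcases lt_or_ge (4 * R1) r with h8 | h8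
      · rw [a10_hi hR10 h8]
        ring
      · rw [h5 r (lt_of_le_of_ne h7 (Ne.symm hr.1)) (lt_of_le_of_ne h8 hr.2)]
        ring
  have h7 : ∫ r in (1 : ℝ)..R, deriv (a10_tau R1) r = a10_tau R1 R - a10_tau R1 1 := by
    apply intervalIntegral.integral_deriv_eq_sub
    · intro r _
      exact (a10_smooth R1).differentiable (by simp) r
    · exact ((a10_smooth R1).continuous_deriv (by simp)).intervalIntegrable _ _
  have h8 : a10_tau R1 R = 0 := by
    apply Real.smoothTransition.zero_of_nonpos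
    have : 4 ≤ R / R1 := by
      rw [le_div_iff₀ hR10]
      linarith
    linarith
  have h9 : a10_tau R1 1 = 1 := by
    apply Real.smoothTransition.one_of_one_le
    have : 1 / R1 ≤ 3 := by
      rw [div_le_iff₀ hR10]
      linarith
    linarith
  rw [h1, h3, h6, intervalIntegral.integral_const_mul, h7, h8, h9]
  ring

end UMB.FL
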