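import Pool.Agent.Lib.UMB.FL.A3

/-! # UMB.FL, chunk A11 -/

set_option autoImplicit false

open Filter Topology Set MeasureTheory
open scoped ContDiff

namespace UMB.FL

open Pool.Agent.Lib.PenroseSph (E3 Tens pd chr trg gradNorm)
open UMB.Lin (Ann cAnn sig)

theorem a11_gh {P : Par} (h : P.Ok) {x : E3} (hx2 : 2 * P.R1 ≤ ‖x‖) : P.gh x = 1 := by
  have hR1 : 0 < P.R1 := by
    have h1 := h.r1_ge
    have h2 := h.R1_ge
    linarith
  have h1 : P.chi ‖x‖ = 0 := by
    unfold Par.chi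
    apply Real.smoothTransition.zero_of_nonpos
    have h2 : 2 ≤ ‖x‖ / P.R1 := by
      rw [le_div_iff₀ hR1]
      linarith
    linarith
  unfold Par.gh
  rw [h1]
  simp

/-- **A11** (S/M). Far field: for `|x| ≥ 2R1` the metric `gh` is `1` near `x`... only the value is needed: `gh x = 1` (`chi = 0`), so
`vol = 1`, `gradU = pd a v`; `b (v x) = 1` (`HV.far`, `b_eq_one`), so `EE = -2F + log C + F - log w = log C - F - log w` and
`SC = C e^{-F}/w = C Cst` (`F_far`, `ww_eq`). -/
theorem XX_far {P : Par} (h : HP P) {κ0 : ℝ} {v : E3 → ℝ} (hv : HV P κ0 v) {x : E3} (hx : x ∈ Ann P.R)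
    (hx2 : 2 * P.R1 ≤ ‖x‖) (a : Fin 3) : XX P v a x = - (P.CC v * P.Cst v * pd a v x) := by
  have hgh := a11_gh h.ok hx2
  have hR1 : 0 < P.R1 := by
    have h1 := h.ok.r1_ge
    have h2 := h.ok.R1_ge
    linarith
  have hxc : x ∈ cAnn P.R := ⟨hx.1.le, hx.2.le⟩
  have hv0 : 0 ≤ v x := hv.sol.nonneg x hxc
  have hv1 : v x ≤ P.v1 := hv.far x hxc (by linarith)
  have hvol : vol P.gh x = 1 := by
    unfold vol
    rw [hgh, Matrix.det_one, Real.sqrt_one]
  have hgrad : gradU P.gh v a x = pd a v x := by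
    unfold gradU
    rw [hgh, inv_one]
    simp [Matrix.one_apply]
  have hb : P.b (v x) = 1 := b_eq_one h.ok hv1
  have hww : P.ww v (v x) = P.kap v + v x := ww_eq h.ok hv0 hv1
  have hwp : 0 < P.kap v + v x := by
    have := hv.kap_pos
    linarith
  have hCC := CC_pos h.ok v
  have hSC : SC P v x = P.CC v * P.Cst v := by
    unfold SC EE E1
    rw [hb, hww]
    have h1 : -2 * P.F v (v x) + 1 * (Real.log (P.CC v) + P.F v (v x) - Real.log (P.kap v + v x))
        + (1 - 1) * Real.log (gvh P v x)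
        = Real.log (P.CC v) + (-P.F v (v x)) - Real.log (P.kap v + v x) := by ring
    rw [h1, Real.exp_sub, Real.exp_add, Real.exp_log hCC, Real.exp_log hwp,
      F_far h.ok hv.kap_pos hv0 hv1]
    field_simp
  unfold XX
  rw [hvol, hgrad, hSC]
  ring

end UMB.FL
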