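import Pool.Agent.Lib.UMB.FL.A8
import Pool.Agent.Lib.UMB.W.E1

/-! # UMB.FL, chunk A12 -/

set_option autoImplicit false

open Filter Topology Set MeasureTheory
open scoped ContDiff

namespace UMB.FL

open Pool.Agent.Lib.PenroseSph (E3 Tens pd chr trg gradNorm)
open UMB.Lin (Ann cAnn sig)

/-- **A12a** (S/M). `pd a θ = - pd a v/w` (`W.D1_theta`), so `∑ pd a θ XX a = √det gh SC gsq/w ≥ 0`. -/
theorem dth_XX {P : Par} (h : HP P) {κ0 : ℝ} {v : E3 → ℝ} (hv : HV P κ0 v) {x : E3} (hx : x ∈ Ann P.R) :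
    ∑ a, pd a (P.th v) x * XX P v a x = vol P.gh x * (SC P v x * gsq P.gh v x / P.ww v (v x)) := by
  have hth : ∀ a, pd a (P.th v) x = - (P.ww v (v x))⁻¹ * pd a v x := fun a =>
    W.D1_theta (expo h.ok) hv.kap_pos (UMB.Lin.isOpen_Ann P.R) hv.sol.smooth
      (fun y hy => hv.sol.nonneg y ⟨hy.1.le, hy.2.le⟩) hx a
  have h1 : ∀ a, pd a (P.th v) x * XX P v a x
      = vol P.gh x * (SC P v x / P.ww v (v x)) * (pd a v x * gradU P.gh v a x) := by
    intro a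
    rw [hth a]
    unfold XX
    rw [div_eq_mul_inv]
    ring
  rw [Finset.sum_congr rfl (fun a _ => h1 a), ← Finset.mul_sum]
  have h2 : ∑ a, pd a v x * gradU P.gh v a x = gsq P.gh v x := rfl
  rw [h2]
  ring

/-- **A12b** (S/M). Where `gh = g` (`near_eq`): `SC gsq/w = mm`, since `1/w = s e^{-θ}/gv`. -/
theorem dth_XX_near {P : Par} (h : HP P) {κ0 : ℝ} {v : E3 → ℝ} (hv : HV P κ0 v) {x : E3} (hx : x ∈ Ann P.R)
    (hx2 : ‖x‖ ≤ 3 * P.R1 / 2) : ∑ a, pd a (P.th v) x * XX P v a x = mm P v x * vol P.g x := by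
  have hg := gh_near h.ok hx2
  obtain ⟨hs, hgv, -, hSC⟩ := near_eq h hv hx hg
  have hvol : vol P.gh x = vol P.g x := by
    unfold vol
    rw [hg]
  have hgs : gsq P.gh v x = gsq P.g v x := by
    unfold gsq gradU
    rw [hg]
  have hv0 : 0 ≤ v x := hv.sol.nonneg x ⟨hx.1.le, hx.2.le⟩
  have hw := ww_pos h.ok hv.kap_pos hv0
  have hCC := CC_pos h.ok v
  have hgvp : 0 < P.gv v x := by
    rw [← hgv]
    exact (gvh_pos h hx).2.1
  have hCs : 0 < P.CC v * P.s v x := mul_pos hCC hs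
  rw [dth_XX h hv hx, hvol, hgs, hSC]
  unfold mm
  rw [Real.rpow_add_one hCs.ne']
  have hs2 : P.s v x = Real.exp (P.th v x) / P.ww v (v x) * P.gv v x := rfl
  have hexp : Real.exp (-3 * P.th v x) * Real.exp (P.th v x) = Real.exp (-2 * P.th v x) := by
    rw [← Real.exp_add]
    congr 1
    ring
  set X := (P.CC v * P.s v x) ^ P.b (v x) with hX
  have h3 : (P.CC v)⁻¹ * Real.exp (-3 * P.th v x) * (X * (P.CC v * P.s v x)) * (gsq P.g v x / P.gv v x ^ 2)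
      = (Real.exp (-3 * P.th v x) * Real.exp (P.th v x)) * X * gsq P.g v x / (P.ww v (v x) * P.gv v x) := by
    rw [hs2]
    field_simp
  rw [h3, hexp]
  field_simp

/-- `θ` is smooth in `Ann`, continuous on `cAnn`, zero on `|x| = 1`, nonnegative (`W.theta_smooth`, `W.FF_smooth`, `W.FF_bd`). -/
theorem th_props {P : Par} (h : HP P) {κ0 : ℝ} {v : E3 → ℝ} (hv : HV P κ0 v) : ContDiffOn ℝ ∞ (P.th v) (Ann P.R) ∧
    ContinuousOn (P.th v) (cAnn P.R) ∧ (∀ x : E3, ‖x‖ = 1 → P.th v x = 0) ∧ ∀ x ∈ cAnn P.R, 0 ≤ P.th v x := by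
  refine ⟨?_, ?_, ?_, ?_⟩
  · exact W.theta_smooth (expo h.ok) hv.kap_pos (UMB.Lin.isOpen_Ann P.R) hv.sol.smooth
      (fun y hy => hv.sol.nonneg y ⟨hy.1.le, hy.2.le⟩)
  · have h1 : ContinuousOn (W.FF P.p (P.kap v)) {z : ℝ | 0 < W.KK P.p z + P.kap v} :=
      (W.FF_smooth (expo h.ok) hv.kap_pos).continuousOn
    have h2 : ContinuousOn v (cAnn P.R) := hv.sol.cont
    have h3 : MapsTo v (cAnn P.R) {z : ℝ | 0 < W.KK P.p z + P.kap v} := fun y hy =>
      ww_pos h.ok hv.kap_pos (hv.sol.nonneg y hy)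
    exact h1.comp h2 h3
  · intro x hx
    change W.FF P.p (P.kap v) (v x) = 0
    rw [hv.sol.one x hx]
    exact W.FF_one _ _
  · intro x hx
    exact (W.FF_bd (expo h.ok) hv.kap_pos (hv.sol.nonneg x hx) (hv.sol.le_one x hx)).1

end UMB.FL
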