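import Pool.Agent.Lib.UMB.FL.A12
import Pool.Agent.Lib.UMB.W.E1
import Pool.Agent.Lib.UMB.W.SolReg

/-! # UMB.FL, chunk A13 -/

set_option autoImplicit false

open Filter Topology Set MeasureTheory
open scoped ContDiff

namespace UMB.FL

open Pool.Agent.Lib.PenroseSph (E3 Tens pd chr trg gradNorm)
open UMB.Lin (Ann cAnn sig)

theorem a13_met {P : Par} (hg : AF P.g P.a) : MetOn P.g {x : E3 | P.a < ‖x‖} where
  isOpen := isOpen_lt continuous_const continuous_norm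
  smooth := hg.smooth
  symm := hg.symm
  pos := hg.pos

theorem a13_gsq {P : Par} (hg : AF P.g P.a) {v : E3 → ℝ} (hv : W.Sol P.op v) :
    ∃ B : ℝ, 0 ≤ B ∧ ∀ x ∈ Ann P.R, gsq P.g v x ≤ B := by
  have hM := a13_met hg
  obtain ⟨Bv, hBv0, hBv, _⟩ := W.sr_bdd hv
  have hsub : cAnn P.R ⊆ {x : E3 | P.a < ‖x‖} := fun x hx => hg.lt.trans_le hx.1
  choose C hC using fun i j => (UMB.Lin.isCompact_cAnn P.R).exists_bound_of_continuousOn
    ((hM.inv_smooth i j).continuousOn.mono hsub)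
  refine ⟨|∑ a, Bv * ∑ j, C a j * Bv|, abs_nonneg _, fun x hx => ?_⟩
  have hx2 : x ∈ cAnn P.R := UMB.Lin.Ann_subset _ hx
  refine (le_abs_self _).trans (le_trans ?_ (le_abs_self _))
  unfold gsq gradU
  refine (Finset.abs_sum_le_sum_abs _ _).trans (Finset.sum_le_sum fun a _ => ?_)
  rw [abs_mul]
  refine mul_le_mul (hBv x hx a) ((Finset.abs_sum_le_sum_abs _ _).trans (Finset.sum_le_sum fun j _ => ?_))
    (abs_nonneg _) hBv0
  rw [abs_mul]
  exact mul_le_mul (hC a j x hx2) (hBv x hx j) (abs_nonneg _) ((norm_nonneg _).trans (hC a j x hx2))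

theorem a13_log {t0 T t : ℝ} (h0 : 0 < t0) (h1 : t0 ≤ t) (h2 : t ≤ T) : |Real.log t| ≤ T + t0⁻¹ := by
  have ht : 0 < t := h0.trans_le h1
  have h3 : Real.log t ≤ t := (Real.log_le_sub_one_of_pos ht).trans (by linarith)
  have h4 : Real.log t⁻¹ ≤ t⁻¹ := (Real.log_le_sub_one_of_pos (inv_pos.2 ht)).trans (by linarith)
  rw [Real.log_inv] at h4
  have h5 : t⁻¹ ≤ t0⁻¹ := inv_anti₀ h0 h1
  have h6 : 0 < t0⁻¹ := inv_pos.2 h0
  exact abs_le.2 ⟨by linarith, by linarith⟩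

theorem a13_pow {T t b : ℝ} (h0 : 0 < t) (h2 : t ≤ T) (hb0 : 0 ≤ b) (hb : b ≤ 1) : t ^ (b + 1) ≤ (1 + T) ^ 2 := by
  have h3 : t ^ (b + 1) ≤ (1 + T) ^ (b + 1) := Real.rpow_le_rpow h0.le (by linarith) (by linarith)
  have h4 : (1 + T) ^ (b + 1) ≤ (1 + T) ^ ((2 : ℕ) : ℝ) :=
    Real.rpow_le_rpow_of_exponent_le (by linarith) (by push_cast; linarith)
  rw [Real.rpow_natCast] at h4
  exact h3.trans h4

/-- **A13a** (M). Integrability of the two densities on the annulus: they are bounded and continuous on the part `|x| < 3R1/2`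
(`ed` is used on the shell only, `mm` where `θ < T'`), more simply: `g` is positive definite on the whole of `{a < |x|}` (`AF`), so
`gv ≥ eps`, `s ≥ e^θ eps/w > 0` everywhere on `Ann`, all factors are continuous on `Ann` and bounded (`W.sr_bdd`, compactness of
`cAnn`, `s` bounded above and below by positive constants, `t ↦ t^{b+1} |log t|` is bounded on compact subsets of `(0,∞)`). -/
theorem ed_int {P : Par} (h : HP P) (hg : AF P.g P.a) {κ0 : ℝ} {v : E3 → ℝ} (hv : HV P κ0 v) :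
    IntegrableOn (ed P v) (Ann P.R) ∧ IntegrableOn (fun x => mm P v x * vol P.g x) (Ann P.R) ∧
      ∀ x ∈ Ann P.R, 0 ≤ ed P v x ∧ 0 ≤ mm P v x * vol P.g x := by
  have hM := a13_met hg
  have hMA : MetOn P.g (Ann P.R) := met_mono hM (UMB.Lin.isOpen_Ann P.R) fun x hx => hg.lt.trans hx.1
  have hsub : cAnn P.R ⊆ {x : E3 | P.a < ‖x‖} := fun x hx => hg.lt.trans_le hx.1
  have hC0 : 0 < P.CC v := CC_pos h.ok v
  have hκ := hv.kap_pos
  have heps := h.ok.eps_pos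
  have hv0 : ∀ x ∈ Ann P.R, 0 ≤ v x := fun x hx => hv.sol.nonneg x (UMB.Lin.Ann_subset _ hx)
  have hv1 : ∀ x ∈ Ann P.R, v x ≤ 1 := fun x hx => hv.sol.le_one x (UMB.Lin.Ann_subset _ hx)
  have hvc : ContinuousOn v (Ann P.R) := hv.sol.smooth.continuousOn
  obtain ⟨B, hB0, hB⟩ := a13_gsq hg hv.sol
  obtain ⟨Vb, hVb⟩ := (UMB.Lin.isCompact_cAnn P.R).exists_bound_of_continuousOn (hM.vol_smooth.continuousOn.mono hsub)
  have hgs0 : ∀ x ∈ Ann P.R, 0 ≤ gsq P.g v x := fun x hx => hMA.gsq_nonneg hx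
  have hvol0 : ∀ x ∈ Ann P.R, 0 < vol P.g x := fun x hx => hMA.vol_pos hx
  have hvolb : ∀ x ∈ Ann P.R, vol P.g x ≤ |Vb| := fun x hx =>
    ((le_abs_self _).trans (hVb x (UMB.Lin.Ann_subset _ hx))).trans (le_abs_self _)
  -- continuity
  have cth : ContinuousOn (P.th v) (Ann P.R) := (th_props h hv).1.continuousOn
  have hth0 : ∀ x ∈ Ann P.R, 0 ≤ P.th v x := fun x hx => (th_props h hv).2.2.2 x (UMB.Lin.Ann_subset _ hx)
  have hthb : ∀ x ∈ Ann P.R, P.th v x ≤ (P.kap v)⁻¹ := fun x hx => (W.FF_bd (expo h.ok) hκ (hv0 x hx) (hv1 x hx)).2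
  have cgs : ContinuousOn (gsq P.g v) (Ann P.R) := (hMA.gsq_smooth hv.sol.smooth).continuousOn
  have cgv : ContinuousOn (P.gv v) (Ann P.R) := (cgs.add continuousOn_const).sqrt
  have cvol : ContinuousOn (vol P.g) (Ann P.R) := hMA.vol_smooth.continuousOn
  have cb : ContinuousOn (fun x => P.b (v x)) (Ann P.R) := (b_smooth h.ok).continuous.comp_continuousOn hvc
  have cw : ContinuousOn (fun x => P.ww v (v x)) (Ann P.R) :=
    ((W.KK_smooth (expo h.ok)).continuous.comp_continuousOn hvc).add continuousOn_const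
  have hw0 : ∀ x ∈ Ann P.R, P.kap v ≤ P.ww v (v x) := fun x hx => by
    have := ww_ge h.ok (v := v) (hv0 x hx)
    linarith [hv0 x hx]
  have hwb : ∀ x ∈ Ann P.R, P.ww v (v x) ≤ P.kap v + 2 / P.q := fun x hx => by
    have h1 := ww_le h.ok (v := v) (hv0 x hx)
    have h2 : 2 / P.q * v x ≤ 2 / P.q := mul_le_of_le_one_right (by have := h.ok.q_pos; positivity) (hv1 x hx)
    linarith
  have hgve : ∀ x ∈ Ann P.R, P.eps ≤ P.gv v x := fun x hx => Real.le_sqrt_of_sq_le (by linarith [hgs0 x hx])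
  have hgvb : ∀ x ∈ Ann P.R, P.gv v x ≤ Real.sqrt (B + P.eps ^ 2) := fun x hx =>
    Real.sqrt_le_sqrt (by linarith [hB x hx])
  have cs : ContinuousOn (P.s v) (Ann P.R) :=
    (cth.rexp.div cw fun x hx => (hκ.trans_le (hw0 x hx)).ne').mul cgv
  -- bounds of t = C s
  set t0 : ℝ := P.CC v * (1 / (P.kap v + 2 / P.q) * P.eps) with ht0
  set T : ℝ := P.CC v * (Real.exp (P.kap v)⁻¹ / P.kap v * Real.sqrt (B + P.eps ^ 2)) with hT
  have hq := h.ok.q_pos
  have ht00 : 0 < t0 := by positivity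
  have hlow : ∀ x ∈ Ann P.R, t0 ≤ P.CC v * P.s v x := fun x hx => by
    refine mul_le_mul_of_nonneg_left ?_ hC0.le
    refine mul_le_mul ?_ (hgve x hx) heps.le (div_nonneg (Real.exp_pos _).le (hκ.trans_le (hw0 x hx)).le)
    exact div_le_div₀ (Real.exp_pos _).le (Real.one_le_exp (hth0 x hx)) (hκ.trans_le (hw0 x hx)) (hwb x hx)
  have hup : ∀ x ∈ Ann P.R, P.CC v * P.s v x ≤ T := fun x hx => by
    refine mul_le_mul_of_nonneg_left ?_ hC0.le
    refine mul_le_mul ?_ (hgvb x hx) (heps.le.trans (hgve x hx)) (by positivity)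
    exact div_le_div₀ (Real.exp_pos _).le (Real.exp_le_exp.2 (hthb x hx)) hκ (hw0 x hx)
  have hT0 : 0 ≤ T := by positivity
  have hpow0 : ∀ x ∈ Ann P.R, 0 ≤ (P.CC v * P.s v x) ^ (P.b (v x) + 1) := fun x hx =>
    Real.rpow_nonneg (ht00.le.trans (hlow x hx)) _
  have hpowb : ∀ x ∈ Ann P.R, (P.CC v * P.s v x) ^ (P.b (v x) + 1) ≤ (1 + T) ^ 2 := fun x hx =>
    a13_pow (ht00.trans_le (hlow x hx)) (hup x hx) (hq.le.trans (b_mem h.ok _).1) (b_mem h.ok _).2
  have cpow : ContinuousOn (fun x => (P.CC v * P.s v x) ^ (P.b (v x) + 1)) (Ann P.R) :=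
    (continuousOn_const.mul cs).rpow (cb.add continuousOn_const) fun x hx => Or.inl (ht00.trans_le (hlow x hx)).ne'
  have clog : ContinuousOn (fun x => |Real.log (P.CC v * P.s v x)|) (Ann P.R) :=
    ((continuousOn_const.mul cs).log fun x hx => (ht00.trans_le (hlow x hx)).ne').abs
  have cexp : ContinuousOn (fun x => Real.exp (-3 * P.th v x)) (Ann P.R) := (continuousOn_const.mul cth).rexp
  have hexpb : ∀ x ∈ Ann P.R, Real.exp (-3 * P.th v x) ≤ 1 := fun x hx =>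
    Real.exp_le_one_iff.2 (by linarith [hth0 x hx])
  have hed0 : ∀ x ∈ Ann P.R, 0 ≤ ed P v x := fun x hx =>
    mul_nonneg (mul_nonneg (Real.exp_pos _).le (mul_nonneg (hpow0 x hx) (abs_nonneg _))) (hvol0 x hx).le
  have hratio : ∀ x ∈ Ann P.R, 0 ≤ gsq P.g v x / P.gv v x ^ 2 ∧ gsq P.g v x / P.gv v x ^ 2 ≤ 1 := fun x hx => by
    have h1 : P.gv v x ^ 2 = gsq P.g v x + P.eps ^ 2 := Real.sq_sqrt (by have := hgs0 x hx; positivity)
    have h2 := hgs0 x hx
    rw [h1]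
    exact ⟨by positivity, (div_le_one (by positivity)).2 (by nlinarith)⟩
  have hmm0 : ∀ x ∈ Ann P.R, 0 ≤ mm P v x * vol P.g x := fun x hx =>
    mul_nonneg (mul_nonneg (mul_nonneg (mul_nonneg (inv_pos.2 hC0).le (Real.exp_pos _).le) (hpow0 x hx)) (hratio x hx).1)
      (hvol0 x hx).le
  refine ⟨?_, ?_, fun x hx => ⟨hed0 x hx, hmm0 x hx⟩⟩
  · refine W.sr_intOn (M := 1 * ((1 + T) ^ 2 * (T + t0⁻¹)) * |Vb|) ((cexp.mul (cpow.mul clog)).mul cvol) fun x hx => ?_
    rw [abs_of_nonneg (hed0 x hx)]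
    refine mul_le_mul ?_ (hvolb x hx) (hvol0 x hx).le (by positivity)
    refine mul_le_mul (hexpb x hx) ?_ (mul_nonneg (hpow0 x hx) (abs_nonneg _)) zero_le_one
    exact mul_le_mul (hpowb x hx) (a13_log ht00 (hlow x hx) (hup x hx)) (abs_nonneg _) (by positivity)
  · refine W.sr_intOn (M := (P.CC v)⁻¹ * 1 * (1 + T) ^ 2 * 1 * |Vb|) ?_ fun x hx => ?_
    · refine ContinuousOn.mul ?_ cvol
      refine ContinuousOn.mul ((continuousOn_const.mul cexp).mul cpow) ?_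
      exact cgs.div (cgv.pow 2) fun x hx => (pow_pos (heps.trans_le (hgve x hx)) 2).ne'
    · rw [abs_of_nonneg (hmm0 x hx)]
      refine mul_le_mul ?_ (hvolb x hx) (hvol0 x hx).le (by positivity)
      refine mul_le_mul ?_ (hratio x hx).2 (hratio x hx).1 (by positivity)
      refine mul_le_mul ?_ (hpowb x hx) (hpow0 x hx) (by positivity)
      exact mul_le_mul_of_nonneg_left (hexpb x hx) (inv_pos.2 hC0).le

end UMB.FL
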