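import Pool.Agent.Lib.UMB.FL.A1
import Pool.Agent.Lib.UMB.W.E0

/-! # UMB.FL, chunk A2 -/

set_option autoImplicit false

open Filter Topology Set MeasureTheory
open scoped ContDiff

namespace UMB.FL

open Pool.Agent.Lib.PenroseSph (E3 Tens pd chr trg gradNorm)
open UMB.Lin (Ann cAnn sig)

/-- **A2** (M). One variable calculus. `ww z = KK P.p z + κ`, `F = FF P.p κ`, `W.KK_deriv`, `W.FF_deriv` (E0.lean), `expo` (A1):
`F' = -1/w`, `w' = kt (P.p z) = (3-p)/(p-1) = (2-b)/b`, `(log w)' = w'/w`. So the derivative of `E1` is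
`2/w + b' (log C + F - log w) + b (-1/w - (2-b)/(b w)) = b' (log C + F - log w)`. -/
theorem ww_pos {P : Par} (h : P.Ok) {v : E3 → ℝ} (hκ : 0 < P.kap v) {z : ℝ} (hz : 0 ≤ z) : 0 < P.ww v z := by
  have h1 := (W.KK_bd (expo h) hz).1
  unfold Par.ww
  linarith

theorem ww_ge {P : Par} (h : P.Ok) {v : E3 → ℝ} {z : ℝ} (hz : 0 ≤ z) : P.kap v + z ≤ P.ww v z := by
  have h1 := (W.KK_bd (expo h) hz).1
  unfold Par.ww
  linarith

theorem a2_kt {P : Par} (h : P.Ok) {t : ℝ} (ht : t ≤ P.v1) : W.kt P.p t = 1 := by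
  unfold W.kt Par.p
  rw [b_eq_one h ht]
  norm_num

/-- `w(z) = κ + z` for `0 ≤ z ≤ v1` (`kt = 1` there). -/
theorem ww_eq {P : Par} (h : P.Ok) {v : E3 → ℝ} {z : ℝ} (hz : 0 ≤ z) (hz1 : z ≤ P.v1) : P.ww v z = P.kap v + z := by
  unfold Par.ww W.KK
  have h1 : ∫ t in (0 : ℝ)..z, W.kt P.p t = ∫ t in (0 : ℝ)..z, (1 : ℝ) := by
    apply intervalIntegral.integral_congr
    intro t ht
    rw [uIcc_of_le hz] at ht
    exact a2_kt h (ht.2.trans hz1)
  rw [h1]
  simp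
  ring

/-- `w(z) ≤ κ + (2/q) z` (`W.KK_bd` with `p0 = 1 + q`). -/
theorem ww_le {P : Par} (h : P.Ok) {v : E3 → ℝ} {z : ℝ} (hz : 0 ≤ z) : P.ww v z ≤ P.kap v + 2 / P.q * z := by
  have h1 := (W.KK_bd (expo h) hz).2
  have h2 : (1 : ℝ) + P.q - 1 = P.q := by ring
  rw [h2] at h1
  unfold Par.ww
  linarith

theorem a2_wderiv {P : Par} (h : P.Ok) (v : E3 → ℝ) (z : ℝ) : HasDerivAt (P.ww v) (W.kt P.p z) z := by
  have h1 := (W.KK_deriv (expo h) z).add_const (P.kap v)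
  exact h1

theorem a2_Fderiv {P : Par} (h : P.Ok) {v : E3 → ℝ} (hκ : 0 < P.kap v) {z : ℝ} (hz : 0 ≤ z) :
    HasDerivAt (P.F v) (- (P.ww v z)⁻¹) z := by
  have h1 := W.FF_deriv (expo h) hκ hz
  exact h1

theorem E1_deriv {P : Par} (h : P.Ok) {v : E3 → ℝ} (hκ : 0 < P.kap v) {z : ℝ} (hz : 0 ≤ z) :
    HasDerivAt (E1 P v) (deriv P.b z * (Real.log (P.CC v) + P.F v z - Real.log (P.ww v z))) z := by
  have hw := ww_pos h hκ hz
  have hF := a2_Fderiv h hκ hz
  have hww := a2_wderiv h v z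
  have hb : HasDerivAt P.b (deriv P.b z) z :=
    ((b_smooth h).differentiable (by simp) z).hasDerivAt
  have h1 := (hF.const_mul (-2)).add (hb.mul (((hasDerivAt_const z (Real.log (P.CC v))).add hF).sub (hww.log hw.ne')))
  have h2 : HasDerivAt (E1 P v) _ z := h1
  have hbp : 0 < P.b z := lt_of_lt_of_le h.q_pos (b_mem h z).1
  have hkt : W.kt P.p z = (2 - P.b z) / P.b z := by
    unfold W.kt Par.p
    congr 1 <;> ring
  refine h2.congr_deriv ?_
  rw [hkt]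
  simp only [Pi.add_apply, Pi.sub_apply]
  field_simp
  ring

/-- `W.FF_smooth`, `W.KK_smooth`. -/
theorem E1_smooth {P : Par} (h : P.Ok) {v : E3 → ℝ} (hκ : 0 < P.kap v) :
    ContDiffOn ℝ ∞ (E1 P v) {z : ℝ | 0 < P.ww v z} := by
  have hF : ContDiffOn ℝ ∞ (P.F v) {z : ℝ | 0 < P.ww v z} := W.FF_smooth (expo h) hκ
  have hw : ContDiffOn ℝ ∞ (P.ww v) {z : ℝ | 0 < P.ww v z} :=
    ((W.KK_smooth (expo h)).add contDiff_const).contDiffOn
  have hl : ContDiffOn ℝ ∞ (fun z => Real.log (P.ww v z)) {z : ℝ | 0 < P.ww v z} :=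
    hw.log (fun z hz => ne_of_gt hz)
  have h1 := (contDiffOn_const (c := (-2 : ℝ))).mul hF
  have h2 := (b_smooth h).contDiffOn (s := {z : ℝ | 0 < P.ww v z})
  exact h1.add (h2.mul (((contDiffOn_const (c := Real.log (P.CC v))).add hF).sub hl))

/-- `F(z) = F(v1) + log ((κ + v1)/(κ + z))` for `0 ≤ z ≤ v1` (same derivative on `[0, v1]`), so `e^{-F(z)} = Cst (κ + z)`. -/
theorem F_far {P : Par} (h : P.Ok) {v : E3 → ℝ} (hκ : 0 < P.kap v) {z : ℝ} (hz : 0 ≤ z) (hz1 : z ≤ P.v1) :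
    Real.exp (-P.F v z) = P.Cst v * (P.kap v + z) := by
  have hd : ∀ t ∈ Icc z P.v1, HasDerivAt (fun t => P.F v t + Real.log (P.kap v + t)) 0 t := by
    intro t ht
    have ht0 : 0 ≤ t := hz.trans ht.1
    have h1 := a2_Fderiv h hκ ht0
    have h2 : HasDerivAt (fun t : ℝ => P.kap v + t) 1 t := by
      simpa using (hasDerivAt_id t).const_add (P.kap v)
    have hne : P.kap v + t ≠ 0 := by linarith
    have h3 := h1.add (h2.log hne)
    refine h3.congr_deriv ?_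
    rw [ww_eq h ht0 ht.2]
    simp
  have hc : P.F v P.v1 + Real.log (P.kap v + P.v1) = P.F v z + Real.log (P.kap v + z) := by
    have h4 := constant_of_has_deriv_right_zero (f := fun t => P.F v t + Real.log (P.kap v + t)) (a := z) (b := P.v1)
      (fun t ht => (hd t ht).continuousAt.continuousWithinAt)
      (fun t ht => (hd t ⟨ht.1, ht.2.le⟩).hasDerivWithinAt)
    exact h4 P.v1 ⟨hz1, le_rfl⟩
  have p1 : 0 < P.kap v + P.v1 := by linarith
  have p2 : 0 < P.kap v + z := by linarith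
  have hF : -P.F v z = -P.F v P.v1 - Real.log (P.kap v + P.v1) + Real.log (P.kap v + z) := by linarith
  rw [hF, Real.exp_add, Real.exp_sub, Real.exp_log p1, Real.exp_log p2]
  unfold Par.Cst
  rw [add_comm P.v1]

/-- `C = R e^{-T} = R Cst κ = Cst Cv`. -/
theorem CC_eq {P : Par} (h : P.Ok) {v : E3 → ℝ} (hκ : 0 < P.kap v) : P.CC v = P.Cst v * P.Cv v := by
  have h1 := F_far h hκ (le_refl (0 : ℝ)) (v1_pos h).le
  have hR : 0 < P.R := by
    have h1 := h.r1_ge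
    have h2 := h.R1_ge
    have h3 := h.R_ge
    linarith
  unfold Par.CC Par.T
  rw [h1, add_zero]
  unfold Par.kap
  field_simp

end UMB.FL
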