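import Pool.Agent.Lib.UMB.FL.A2

/-! # UMB.FL, chunk A3 -/

set_option autoImplicit false

open Filter Topology Set MeasureTheory
open scoped ContDiff

namespace UMB.FL

open Pool.Agent.Lib.PenroseSph (E3 Tens pd chr trg gradNorm)
open UMB.Lin (Ann cAnn sig)

/-- **A3** (M). Smoothness and derivative of the exponent in the annulus (`HP.metA`, `MetOn.gsq_smooth`, `MetOn.gsq_nonneg`,
`GA.D_fsq` with `val_D`, `val_fsq`, `val_hs`, `val_gr`: `pd a (gsq g v) = 2 hgrad g v a`; `gvh² = gsq + eps²`, `eps > 0`;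
`log gvh = (1/2) log (gsq + eps²)`). -/
theorem pd_gsq {g : Tens} {U : Set E3} (h : MetOn g U) {v : E3 → ℝ} (hv : ContDiffOn ℝ ∞ v U) (a : Fin 3) {x : E3}
    (hx : x ∈ U) : pd a (gsq g v) x = 2 * hgrad g v a x := by
  have h0 := h.ga.D_fsq (rest v hv) a
  rw [two_mul] at h0
  have h1 := congrArg (fun f : SmR U => f.1 ⟨x, hx⟩) h0
  simp only [val_add, val_sum, val_mul, val_hs, val_gr] at h1
  rw [val_D h a _ (gsq g v) (val_fsq h hv)] at h1
  rw [h1, two_mul]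
  rfl

theorem gvh_pos {P : Par} (h : HP P) {v : E3 → ℝ} {x : E3} (hx : x ∈ Ann P.R) :
    P.eps ≤ gvh P v x ∧ 0 < gvh P v x ∧ gvh P v x ^ 2 = gsq P.gh v x + P.eps ^ 2 := by
  have h1 := h.metA.gsq_nonneg (u := v) hx
  have he := h.ok.eps_pos
  have h2 : P.eps ≤ gvh P v x := by
    unfold gvh
    exact Real.le_sqrt_of_sq_le (by linarith)
  refine ⟨h2, he.trans_le h2, ?_⟩
  unfold gvh
  exact Real.sq_sqrt (by positivity)

/-- `log gvh = (1/2) log (gsq + eps²)`. -/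
theorem a3_log {P : Par} (h : HP P) {v : E3 → ℝ} {x : E3} (hx : x ∈ Ann P.R) :
    Real.log (gvh P v x) = Real.log (gsq P.gh v x + P.eps ^ 2) / 2 := by
  have h1 := h.metA.gsq_nonneg (u := v) hx
  unfold gvh
  exact Real.log_sqrt (by positivity)

theorem a3_pos {P : Par} (h : HP P) {v : E3 → ℝ} {x : E3} (hx : x ∈ Ann P.R) : 0 < gsq P.gh v x + P.eps ^ 2 := by
  have h1 := h.metA.gsq_nonneg (u := v) hx
  have he := h.ok.eps_pos
  positivity

theorem a3_map {P : Par} (h : HP P) {κ0 : ℝ} {v : E3 → ℝ} (hv : HV P κ0 v) {x : E3} (hx : x ∈ Ann P.R) :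
    0 < P.ww v (v x) := ww_pos h.ok hv.kap_pos (hv.sol.nonneg x ⟨hx.1.le, hx.2.le⟩)

theorem EE_smooth {P : Par} (h : HP P) {κ0 : ℝ} {v : E3 → ℝ} (hv : HV P κ0 v) : ContDiffOn ℝ ∞ (EE P v) (Ann P.R) := by
  have hvs : ContDiffOn ℝ ∞ v (Ann P.R) := hv.sol.smooth
  have h1 : ContDiffOn ℝ ∞ (fun x => E1 P v (v x)) (Ann P.R) :=
    (E1_smooth h.ok hv.kap_pos).comp hvs fun x hx => a3_map h hv hx
  have h2 : ContDiffOn ℝ ∞ (fun x => P.b (v x)) (Ann P.R) := (b_smooth h.ok).comp_contDiffOn hvs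
  have h3 : ContDiffOn ℝ ∞ (fun x => Real.log (gvh P v x)) (Ann P.R) := by
    have h4 : ContDiffOn ℝ ∞ (fun x => Real.log (gsq P.gh v x + P.eps ^ 2) / 2) (Ann P.R) :=
      (((h.metA.gsq_smooth hvs).add contDiffOn_const).log fun x hx => (a3_pos h hx).ne').div_const 2
    exact h4.congr fun x hx => a3_log h hx
  exact h1.add ((h2.sub contDiffOn_const).mul h3)

theorem pd_EE {P : Par} (h : HP P) {κ0 : ℝ} {v : E3 → ℝ} (hv : HV P κ0 v) (a : Fin 3) {x : E3} (hx : x ∈ Ann P.R) :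
    pd a (EE P v) x = deriv P.b (v x) * LL P v x * pd a v x
      + (P.b (v x) - 1) / gvh P v x ^ 2 * hgrad P.gh v a x := by
  have hvs : ContDiffOn ℝ ∞ v (Ann P.R) := hv.sol.smooth
  have hN := h.metA.isOpen.mem_nhds hx
  have hvd : DifferentiableAt ℝ v x := (hvs.contDiffAt hN).differentiableAt (by simp)
  have hz : 0 ≤ v x := hv.sol.nonneg x ⟨hx.1.le, hx.2.le⟩
  have hG : DifferentiableAt ℝ (gsq P.gh v) x := ((h.metA.gsq_smooth hvs).contDiffAt hN).differentiableAt (by simp)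
  have hpos := a3_pos h (v := v) hx
  have e1 : HasFDerivAt (fun y => E1 P v (v y))
      ((deriv P.b (v x) * (Real.log (P.CC v) + P.F v (v x) - Real.log (P.ww v (v x)))) • fderiv ℝ v x) x :=
    (E1_deriv h.ok hv.kap_pos hz).comp_hasFDerivAt x hvd.hasFDerivAt
  have hb : HasDerivAt P.b (deriv P.b (v x)) (v x) :=
    ((b_smooth h.ok).differentiable (by simp)).differentiableAt.hasDerivAt
  have e2 : HasFDerivAt (fun y => P.b (v y) - 1) (deriv P.b (v x) • fderiv ℝ v x) x :=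
    (hb.comp_hasFDerivAt x hvd.hasFDerivAt).sub_const 1
  have e3 : HasFDerivAt (fun y => Real.log (gsq P.gh v y + P.eps ^ 2) / 2)
      ((2 : ℝ)⁻¹ • ((gsq P.gh v x + P.eps ^ 2)⁻¹ • fderiv ℝ (gsq P.gh v) x)) x := by
    have h1 := ((hG.hasFDerivAt.add_const (P.eps ^ 2)).log hpos.ne').const_mul (2 : ℝ)⁻¹
    refine h1.congr_of_eventuallyEq (Eventually.of_forall fun y => ?_)
    show Real.log (gsq P.gh v y + P.eps ^ 2) / 2 = 2⁻¹ * Real.log (gsq P.gh v y + P.eps ^ 2)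
    ring
  have e4 := e1.add (e2.mul e3)
  have hev : EE P v =ᶠ[𝓝 x] fun y => E1 P v (v y) + (P.b (v y) - 1) * (Real.log (gsq P.gh v y + P.eps ^ 2) / 2) := by
    filter_upwards [hN] with y hy
    unfold EE
    rw [a3_log h hy]
  have h5 : pd a (gsq P.gh v) x = 2 * hgrad P.gh v a x := pd_gsq h.metA hvs a hx
  have e5 : HasFDerivAt (EE P v) _ x := e4.congr_of_eventuallyEq hev
  have e6 : pd a (EE P v) x = deriv P.b (v x) * (Real.log (P.CC v) + P.F v (v x) - Real.log (P.ww v (v x))) * pd a v x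
      + ((P.b (v x) - 1) * (2⁻¹ * ((gsq P.gh v x + P.eps ^ 2)⁻¹ * pd a (gsq P.gh v) x))
        + Real.log (gsq P.gh v x + P.eps ^ 2) / 2 * (deriv P.b (v x) * pd a v x)) := by
    unfold pd
    rw [e5.fderiv]
    simp only [add_apply, smul_apply, smul_eq_mul]
  rw [e6, h5, (gvh_pos h hx).2.2]
  unfold LL
  rw [a3_log h hx]
  field_simp
  ring

end UMB.FL
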