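import Pool.Agent.Lib.UMB.FL.A3

/-! # UMB.FL, chunk A4 -/

set_option autoImplicit false

open Filter Topology Set MeasureTheory
open scoped ContDiff

namespace UMB.FL

open Pool.Agent.Lib.PenroseSph (E3 Tens pd chr trg gradNorm)
open UMB.Lin (Ann cAnn sig)

/-- **A4a** (M). Divergence of `√det g · E ∇v`: `MetOn.div_eq`, product rule, and `GA.dv_gr` (evaluated with `val_dv`, `val_gr`,
`val_lap`): `∑_a (pd a (gradU g v a) + ∑_c chr g c c a gradU g v a) = lapG g v`. -/
theorem div_smul {g : Tens} {U : Set E3} (h : MetOn g U) {v E : E3 → ℝ} (hv : ContDiffOn ℝ ∞ v U) (hE : ContDiffOn ℝ ∞ E U)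
    {x : E3} (hx : x ∈ U) :
    ∑ a, pd a (fun y => vol g y * (E y * gradU g v a y)) x
      = vol g x * (E x * lapG g v x + ∑ a, pd a E x * gradU g v a x) := by
  have hN := h.isOpen.mem_nhds hx
  rw [h.div_eq (fun a y => E y * gradU g v a y) (fun a => hE.mul (h.gradU_smooth hv a)) hx]
  congr 1
  have h1 := congrArg (fun f : SmR U => f.1 ⟨x, hx⟩) (h.ga.dv_gr (rest v hv))
  simp only [val_lap] at h1
  rw [val_dv h _ (gradU g v) (fun a y => val_gr h hv a y)] at h1
  rw [← h1, Finset.mul_sum, ← Finset.sum_add_distrib]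
  refine Finset.sum_congr rfl fun a _ => ?_
  have hEd : DifferentiableAt ℝ E x := (hE.contDiffAt hN).differentiableAt (by simp)
  have hGd : DifferentiableAt ℝ (gradU g v a) x := ((h.gradU_smooth hv a).contDiffAt hN).differentiableAt (by simp)
  rw [Pool.Agent.Lib.PenroseSph.pd_mul a hEd hGd, mul_add, Finset.mul_sum]
  have h2 : ∑ c, chr g c c a x * (E x * gradU g v a x) = ∑ c, E x * (chr g c c a x * gradU g v a x) :=
    Finset.sum_congr rfl fun c _ => by ring
  rw [h2]
  ring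

theorem XX_smooth {P : Par} (h : HP P) {κ0 : ℝ} {v : E3 → ℝ} (hv : HV P κ0 v) (a : Fin 3) :
    ContDiffOn ℝ ∞ (XX P v a) (Ann P.R) := by
  have h1 : ContDiffOn ℝ ∞ (fun y => vol P.gh y * (SC P v y * gradU P.gh v a y)) (Ann P.R) :=
    h.metA.vol_smooth.mul ((EE_smooth h hv).exp.mul (h.metA.gradU_smooth hv.sol.smooth a))
  exact h1.neg

/-- **A4b.** `A4a` with `E = exp EE` and `pd_EE`; `gsq = ∑ pd a v gradU a`, `hgg = ∑ hgrad a gradU a`. -/
theorem div_XX {P : Par} (h : HP P) {κ0 : ℝ} {v : E3 → ℝ} (hv : HV P κ0 v) {x : E3} (hx : x ∈ Ann P.R) :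
    ∑ a, pd a (XX P v a) x = - (vol P.gh x * (SC P v x * (Q2 P v x + deriv P.b (v x) * LL P v x * gsq P.gh v x))) := by
  have hN := h.metA.isOpen.mem_nhds hx
  have hE : ContDiffOn ℝ ∞ (SC P v) (Ann P.R) := (EE_smooth h hv).exp
  have h1 := div_smul h.metA hv.sol.smooth hE hx
  have h2 : ∀ a, pd a (XX P v a) x = - pd a (fun y => vol P.gh y * (SC P v y * gradU P.gh v a y)) x := by
    intro a
    unfold pd
    rw [show XX P v a = fun y => - (vol P.gh y * (SC P v y * gradU P.gh v a y)) from rfl, fderiv_fun_neg]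
    rfl
  simp only [h2]
  rw [Finset.sum_neg_distrib, h1]
  congr 2
  have h3 : ∀ a, pd a (SC P v) x = SC P v x * pd a (EE P v) x := by
    intro a
    have hd : DifferentiableAt ℝ (EE P v) x := ((EE_smooth h hv).contDiffAt hN).differentiableAt (by simp)
    unfold pd
    rw [show SC P v = fun y => Real.exp (EE P v y) from rfl, hd.hasFDerivAt.exp.fderiv]
    rfl
  have h4 : ∑ a, pd a (SC P v) x * gradU P.gh v a x = SC P v x * (deriv P.b (v x) * LL P v x * gsq P.gh v x
      + (P.b (v x) - 1) / gvh P v x ^ 2 * hgg P.gh v x) := by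
    simp only [h3, pd_EE h hv _ hx]
    unfold gsq hgg
    simp only [Fin.sum_univ_three]
    ring
  rw [h4]
  unfold Q2
  ring

end UMB.FL
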