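import Pool.Agent.Lib.UMB.FL.A3

/-! # UMB.FL, chunk A5 -/

set_option autoImplicit false

open Filter Topology Set MeasureTheory
open scoped ContDiff

namespace UMB.FL

open Pool.Agent.Lib.PenroseSph (E3 Tens pd chr trg gradNorm)
open UMB.Lin (Ann cAnn sig)

/-- **A5a** (S/M). `Q2 = aal : Hs`. `P.op.p (v x) - 2 = b (v x) - 1`, `(∑ l, G i l * D1 v x l) = gradU P.gh v i x`,
`q1 (P.op.G x) (D1 v x) = gsq P.gh v x`, `Hs P v x i j = hess P.gh v i j x` (all by unfolding, `P.op.Gam m x i j = chr P.gh m i j x`),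
the matrix `G` is symmetric (`HP.opok.G_symm`). -/
theorem Q2_eq {P : Par} (h : HP P) {v : E3 → ℝ} {x : E3} (hx : x ∈ Ann P.R) :
    Q2 P v x = tr2 (W.aal (P.op.G x) (P.op.p (v x)) P.eps (D1 v x)) (Hs P v x) := by
  have hG : ∀ i j, P.op.G x i j = (P.gh x)⁻¹ i j := fun _ _ => rfl
  have hm : ∀ i, (∑ l, P.op.G x i l * D1 v x l) = gradU P.gh v i x := fun i => rfl
  have hq : q1 (P.op.G x) (D1 v x) = gsq P.gh v x := by
    unfold q1 gsq gradU
    simp only [Fin.sum_univ_three, hG, D1]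
    ring
  have hs : Real.sqrt (q1 (P.op.G x) (D1 v x) + P.eps ^ 2) = gvh P v x := by
    rw [hq]
    rfl
  have hH : ∀ i j, Hs P v x i j = hess P.gh v i j x := fun i j => rfl
  have hp : P.op.p (v x) - 2 = P.b (v x) - 1 := by
    show 1 + P.b (v x) - 2 = _
    ring
  unfold Q2 tr2 W.aal
  simp only [hm, hs, hH, hp]
  simp only [hG]
  unfold lapG hgg hgrad hessM
  simp only [Fin.sum_univ_three]
  ring

/-- **A5b** (S/M). The equation `OpData.Solves` is `aa : Hs + (aa : k) n.dv = 0` (definition of `bb`). So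
`Q2 = (aal - aa) : Hs - (aa : k) n.dv ≤ errD`. -/
theorem Q2_le {P : Par} (h : HP P) {κ0 : ℝ} {v : E3 → ℝ} (hv : HV P κ0 v) {x : E3} (hx : x ∈ Ann P.R) :
    Q2 P v x ≤ errD P v x := by
  have h1 : tr2 (P.op.aa v x) (Hs P v x) = - (tr2 (P.op.aa v x) (P.op.k x) * ∑ i, P.op.nn v x i * D1 v x i) := by
    have h2 := hv.sol.solves x hx
    have h3 : tr2 (P.op.aa v x) (Hs P v x) = tr2 (P.op.aa v x) (D2 v x)
        - ∑ m, tr2 (P.op.aa v x) (P.op.Gam m x) * D1 v x m := by
      unfold tr2 Hs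
      simp only [Fin.sum_univ_three]
      ring
    have h4 : ∑ i, P.op.bb v x i * D1 v x i = - ∑ m, tr2 (P.op.aa v x) (P.op.Gam m x) * D1 v x m
        + tr2 (P.op.aa v x) (P.op.k x) * ∑ i, P.op.nn v x i * D1 v x i := by
      unfold OpData.bb
      simp only [Fin.sum_univ_three]
      ring
    rw [h4] at h2
    linarith
  have h5 : Q2 P v x = (∑ i, ∑ j, (W.aal (P.op.G x) (P.op.p (v x)) P.eps (D1 v x) i j - P.op.aa v x i j) * Hs P v x i j)
      + tr2 (P.op.aa v x) (Hs P v x) := by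
    rw [Q2_eq h hx]
    unfold tr2
    simp only [sub_mul, Finset.sum_sub_distrib]
    ring
  rw [h5, h1]
  unfold errD
  refine add_le_add ?_ (le_max_right _ _)
  refine Finset.sum_le_sum fun i _ => Finset.sum_le_sum fun j _ => ?_
  refine (le_abs_self _).trans ?_
  rw [abs_mul, abs_sub_comm]

end UMB.FL
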