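import Pool.Agent.Lib.UMB.FL.Defs

/-! # UMB.FL, chunk A6 -/

set_option autoImplicit false

open Filter Topology Set MeasureTheory
open scoped ContDiff

namespace UMB.W

open Pool.Agent.Lib.PenroseSph (E3 Tens pd)
open UMB.Lin (Ann cAnn sig)

/-- copy of `W.align_err` with a general matrix field in place of the second derivatives -/
theorem fl_a6_gen {D : OpData} (hD : D.Ok) {C2 : ℝ} (hC2 : 0 ≤ C2) : ∃ C : ℝ, 0 ≤ C ∧ ∀ (eps d : ℝ) (eta : E3 → ℝ),
    (OpData.upd D eps d eta).Ok →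
    d ≤ 1 → eps ≤ 1 → ∀ v : E3 → ℝ, Sol (OpData.upd D eps d eta) v → ∀ H : E3 → Matrix (Fin 3) (Fin 3) ℝ,
      IntegrableOn (fun x => fsq (H x)) (Ann D.R) → ∫ x in Ann D.R, fsq (H x) ≤ C2 →
      ∫ x in Ann D.R, ∑ i, ∑ j, |(OpData.upd D eps d eta).aa v x i j - aal (D.G x) (D.p (v x)) eps (D1 v x) i j| * |H x i j|
        ≤ C * eps⁻¹ * d ^ (1 / 2 : ℝ) := by
  obtain ⟨B, hB, h1⟩ := exists_bd hD
  obtain ⟨C3, hC3, h3⟩ := sol_err hD
  obtain ⟨L, hL, h4⟩ := sr_lip hD.p_smooth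
  set K1 : ℝ := 9 * (B * L) with hK1
  set K2 : ℝ := 9 * (4 * B * Real.sqrt (9 * B)) with hK2
  have hK1' : 0 ≤ K1 := by positivity
  have hK2' : 0 ≤ K2 := by positivity
  refine ⟨(K1 + K2) * ((C2 + C3) / 2), by positivity, fun eps d eta hOk hd1 heps1 v hS H i3 g3 => ?_⟩
  have hd : 0 < d := hOk.d_pos
  have heps : 0 < eps := hOk.eps_pos
  set D' := OpData.upd D eps d eta with hD'
  set δ : ℝ := d ^ (1 / 2 : ℝ) with hδdef
  have hδ : 0 < δ := Real.rpow_pos_of_pos hd _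
  have hδ2 : δ * δ = d := by
    rw [hδdef, ← Real.rpow_add hd]
    norm_num
  have i1 : IntegrableOn (fun x => vsq (fun i => D'.qd v x i - D1 v x i)) (Ann D.R) := sr_int_q hOk hS
  have i2 : IntegrableOn (fun x => (D'.vd v x - v x) ^ 2) (Ann D.R) := sr_int_v hOk hS
  obtain ⟨g1, g2⟩ := h3 eps d eta hOk hd1 v hS
  have hpt : ∀ x ∈ Ann D.R, ∑ i, ∑ j, |D'.aa v x i j - aal (D.G x) (D.p (v x)) eps (D1 v x) i j| * |H x i j| ≤
      K1 * ((δ * fsq (H x) + (D'.vd v x - v x) ^ 2 / δ) / 2) +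
      K2 / eps * ((δ * fsq (H x) + vsq (fun i => D'.qd v x i - D1 v x i) / δ) / 2) := by
    intro x hx
    have hxa : D.a < ‖x‖ := hD.a_lt.trans hx.1
    have hxc := UMB.Lin.Ann_subset D.R hx
    have hsym : ∀ i j, D.G x i j = D.G x j i := fun i j => (hD.G_symm x hxa).apply j i
    have hGB : ∀ i j, |D.G x i j| ≤ B := (h1 x hxc).1
    have hv0 := hS.nonneg x hxc
    have hv1 := hS.le_one x hxc
    obtain ⟨hw0, hw1⟩ := sr_vd_mem hOk hS.cont hS.nonneg hS.le_one x
    have hP := h4 (D'.vd v x) (v x) hw0 hw1 hv0 hv1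
    have hz : 0 ≤ vsq (fun i => D'.qd v x i - D1 v x i) := Finset.sum_nonneg fun _ _ => sq_nonneg _
    have hf : 0 ≤ fsq (H x) := Finset.sum_nonneg fun _ _ => Finset.sum_nonneg fun _ _ => sq_nonneg _
    have hq1 : q1 (D.G x) (fun j => D'.qd v x j - D1 v x j) ≤
        9 * B * vsq (fun j => D'.qd v x j - D1 v x j) := q1_le hGB _
    have hsq : Real.sqrt (q1 (D.G x) (fun j => D'.qd v x j - D1 v x j)) ≤
        Real.sqrt (9 * B) * Real.sqrt (vsq (fun j => D'.qd v x j - D1 v x j)) := by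
      refine (Real.sqrt_le_sqrt hq1).trans (le_of_eq ?_)
      rw [Real.sqrt_mul (by positivity)]
    have hterm : ∀ i j, |D'.aa v x i j - aal (D.G x) (D.p (v x)) eps (D1 v x) i j| * |H x i j| ≤
        (B * (L * |D'.vd v x - v x|) + 4 * B * (Real.sqrt (9 * B) *
          Real.sqrt (vsq (fun j => D'.qd v x j - D1 v x j)) / eps)) * Real.sqrt (fsq (H x)) := by
      intro i j
      apply mul_le_mul _ (Real.abs_le_sqrt (a4_ent (H x) i j)) (abs_nonneg _) (by positivity)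
      have h5 := f6_diff hsym (hD.G_pos x hxa) hGB heps (D'.qd v x) (D1 v x) (P := D.p (D'.vd v x))
        (p := D.p (v x)) (hD.one_lt_p0.le.trans (hD.p_ge _)) (hD.p_le _) i j
      have h6 : D'.aa v x i j = D.G x i j + (D.p (D'.vd v x) - 2) *
        ((∑ l, D.G x i l * D'.qd v x l) / Real.sqrt (q1 (D.G x) (D'.qd v x) + eps ^ 2))
        * ((∑ l, D.G x j l * D'.qd v x l) / Real.sqrt (q1 (D.G x) (D'.qd v x) + eps ^ 2)) := rfl
      rw [h6]
      refine h5.trans (add_le_add (mul_le_mul_of_nonneg_left hP hB) ?_)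
      apply mul_le_mul_of_nonneg_left _ (by positivity)
      exact div_le_div_of_nonneg_right hsq heps.le
    have hsum : ∑ i, ∑ j, |D'.aa v x i j - aal (D.G x) (D.p (v x)) eps (D1 v x) i j| * |H x i j| ≤
        9 * ((B * (L * |D'.vd v x - v x|) + 4 * B * (Real.sqrt (9 * B) *
          Real.sqrt (vsq (fun j => D'.qd v x j - D1 v x j)) / eps)) * Real.sqrt (fsq (H x))) := by
      refine (Finset.sum_le_sum fun i _ => Finset.sum_le_sum fun j _ => hterm i j).trans (le_of_eq ?_)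
      simp only [Finset.sum_const, Finset.card_univ, Fintype.card_fin, nsmul_eq_mul]
      push_cast
      ring
    refine hsum.trans ?_
    have k1 := sr_mul_le hf (sq_nonneg (D'.vd v x - v x)) hδ
    rw [Real.sqrt_sq_eq_abs] at k1
    have k2 := sr_mul_le hf hz hδ
    have k3 := mul_le_mul_of_nonneg_left k1 hK1'
    have k4 := mul_le_mul_of_nonneg_left k2 (by positivity : 0 ≤ K2 / eps)
    refine le_trans (le_of_eq ?_) (add_le_add k3 k4)
    rw [hK1, hK2]
    field_simp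
  have j1 : IntegrableOn (fun x => K1 * ((δ * fsq (H x) + (D'.vd v x - v x) ^ 2 / δ) / 2)) (Ann D.R) :=
    (((i3.const_mul δ).add (i2.div_const δ)).div_const 2).const_mul _
  have j2 : IntegrableOn (fun x => K2 / eps *
      ((δ * fsq (H x) + vsq (fun i => D'.qd v x i - D1 v x i) / δ) / 2)) (Ann D.R) :=
    (((i3.const_mul δ).add (i1.div_const δ)).div_const 2).const_mul _
  calc ∫ x in Ann D.R, ∑ i, ∑ j, |D'.aa v x i j - aal (D.G x) (D.p (v x)) eps (D1 v x) i j| * |H x i j|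
      ≤ ∫ x in Ann D.R, (K1 * ((δ * fsq (H x) + (D'.vd v x - v x) ^ 2 / δ) / 2) +
        K2 / eps * ((δ * fsq (H x) + vsq (fun i => D'.qd v x i - D1 v x i) / δ) / 2)) := by
        refine integral_mono_of_nonneg (Eventually.of_forall fun x => Finset.sum_nonneg fun i _ =>
          Finset.sum_nonneg fun j _ => mul_nonneg (abs_nonneg _) (abs_nonneg _)) (j1.add j2) ?_
        filter_upwards [ae_restrict_mem (UMB.Lin.measurableSet_Ann D.R)] with x hx
        exact hpt x hx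
    _ = K1 * ((δ * (∫ x in Ann D.R, fsq (H x)) + (∫ x in Ann D.R, (D'.vd v x - v x) ^ 2) / δ) / 2) +
        K2 / eps * ((δ * (∫ x in Ann D.R, fsq (H x)) +
          (∫ x in Ann D.R, vsq (fun i => D'.qd v x i - D1 v x i)) / δ) / 2) := by
        rw [integral_add j1 j2, integral_const_mul, integral_const_mul, integral_div, integral_div,
          integral_add (i3.const_mul δ) (i2.div_const δ), integral_add (i3.const_mul δ) (i1.div_const δ),
          integral_const_mul, integral_div, integral_div]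
    _ ≤ K1 * ((δ * C2 + C3 * d / δ) / 2) + K2 / eps * ((δ * C2 + C3 * d / δ) / 2) := by
        gcongr
    _ = (K1 + K2 / eps) * (δ * ((C2 + C3) / 2)) := by
        rw [← hδ2]
        field_simp
    _ ≤ (K1 / eps + K2 / eps) * (δ * ((C2 + C3) / 2)) := by
        gcongr
        rw [le_div_iff₀ heps]
        exact mul_le_of_le_one_right hK1' heps1
    _ = (K1 + K2) * ((C2 + C3) / 2) * eps⁻¹ * δ := by
        rw [div_eq_mul_inv, div_eq_mul_inv]
        ring

/-- continuity of `G u/√(G(u,u)+eps²)` -/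
theorem fl_a6_comp {D : OpData} (hD : D.Ok) {u : E3 → Fin 3 → ℝ} (hu : ∀ i, ContinuousOn (fun x => u x i) (Ann D.R))
    (i : Fin 3) :
    ContinuousOn (fun x => (∑ l, D.G x i l * u x l) / Real.sqrt (q1 (D.G x) (u x) + D.eps ^ 2)) (Ann D.R) := by
  have hG : ∀ i j, ContinuousOn (fun x => D.G x i j) (Ann D.R) := fun i j =>
    (hD.G_smooth i j).continuousOn.mono fun x hx => hD.a_lt.trans hx.1
  have hq : ContinuousOn (fun x => q1 (D.G x) (u x)) (Ann D.R) := by
    unfold q1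
    exact continuousOn_finsetSum _ fun i _ => continuousOn_finsetSum _ fun j _ => ((hG i j).mul (hu i)).mul (hu j)
  refine ContinuousOn.div (continuousOn_finsetSum _ fun l _ => (hG i l).mul (hu l))
    ((hq.add continuousOn_const).sqrt) ?_
  intro x hx
  have h1 := a3_q1_nonneg (hD.G_pos x (hD.a_lt.trans hx.1)) (u x)
  have h2 := pow_pos hD.eps_pos 2
  exact (Real.sqrt_pos.2 (by linarith)).ne'

/-- bound of `G u/√(G(u,u)+eps²)` -/
theorem fl_a6_bd {D : OpData} (hD : D.Ok) {B : ℝ} {x : E3} (hx : x ∈ Ann D.R) (hB : ∀ i j, |D.G x i j| ≤ B)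
    (u : Fin 3 → ℝ) (i : Fin 3) :
    |(∑ l, D.G x i l * u l) / Real.sqrt (q1 (D.G x) u + D.eps ^ 2)| ≤ Real.sqrt B := by
  have hxa : D.a < ‖x‖ := hD.a_lt.trans hx.1
  have hG : ∀ i j, D.G x i j = D.G x j i := fun i j => (hD.G_symm x hxa).apply j i
  have hp := hD.G_pos x hxa
  have hz := a3_q1_nonneg hp u
  have he := pow_pos hD.eps_pos 2
  have hN0 : 0 < Real.sqrt (q1 (D.G x) u + D.eps ^ 2) := Real.sqrt_pos.2 (by linarith)
  rw [abs_div, abs_of_pos hN0, div_le_iff₀ hN0]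
  refine (f6_comp hG hp hB u i).trans (mul_le_mul_of_nonneg_left ?_ (Real.sqrt_nonneg _))
  exact Real.sqrt_le_sqrt (by linarith)

/-- `G + (p-2) m m` is bounded by `2 B` for `1 ≤ p ≤ 2` -/
theorem fl_a6_mat {B g m m' p : ℝ} (hB : 0 ≤ B) (hg : |g| ≤ B) (hm : |m| ≤ Real.sqrt B) (hm' : |m'| ≤ Real.sqrt B)
    (hp1 : 1 ≤ p) (hp2 : p ≤ 2) : |g + (p - 2) * m * m'| ≤ 2 * B := by
  have h1 : |(p - 2) * m * m'| ≤ 1 * Real.sqrt B * Real.sqrt B := by
    rw [abs_mul, abs_mul]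
    refine mul_le_mul (mul_le_mul ?_ hm (abs_nonneg _) zero_le_one) hm' (abs_nonneg _) (by positivity)
    rw [abs_le]
    constructor <;> linarith
  rw [one_mul, Real.mul_self_sqrt hB] at h1
  have := abs_add_le g ((p - 2) * m * m')
  linarith

end UMB.W

namespace UMB.FL

open Pool.Agent.Lib.PenroseSph (E3 Tens pd chr trg gradNorm)
open UMB.Lin (Ann cAnn sig)

theorem a6_aa {D : OpData} (hD : D.Ok) {v : E3 → ℝ} (hv : ContinuousOn v (cAnn D.R)) (i j : Fin 3) :
    ContinuousOn (fun x => D.aa v x i j) (Ann D.R) := by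
  have hG : ContinuousOn (fun x => D.G x i j) (Ann D.R) := (hD.G_smooth i j).continuousOn.mono fun x hx =>
    hD.a_lt.trans hx.1
  have hn : ∀ i, ContinuousOn (fun x => D.nn v x i) (Ann D.R) := fun i =>
    W.fl_a6_comp hD (u := D.qd v) (fun i => (W.sr_qd_cont hD hv i).continuousOn) i
  exact hG.add (((((hD.p_smooth.continuous.comp (W.sr_vd_cont hD hv)).continuousOn).sub continuousOn_const).mul
    (hn i)).mul (hn j))

theorem a6_aal {D : OpData} (hD : D.Ok) {v : E3 → ℝ} (hv : ContDiffOn ℝ ∞ v (Ann D.R)) (i j : Fin 3) :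
    ContinuousOn (fun x => W.aal (D.G x) (D.p (v x)) D.eps (D1 v x) i j) (Ann D.R) := by
  have hG : ContinuousOn (fun x => D.G x i j) (Ann D.R) := (hD.G_smooth i j).continuousOn.mono fun x hx =>
    hD.a_lt.trans hx.1
  have hn := fun i => W.fl_a6_comp hD (u := D1 v) (fun i => W.sr_D1_cont hv i) i
  exact hG.add ((((hD.p_smooth.continuous.comp_continuousOn hv.continuousOn).sub continuousOn_const).mul
    (hn i)).mul (hn j))

theorem a6_Hs {P : Par} (hD : P.op.Ok) {v : E3 → ℝ} (hv : ContDiffOn ℝ ∞ v (Ann P.R)) (i j : Fin 3) :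
    ContinuousOn (fun x => Hs P v x i j) (Ann P.R) := by
  have hG : ∀ m, ContinuousOn (fun x => P.op.Gam m x i j) (Ann P.R) := fun m =>
    (hD.Gam_smooth m i j).continuousOn.mono fun x hx => hD.a_lt.trans hx.1
  exact (W.sr_D2_cont hv i j).sub (continuousOn_finsetSum _ fun m _ => (hG m).mul (W.sr_D1_cont hv m))

theorem a6_Hs_bd {P : Par} {B : ℝ} {v : E3 → ℝ} {x : E3} (hB : ∀ i j l, |P.op.Gam i x j l| ≤ B) :
    fsq (Hs P v x) ≤ 2 * fsq (D2 v x) + 54 * B ^ 2 * vsq (D1 v x) := by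
  have hB0 : 0 ≤ B := (abs_nonneg _).trans (hB 0 0 0)
  have h1 : ∀ i j, Hs P v x i j ^ 2 ≤ 2 * D2 v x i j ^ 2 + 6 * B ^ 2 * vsq (D1 v x) := by
    intro i j
    have h2 : (∑ m, P.op.Gam m x i j * D1 v x m) ^ 2 ≤ (∑ m, P.op.Gam m x i j ^ 2) * ∑ m, D1 v x m ^ 2 :=
      Finset.sum_mul_sq_le_sq_mul_sq _ _ _
    have h3 : ∑ m, P.op.Gam m x i j ^ 2 ≤ 3 * B ^ 2 := by
      have h4 : ∀ m, P.op.Gam m x i j ^ 2 ≤ B ^ 2 := fun m => by
        rw [← sq_abs]
        exact pow_le_pow_left₀ (abs_nonneg _) (hB m i j) 2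
      rw [Fin.sum_univ_three]
      linarith [h4 0, h4 1, h4 2]
    have h5 : 0 ≤ vsq (D1 v x) := Finset.sum_nonneg fun _ _ => sq_nonneg _
    have h6 : (∑ m, P.op.Gam m x i j * D1 v x m) ^ 2 ≤ 3 * B ^ 2 * vsq (D1 v x) :=
      h2.trans (mul_le_mul_of_nonneg_right h3 h5)
    have h7 : Hs P v x i j = D2 v x i j - ∑ m, P.op.Gam m x i j * D1 v x m := rfl
    rw [h7]
    nlinarith [sq_nonneg (D2 v x i j + ∑ m, P.op.Gam m x i j * D1 v x m)]
  unfold fsq
  calc ∑ i, ∑ j, Hs P v x i j ^ 2 ≤ ∑ i : Fin 3, ∑ j : Fin 3, (2 * D2 v x i j ^ 2 + 6 * B ^ 2 * vsq (D1 v x)) :=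
        Finset.sum_le_sum fun i _ => Finset.sum_le_sum fun j _ => h1 i j
    _ = _ := by
        simp only [Fin.sum_univ_three]
        ring

/-- **A6** (M). The integral of the error density. The second part is `W.drift_err` (F7.lean, with `hk = HP.two`). The first part:
the proof of `W.align_err` (F6.lean) word for word, with `Hs` instead of `D2`: `|Hs_ij| ≤ |D2_ij| + 3 B |D1|`, so
`∑ |Hs_ij|² ≤ 2 fsq (D2 v) + C vsq (D1 v)`, whose integral is bounded by `W.sol_bd` (F2); use `W.f6_diff`, `W.sol_err`, `W.sr_lip`.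
(In `W.OpData.upd P.op eps d eta` the fields `G k Gam p R a` are those of `P.op`; `upd_op` is `rfl`; `P.Ok` contains `eps ≤ 1`,
`d ≤ 1`.) Integrability: bounded and measurable (`W.sr_intOn`, continuity of `aa`, `nn`, `D1 v`, `D2 v` in `Ann`:
`W.sr_qd_cont`, `W.sr_vd_cont`, `W.sr_D1_cont`, `W.sr_D2_cont`; boundedness `W.coeff_bd`, `W.sr_bdd`). -/
theorem errD_cont {P : Par} (h : HP P) {v : E3 → ℝ} (hv : W.Sol P.op v) : ContinuousOn (errD P v) (Ann P.R) := by
  have hR : P.op.R = P.R := rfl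
  have h1 := fun i j => a6_aa h.opok hv.cont i j
  have h2 := fun i j => a6_aal h.opok hv.smooth i j
  have h3 := fun i j => a6_Hs h.opok hv.smooth i j
  have hk : ∀ i j, ContinuousOn (fun x => P.op.k x i j) (Ann P.R) := fun i j =>
    (h.opok.k_smooth i j).continuousOn.mono fun x hx => h.opok.a_lt.trans hx.1
  have hn : ∀ i, ContinuousOn (fun x => P.op.nn v x i) (Ann P.R) := fun i =>
    W.fl_a6_comp h.opok (u := P.op.qd v) (fun i => (W.sr_qd_cont h.opok hv.cont i).continuousOn) i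
  have h4 : ContinuousOn (fun x => tr2 (P.op.aa v x) (P.op.k x)) (Ann P.R) := by
    unfold tr2
    exact continuousOn_finsetSum _ fun i _ => continuousOn_finsetSum _ fun j _ => (h1 i j).mul (hk i j)
  refine ContinuousOn.add (continuousOn_finsetSum _ fun i _ => continuousOn_finsetSum _ fun j _ =>
    (((h1 i j).sub (h2 i j)).abs).mul (h3 i j).abs) ?_
  exact ContinuousOn.sup continuousOn_const ((h4.mul (continuousOn_finsetSum _ fun i _ =>
    (hn i).mul (W.sr_D1_cont hv.smooth i))).neg)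

theorem errD_int {P : Par} (h : HP P) {v : E3 → ℝ} (hv : W.Sol P.op v) : IntegrableOn (errD P v) (Ann P.R) := by
  obtain ⟨B, hB, h1⟩ := W.exists_bd h.opok
  obtain ⟨M, hM, h2, h3⟩ := W.sr_bdd hv
  refine W.sr_intOn (errD_cont h hv) (M := 9 * ((2 * B + 2 * B) * (M + 3 * (B * M))) +
    9 * (2 * B * B) * (3 * (Real.sqrt B * M))) fun x hx => ?_
  have hx' : x ∈ Ann P.op.R := hx
  obtain ⟨hG, hk, hGam⟩ := h1 x (UMB.Lin.Ann_subset P.R hx)
  have hpp : ∀ z, 1 ≤ P.op.p z ∧ P.op.p z ≤ 2 := fun z => ⟨h.opok.one_lt_p0.le.trans (h.opok.p_ge _), h.opok.p_le _⟩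
  have haa : ∀ i j, |P.op.aa v x i j| ≤ 2 * B := fun i j =>
    W.fl_a6_mat hB (hG i j) (W.fl_a6_bd h.opok hx' hG (P.op.qd v x) i) (W.fl_a6_bd h.opok hx' hG (P.op.qd v x) j)
      (hpp _).1 (hpp _).2
  have hal : ∀ i j, |W.aal (P.op.G x) (P.op.p (v x)) P.eps (D1 v x) i j| ≤ 2 * B := fun i j =>
    W.fl_a6_mat hB (hG i j) (W.fl_a6_bd h.opok hx' hG (D1 v x) i) (W.fl_a6_bd h.opok hx' hG (D1 v x) j)
      (hpp _).1 (hpp _).2
  have hH : ∀ i j, |Hs P v x i j| ≤ M + 3 * (B * M) := by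
    intro i j
    have e : Hs P v x i j = D2 v x i j - ∑ m, P.op.Gam m x i j * D1 v x m := rfl
    rw [e]
    refine (abs_sub _ _).trans (add_le_add (h3 x hx i j) ?_)
    refine (Finset.abs_sum_le_sum_abs _ _).trans ?_
    have : ∀ m, |P.op.Gam m x i j * D1 v x m| ≤ B * M := fun m => by
      rw [abs_mul]
      exact mul_le_mul (hGam m i j) (h2 x hx m) (abs_nonneg _) hB
    rw [Fin.sum_univ_three]
    linarith [this 0, this 1, this 2]
  have hnn : ∀ i, |P.op.nn v x i| ≤ Real.sqrt B := fun i => W.fl_a6_bd h.opok hx' hG (P.op.qd v x) i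
  have g1 : 0 ≤ ∑ i, ∑ j, |P.op.aa v x i j - W.aal (P.op.G x) (P.op.p (v x)) P.eps (D1 v x) i j| * |Hs P v x i j| :=
    Finset.sum_nonneg fun _ _ => Finset.sum_nonneg fun _ _ => mul_nonneg (abs_nonneg _) (abs_nonneg _)
  have g2 : ∑ i, ∑ j, |P.op.aa v x i j - W.aal (P.op.G x) (P.op.p (v x)) P.eps (D1 v x) i j| * |Hs P v x i j| ≤
      9 * ((2 * B + 2 * B) * (M + 3 * (B * M))) := by
    have : ∀ i j, |P.op.aa v x i j - W.aal (P.op.G x) (P.op.p (v x)) P.eps (D1 v x) i j| * |Hs P v x i j| ≤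
        (2 * B + 2 * B) * (M + 3 * (B * M)) := fun i j =>
      mul_le_mul ((abs_sub _ _).trans (add_le_add (haa i j) (hal i j))) (hH i j) (abs_nonneg _) (by positivity)
    refine (Finset.sum_le_sum fun i _ => Finset.sum_le_sum fun j _ => this i j).trans (le_of_eq ?_)
    simp only [Finset.sum_const, Finset.card_univ, Fintype.card_fin, nsmul_eq_mul]
    push_cast
    ring
  have g3 : |tr2 (P.op.aa v x) (P.op.k x)| ≤ 9 * (2 * B * B) := by
    unfold tr2
    refine (Finset.abs_sum_le_sum_abs _ _).trans ((Finset.sum_le_sum fun i _ => Finset.abs_sum_le_sum_abs _ _).trans ?_)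
    have : ∀ i j, |P.op.aa v x i j * P.op.k x i j| ≤ 2 * B * B := fun i j => by
      rw [abs_mul]
      exact mul_le_mul (haa i j) (hk i j) (abs_nonneg _) (by positivity)
    refine (Finset.sum_le_sum fun i _ => Finset.sum_le_sum fun j _ => this i j).trans (le_of_eq ?_)
    simp only [Finset.sum_const, Finset.card_univ, Fintype.card_fin, nsmul_eq_mul]
    push_cast
    ring
  have g4 : |∑ i, P.op.nn v x i * D1 v x i| ≤ 3 * (Real.sqrt B * M) := by
    refine (Finset.abs_sum_le_sum_abs _ _).trans ?_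
    have : ∀ i, |P.op.nn v x i * D1 v x i| ≤ Real.sqrt B * M := fun i => by
      rw [abs_mul]
      exact mul_le_mul (hnn i) (h2 x hx i) (abs_nonneg _) (Real.sqrt_nonneg _)
    rw [Fin.sum_univ_three]
    linarith [this 0, this 1, this 2]
  have g5 : |tr2 (P.op.aa v x) (P.op.k x) * ∑ i, P.op.nn v x i * D1 v x i| ≤
      9 * (2 * B * B) * (3 * (Real.sqrt B * M)) := by
    rw [abs_mul]
    exact mul_le_mul g3 g4 (abs_nonneg _) (by positivity)
  have g6 : 0 ≤ 9 * (2 * B * B) * (3 * (Real.sqrt B * M)) := by positivity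
  unfold errD
  rw [abs_of_nonneg (add_nonneg g1 (le_max_left _ _))]
  exact add_le_add g2 (max_le g6 ((neg_le_abs _).trans g5))

theorem err_int {P : Par} (h : HP P) : ∃ C : ℝ, 0 ≤ C ∧ ∀ (eps d : ℝ) (eta : E3 → ℝ), HP (upd P eps d eta) →
    ∀ v : E3 → ℝ, W.Sol (upd P eps d eta).op v →
      ∫ x in Ann P.R, errD (upd P eps d eta) v x ≤ C * (eps⁻¹ * d ^ (1 / 2 : ℝ)) := by
  obtain ⟨B, hB, h1⟩ := W.exists_bd h.opok
  obtain ⟨C2, hC2, h2⟩ := W.sol_bd h.opok
  obtain ⟨C3, hC3, h3⟩ := W.fl_a6_gen h.opok (C2 := (2 + 54 * B ^ 2) * C2) (by positivity)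
  obtain ⟨C4, hC4, h4⟩ := W.drift_err h.opok h.two
  refine ⟨C3 + C4, by positivity, fun eps d eta hU v hv => ?_⟩
  have hUok : (W.OpData.upd P.op eps d eta).Ok := hU.opok
  have hd1 : d ≤ 1 := hU.ok.d_le
  have heps1 : eps ≤ 1 := hU.ok.eps_le
  have heps0 : 0 < eps := hU.ok.eps_pos
  have hd0 : 0 < d := hU.ok.d_pos
  have hv' : W.Sol (W.OpData.upd P.op eps d eta) v := hv
  have i1 : IntegrableOn (fun x => fsq (D2 v x)) (Ann P.R) := W.sr_int_fsq (D := W.OpData.upd P.op eps d eta) hv'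
  have i2 : IntegrableOn (fun x => vsq (D1 v x)) (Ann P.R) := W.sr_int_vsq (D := W.OpData.upd P.op eps d eta) hv'
  have i3 : IntegrableOn (fun x => vsq (D1 v x) ^ 2) (Ann P.R) :=
    W.sr_int_vsq2 (D := W.OpData.upd P.op eps d eta) hv'
  have hS := h2 eps d eta hUok v hv'
  have i4 : IntegrableOn (fun x => fsq (Hs P v x)) (Ann P.R) := by
    refine Integrable.mono' ((i1.const_mul 2).add (i2.const_mul (54 * B ^ 2))) ?_ ?_
    · have : ContinuousOn (fun x => fsq (Hs P v x)) (Ann P.R) := by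
        unfold fsq
        exact continuousOn_finsetSum _ fun i _ => continuousOn_finsetSum _ fun j _ =>
          (a6_Hs h.opok hv'.smooth i j).pow 2
      exact this.aestronglyMeasurable (UMB.Lin.measurableSet_Ann P.R)
    · filter_upwards [ae_restrict_mem (UMB.Lin.measurableSet_Ann P.R)] with x hx
      rw [Real.norm_eq_abs, abs_of_nonneg (Finset.sum_nonneg fun _ _ => Finset.sum_nonneg fun _ _ => sq_nonneg _)]
      exact a6_Hs_bd (h1 x (UMB.Lin.Ann_subset P.R hx)).2.2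
  have i5 : ∫ x in Ann P.R, fsq (Hs P v x) ≤ (2 + 54 * B ^ 2) * C2 := by
    have e1 : ∫ x in Ann P.R, fsq (Hs P v x) ≤
        ∫ x in Ann P.R, (2 + 54 * B ^ 2) * (fsq (D2 v x) + vsq (D1 v x) + vsq (D1 v x) ^ 2) := by
      refine integral_mono_ae i4 (((i1.add i2).add i3).const_mul _) ?_
      filter_upwards [ae_restrict_mem (UMB.Lin.measurableSet_Ann P.R)] with x hx
      have e2 := a6_Hs_bd (P := P) (v := v) (h1 x (UMB.Lin.Ann_subset P.R hx)).2.2
      have e3 : 0 ≤ fsq (D2 v x) := Finset.sum_nonneg fun _ _ => Finset.sum_nonneg fun _ _ => sq_nonneg _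
      have e4 : 0 ≤ vsq (D1 v x) := Finset.sum_nonneg fun _ _ => sq_nonneg _
      have e5 : 0 ≤ vsq (D1 v x) ^ 2 := sq_nonneg _
      have e6 : 0 ≤ B ^ 2 := sq_nonneg _
      refine e2.trans ?_
      nlinarith [mul_nonneg e6 e3, mul_nonneg e6 e5]
    rw [integral_const_mul] at e1
    exact e1.trans (mul_le_mul_of_nonneg_left hS (by positivity))
  have j1 := h3 eps d eta hUok hd1 heps1 v hv' (Hs P v) i4 i5
  have j2 := h4 eps d eta hUok hd1 v hv'
  have k1 : IntegrableOn (fun x => ∑ i, ∑ j, |(W.OpData.upd P.op eps d eta).aa v x i j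
      - W.aal (P.op.G x) (P.op.p (v x)) eps (D1 v x) i j| * |Hs P v x i j|) (Ann P.R) := by
    refine Integrable.mono' (errD_int hU hv) ?_ ?_
    · have : ContinuousOn (fun x => ∑ i, ∑ j, |(W.OpData.upd P.op eps d eta).aa v x i j
          - W.aal (P.op.G x) (P.op.p (v x)) eps (D1 v x) i j| * |Hs P v x i j|) (Ann P.R) :=
        continuousOn_finsetSum _ fun i _ => continuousOn_finsetSum _ fun j _ =>
          (((a6_aa hUok hv'.cont i j).sub (a6_aal hUok hv'.smooth i j)).abs).mul (a6_Hs h.opok hv'.smooth i j).abs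
      exact this.aestronglyMeasurable (UMB.Lin.measurableSet_Ann P.R)
    · refine Eventually.of_forall fun x => ?_
      rw [Real.norm_eq_abs, abs_of_nonneg (Finset.sum_nonneg fun _ _ => Finset.sum_nonneg fun _ _ =>
        mul_nonneg (abs_nonneg _) (abs_nonneg _))]
      exact le_add_of_nonneg_right (le_max_left _ _)
  have k2 : IntegrableOn (fun x => max 0 (- (tr2 ((W.OpData.upd P.op eps d eta).aa v x) (P.op.k x)
      * ∑ i, (W.OpData.upd P.op eps d eta).nn v x i * D1 v x i))) (Ann P.R) := by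
    refine (((errD_int hU hv).sub k1)).congr (Eventually.of_forall fun x => ?_)
    show errD (upd P eps d eta) v x - _ = _
    unfold errD
    exact add_sub_cancel_left _ _
  have l1 : ∫ x in Ann P.R, errD (upd P eps d eta) v x =
      (∫ x in Ann P.R, ∑ i, ∑ j, |(W.OpData.upd P.op eps d eta).aa v x i j
        - W.aal (P.op.G x) (P.op.p (v x)) eps (D1 v x) i j| * |Hs P v x i j|) +
      ∫ x in Ann P.R, max 0 (- (tr2 ((W.OpData.upd P.op eps d eta).aa v x) (P.op.k x)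
        * ∑ i, (W.OpData.upd P.op eps d eta).nn v x i * D1 v x i)) := by
    rw [← integral_add k1 k2]
    rfl
  have l2 : 0 ≤ d ^ (1 / 2 : ℝ) := Real.rpow_nonneg hd0.le _
  have l3 : (1 : ℝ) ≤ eps⁻¹ := (one_le_inv₀ heps0).2 heps1
  rw [l1]
  have l4 : C4 * d ^ (1 / 2 : ℝ) ≤ C4 * (eps⁻¹ * d ^ (1 / 2 : ℝ)) :=
    mul_le_mul_of_nonneg_left (le_mul_of_one_le_left l2 l3) hC4
  have l5 : C3 * eps⁻¹ * d ^ (1 / 2 : ℝ) = C3 * (eps⁻¹ * d ^ (1 / 2 : ℝ)) := by ring
  have l6 : (∫ x in Ann P.R, ∑ i, ∑ j, |(W.OpData.upd P.op eps d eta).aa v x i j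
        - W.aal (P.op.G x) (P.op.p (v x)) eps (D1 v x) i j| * |Hs P v x i j|) ≤ C3 * eps⁻¹ * d ^ (1 / 2 : ℝ) := j1
  have l7 : ∫ x in Ann P.R, max 0 (- (tr2 ((W.OpData.upd P.op eps d eta).aa v x) (P.op.k x)
        * ∑ i, (W.OpData.upd P.op eps d eta).nn v x i * D1 v x i)) ≤ C4 * d ^ (1 / 2 : ℝ) := j2
  rw [add_mul]
  linarith

end UMB.FL
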