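import Pool.Agent.Lib.UMB.FL.A3
import Pool.Agent.Lib.UMB.W.E0

/-! # UMB.FL, chunk A7 -/

set_option autoImplicit false

open Filter Topology Set MeasureTheory
open scoped ContDiff

namespace UMB.FL

open Pool.Agent.Lib.PenroseSph (E3 Tens pd chr trg gradNorm)
open UMB.Lin (Ann cAnn sig)

/-- **A7** (M). Bound of the coefficient: `0 ≤ F ≤ 1/κ0` (`W.FF_bd`, `κ0 ≤ κ`), `κ0 ≤ w ≤ 1 + 2/q` for `0 ≤ z ≤ 1` (A2, `κ ≤ v1 ≤ 1`),
`R e^{-1/κ0} ≤ C ≤ R` (`C = R e^{-F(0)}`), `b ∈ [0,1]`: `E1 ≤ |log C| + F + |log w|` is bounded; `gvh ≥ eps`, `0 < eps ≤ 1`,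
`-1 ≤ b - 1 ≤ 0`: `(b-1) log gvh ≤ - log eps`, so `exp ((b-1) log gvh) ≤ eps⁻¹`; `vol P.gh` is continuous on the compact `cAnn`
(`HP.met`, `cAnn_sub_UU`). The metric `gh` and all other data do not depend on `eps, d, eta`. -/
theorem SC_bd {P : Par} (h : HP P) {κ0 : ℝ} (hκ0 : 0 < κ0) : ∃ C : ℝ, 0 ≤ C ∧ ∀ (eps d : ℝ) (eta : E3 → ℝ),
    HP (upd P eps d eta) → ∀ v : E3 → ℝ, HV (upd P eps d eta) κ0 v → ∀ x ∈ Ann P.R,
      vol P.gh x * SC (upd P eps d eta) v x ≤ C * eps⁻¹ := by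
  have hvc : ContinuousOn (vol P.gh) (cAnn P.R) := h.met.vol_smooth.continuousOn.mono (cAnn_sub_UU h.opok)
  obtain ⟨V, hV⟩ := (UMB.Lin.isCompact_cAnn P.R).exists_bound_of_continuousOn hvc
  obtain ⟨K, hK⟩ : ∃ K : ℝ, K = |Real.log P.R| + κ0⁻¹ + |Real.log κ0| := ⟨_, rfl⟩
  have hκi : 0 < κ0⁻¹ := inv_pos.2 hκ0
  have hK0 : 0 ≤ K := by
    rw [hK]
    positivity
  refine ⟨|V| * Real.exp K, by positivity, fun eps d eta hU v hv x hx => ?_⟩
  have heps0 : 0 < eps := hU.ok.eps_pos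
  have heps1 : eps ≤ 1 := hU.ok.eps_le
  have hxc := UMB.Lin.Ann_subset P.R hx
  have hv0 : 0 ≤ v x := hv.sol.nonneg x hxc
  have hv1 : v x ≤ 1 := hv.sol.le_one x hxc
  have hκ : 0 < (upd P eps d eta).kap v := hv.kap_pos
  have hκge : κ0 ≤ (upd P eps d eta).kap v := hv.kap_ge
  have hex := expo hU.ok
  have hFb : ∀ z : ℝ, 0 ≤ z → z ≤ 1 → 0 ≤ (upd P eps d eta).F v z ∧ (upd P eps d eta).F v z ≤ κ0⁻¹ := by
    intro z h0 h1
    have := W.FF_bd hex hκ h0 h1
    exact ⟨this.1, this.2.trans (inv_anti₀ hκ0 hκge)⟩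
  obtain ⟨hF0, hF1⟩ := hFb (v x) hv0 hv1
  obtain ⟨hT0, -⟩ := hFb 0 le_rfl zero_le_one
  have hR : 0 < P.R := by
    have h1 := h.ok.r1_ge
    have h2 := h.ok.R1_ge
    have h3 := h.ok.R_ge
    linarith
  have hCC : Real.log ((upd P eps d eta).CC v) = Real.log P.R - (upd P eps d eta).F v 0 := by
    have e : (upd P eps d eta).CC v = P.R * Real.exp (-(upd P eps d eta).F v 0) := rfl
    rw [e, Real.log_mul hR.ne' (Real.exp_pos _).ne', Real.log_exp]
    ring
  have hw : κ0 ≤ (upd P eps d eta).ww v (v x) := by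
    have := ww_ge hU.ok (v := v) hv0
    linarith
  have hlw : Real.log κ0 ≤ Real.log ((upd P eps d eta).ww v (v x)) := Real.log_le_log hκ0 hw
  obtain ⟨hb0, hb1⟩ := b_mem hU.ok (v x)
  have hq0 := hU.ok.q_pos
  have hb0' : 0 ≤ (upd P eps d eta).b (v x) := by linarith
  have hX : Real.log ((upd P eps d eta).CC v) + (upd P eps d eta).F v (v x)
      - Real.log ((upd P eps d eta).ww v (v x)) ≤ K := by
    rw [hCC, hK]
    have e1 := le_abs_self (Real.log P.R)
    have e2 := neg_abs_le (Real.log κ0)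
    linarith
  have hE1 : E1 (upd P eps d eta) v (v x) ≤ K := by
    unfold E1
    set X := Real.log ((upd P eps d eta).CC v) + (upd P eps d eta).F v (v x)
      - Real.log ((upd P eps d eta).ww v (v x))
    have : (upd P eps d eta).b (v x) * X ≤ K := by
      rcases le_total X 0 with h0 | h0
      · exact (mul_nonpos_of_nonneg_of_nonpos hb0' h0).trans hK0
      · exact (mul_le_of_le_one_left h0 hb1).trans hX
    linarith
  obtain ⟨hg1, hg2, -⟩ := gvh_pos hU (v := v) hx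
  have hle : Real.log eps ≤ Real.log (gvh (upd P eps d eta) v x) := Real.log_le_log heps0 hg1
  have hle0 : Real.log eps ≤ 0 := Real.log_nonpos heps0.le heps1
  have hE2 : ((upd P eps d eta).b (v x) - 1) * Real.log (gvh (upd P eps d eta) v x) ≤ - Real.log eps := by
    set Y := Real.log (gvh (upd P eps d eta) v x)
    rcases le_total Y 0 with h0 | h0
    · nlinarith
    · nlinarith
  have hSC : SC (upd P eps d eta) v x ≤ Real.exp K * eps⁻¹ := by
    have e1 : Real.exp K * eps⁻¹ = Real.exp (K + - Real.log eps) := by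
      rw [Real.exp_add K, Real.exp_neg (Real.log eps), Real.exp_log heps0]
    rw [e1]
    exact Real.exp_le_exp.2 (add_le_add hE1 hE2)
  have hV' : vol P.gh x ≤ |V| := (le_abs_self _).trans ((hV x hxc).trans (le_abs_self V))
  calc vol P.gh x * SC (upd P eps d eta) v x ≤ |V| * (Real.exp K * eps⁻¹) :=
        mul_le_mul hV' hSC (Real.exp_pos _).le (abs_nonneg _)
    _ = _ := by ring

end UMB.FL
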