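import Pool.Agent.Lib.UMB.FL.A3

/-! # UMB.FL, chunk A8 -/

set_option autoImplicit false

open Filter Topology Set MeasureTheory
open scoped ContDiff

namespace UMB.FL

open Pool.Agent.Lib.PenroseSph (E3 Tens pd chr trg gradNorm)
open UMB.Lin (Ann cAnn sig)

/-- **A8a** (S). Where `P.gh x = P.g x`: `gvh = gv`, `LL = log (C s)`, `SC = e^{-2θ} (C s)^b / gv`
(`log (C s) = log C + θ - log w + log gv`, all factors positive). -/
theorem near_eq {P : Par} (h : HP P) {κ0 : ℝ} {v : E3 → ℝ} (hv : HV P κ0 v) {x : E3} (hx : x ∈ Ann P.R)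
    (hg : P.gh x = P.g x) : 0 < P.s v x ∧ gvh P v x = P.gv v x ∧ LL P v x = Real.log (P.CC v * P.s v x) ∧
      SC P v x = Real.exp (-2 * P.th v x) * (P.CC v * P.s v x) ^ P.b (v x) / P.gv v x := by
  have hC : 0 < P.CC v := CC_pos h.ok v
  have hw : 0 < P.ww v (v x) := a3_map h hv hx
  have hgs : gsq P.gh v x = gsq P.g v x := by
    unfold gsq gradU
    rw [hg]
  have hgv : gvh P v x = P.gv v x := by
    unfold gvh Par.gv
    rw [hgs]
  have hgp : 0 < P.gv v x := by
    rw [← hgv]
    exact (gvh_pos h hx).2.1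
  have hs : 0 < P.s v x := by
    unfold Par.s
    positivity
  have hlog : Real.log (P.CC v * P.s v x) = Real.log (P.CC v) + P.th v x - Real.log (P.ww v (v x))
      + Real.log (P.gv v x) := by
    unfold Par.s
    rw [Real.log_mul hC.ne' (by positivity), Real.log_mul (by positivity) hgp.ne',
      Real.log_div (Real.exp_pos _).ne' hw.ne', Real.log_exp]
    ring
  have hF : P.F v (v x) = P.th v x := rfl
  refine ⟨hs, hgv, ?_, ?_⟩
  · unfold LL
    rw [hlog, hgv, hF]
  · unfold SC EE E1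
    rw [Real.rpow_def_of_pos (by positivity), hlog, hgv, hF]
    rw [div_eq_mul_inv, ← Real.exp_log (inv_pos.2 hgp), Real.log_inv, ← Real.exp_add, ← Real.exp_add]
    congr 1
    ring

/-- **A8b** (S). `gh = g` for `|x| ≤ 3R1/2`. -/
theorem gh_near {P : Par} (h : P.Ok) {x : E3} (hx : ‖x‖ ≤ 3 * P.R1 / 2) : P.gh x = P.g x := by
  have h1 := h.r1_ge
  have h2 := h.R1_ge
  have h3 : 0 < P.R1 := by linarith
  have h4 : P.chi ‖x‖ = 1 := by
    unfold Par.chi
    apply Real.smoothTransition.one_of_one_le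
    have h5 : ‖x‖ / P.R1 ≤ 3 / 2 := by
      rw [div_le_iff₀ h3]
      linarith
    linarith
  unfold Par.gh
  rw [h4, one_smul, sub_self, zero_smul, add_zero]

/-- **A8c** (M). The transition term. If `v x < v1` or `v x > 2 v1` then `deriv b = 0` (`db_zero`). If `v x = v1`
then `deriv b (v1) = 0` too (`b ≤ 1 = b (v1)`: local maximum). If `v1 < v x ≤ 2 v1` then `|x| < R1/2` by `HV.far`, so `gh x = g x` (`gh_near`); `gsq ≤ gv²`, `gv = s w e^{-θ}`:
`SC |b'| |LL| gsq ≤ e^{-2θ} (C s)^b gv |b'| |log (C s)| = C⁻¹ e^{-3θ} (C s)^{b+1} |log (C s)| w |b'|`, and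
`w |b'| ≤ (κ + (2/q) 2 v1) M/v1 ≤ (1 + 4/q) M` (`ww_le`, `db_bd`, `κ ≤ v1`). -/
theorem trans_bd {q : ℝ} (hq : 0 < q) : ∃ Cq : ℝ, 0 ≤ Cq ∧ ∀ (P : Par) (κ0 : ℝ) (v : E3 → ℝ), P.q = q → HP P → HV P κ0 v →
    ∀ x ∈ Ann P.R, vol P.gh x * SC P v x * (|deriv P.b (v x)| * |LL P v x| * gsq P.gh v x) ≤
      Cq / P.CC v * (shell P v).indicator (ed P v) x := by
  obtain ⟨M, hM, hdb⟩ := db_bd
  refine ⟨(1 + 4 / q) * M, by positivity, fun P κ0 v hPq h hv x hx => ?_⟩
  have hC : 0 < P.CC v := CC_pos h.ok v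
  have hw : 0 < P.ww v (v x) := a3_map h hv hx
  have hxc : x ∈ cAnn P.R := ⟨hx.1.le, hx.2.le⟩
  have hgvp : 0 ≤ P.gv v x := Real.sqrt_nonneg _
  have hs0 : 0 ≤ P.s v x := by
    unfold Par.s
    positivity
  have hvol : 0 ≤ vol P.g x := Real.sqrt_nonneg _
  have hed : 0 ≤ ed P v x := by
    unfold ed
    have : 0 ≤ (P.CC v * P.s v x) ^ (P.b (v x) + 1) := Real.rpow_nonneg (by positivity) _
    positivity
  by_cases hd : deriv P.b (v x) = 0
  · rw [hd]
    simp only [abs_zero, zero_mul, mul_zero]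
    apply mul_nonneg (by positivity)
    exact Set.indicator_apply_nonneg fun _ => hed
  · have h1 : ¬ (v x < P.v1 ∨ 2 * P.v1 < v x) := fun hc => hd (db_zero h.ok hc)
    rw [not_or] at h1
    have hlo : P.v1 ≤ v x := not_lt.1 h1.1
    have hhi : v x ≤ 2 * P.v1 := not_lt.1 h1.2
    have hsh : x ∈ shell P v := ⟨hlo, hhi⟩
    have hne : v x ≠ P.v1 := by
      intro hc
      apply hd
      have h2 : IsLocalMax P.b (v x) := by
        refine Eventually.of_forall fun z => ?_
        show P.b z ≤ P.b (v x)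
        rw [hc, b_eq_one h.ok le_rfl]
        exact (b_mem h.ok z).2
      exact h2.deriv_eq_zero
    have hR : ‖x‖ < P.R1 / 2 := by
      by_contra hc
      exact hne (le_antisymm (hv.far x hxc (not_lt.1 hc)) hlo)
    have hR1 : 0 < P.R1 := by
      have h1 := h.ok.r1_ge
      have h2 := h.ok.R1_ge
      linarith
    have hg : P.gh x = P.g x := gh_near h.ok (by linarith)
    obtain ⟨hs, hgv, hLL, hSC⟩ := near_eq h hv hx hg
    have hgp : 0 < P.gv v x := by
      rw [← hgv]
      exact (gvh_pos h hx).2.1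
    have hgs : gsq P.gh v x ≤ P.gv v x ^ 2 := by
      have h3 := (gvh_pos h (v := v) hx).2.2
      rw [hgv] at h3
      have h4 := sq_nonneg P.eps
      linarith
    have hvg : vol P.gh x = vol P.g x := by
      unfold vol
      rw [hg]
    rw [Set.indicator_of_mem hsh, hvg, hSC, hLL]
    have hCs : 0 < P.CC v * P.s v x := by positivity
    have hpw : (P.CC v * P.s v x) ^ (P.b (v x) + 1) = (P.CC v * P.s v x) ^ P.b (v x) * (P.CC v * P.s v x) := by
      rw [Real.rpow_add hCs, Real.rpow_one]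
    have hsg : P.gv v x = P.s v x * P.ww v (v x) * Real.exp (-P.th v x) := by
      unfold Par.s
      rw [Real.exp_neg]
      field_simp
    have hwb : P.ww v (v x) * |deriv P.b (v x)| ≤ (1 + 4 / q) * M := by
      have h3 := ww_le h.ok (v := v) (hv.sol.nonneg x hxc)
      have h4 := hdb P h.ok (v x)
      have h5 : P.ww v (v x) ≤ (1 + 4 / q) * P.v1 := by
        refine h3.trans ?_
        rw [hPq]
        have h6 : 2 / q * v x ≤ 2 / q * (2 * P.v1) := mul_le_mul_of_nonneg_left hhi (by positivity)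
        have h7 := hv.kap_le
        have h8 : 2 / q * (2 * P.v1) = 4 / q * P.v1 := by ring
        linarith
      have hv1 := v1_pos h.ok
      calc P.ww v (v x) * |deriv P.b (v x)| ≤ ((1 + 4 / q) * P.v1) * (M / P.v1) :=
            mul_le_mul h5 h4 (abs_nonneg _) (by positivity)
        _ = (1 + 4 / q) * M := by field_simp
    have hX : 0 ≤ (P.CC v * P.s v x) ^ P.b (v x) := Real.rpow_nonneg hCs.le _
    calc vol P.g x * (Real.exp (-2 * P.th v x) * (P.CC v * P.s v x) ^ P.b (v x) / P.gv v x) *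
          (|deriv P.b (v x)| * |Real.log (P.CC v * P.s v x)| * gsq P.gh v x)
        ≤ vol P.g x * (Real.exp (-2 * P.th v x) * (P.CC v * P.s v x) ^ P.b (v x) / P.gv v x) *
          (|deriv P.b (v x)| * |Real.log (P.CC v * P.s v x)| * P.gv v x ^ 2) := by
          apply mul_le_mul_of_nonneg_left _ (by positivity)
          exact mul_le_mul_of_nonneg_left hgs (by positivity)
      _ = vol P.g x * Real.exp (-2 * P.th v x) * (P.CC v * P.s v x) ^ P.b (v x) * |Real.log (P.CC v * P.s v x)| *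
          |deriv P.b (v x)| * P.gv v x := by
          field_simp
      _ = (P.ww v (v x) * |deriv P.b (v x)|) * (vol P.g x * (Real.exp (-2 * P.th v x) * Real.exp (-P.th v x)) *
          (P.CC v * P.s v x) ^ P.b (v x) * |Real.log (P.CC v * P.s v x)| * P.s v x) := by
          rw [hsg]
          ring
      _ ≤ ((1 + 4 / q) * M) * (vol P.g x * (Real.exp (-2 * P.th v x) * Real.exp (-P.th v x)) *
          (P.CC v * P.s v x) ^ P.b (v x) * |Real.log (P.CC v * P.s v x)| * P.s v x) := by
          apply mul_le_mul_of_nonneg_right hwb (by positivity)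
      _ = (1 + 4 / q) * M / P.CC v * ed P v x := by
          unfold ed
          rw [hpw, ← Real.exp_add, show -2 * P.th v x + -P.th v x = -3 * P.th v x by ring]
          field_simp

end UMB.FL
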