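import Pool.Agent.Lib.UMB.Lin.G5d

/-! # UMB.FL, chunk A9 -/

set_option autoImplicit false

open Filter Topology Set MeasureTheory
open scoped ContDiff

namespace UMB.FL

open Pool.Agent.Lib.PenroseSph (E3 Tens pd chr trg gradNorm)
open UMB.Lin (Ann cAnn sig)

theorem a9_cont {U : Set E3} (hU : IsOpen U) {f : E3 → ℝ} (hf : ContDiffOn ℝ 1 f U) (a : Fin 3) :
    ContinuousOn (pd a f) U :=
  (hf.continuousOn_fderiv_of_isOpen hU le_rfl).clm_apply continuousOn_const

theorem a9_int {U K : Set E3} (hK : IsCompact K) (hKU : K ⊆ U) (hU : MeasurableSet U) {g : E3 → ℝ} (hg : ContinuousOn g U)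
    (h0 : ∀ x ∈ U, x ∉ K → g x = 0) : IntegrableOn g U := by
  have h1 : IntegrableOn g K := (hg.mono hKU).integrableOn_compact hK
  have h2 : IntegrableOn g (U \ K) := by
    have h4 : IntegrableOn (fun _ : E3 => (0 : ℝ)) (U \ K) := integrableOn_zero
    exact h4.congr_fun (fun x hx => (h0 x hx.1 hx.2).symm) (hU.diff hK.measurableSet)
  have h3 : U = K ∪ (U \ K) := (union_sdiff_cancel hKU).symm
  rw [h3]
  exact h1.union h2

/-- **A9** (M). Integration by parts with compact support in the open annulus: the function `f X_a`, extended by zero, is `C¹`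
on `E3` (it is zero on the open complement of `K`), zero on both spheres; `UMB.Lin.int_pd` gives `∫ pd a (f X_a) = 0`; product
rule in `Ann`. Both integrands are continuous on `Ann` and zero outside the compact `K ⊆ Ann`. -/
theorem int_test {R : ℝ} (hR : 1 < R) {f : E3 → ℝ} {X : Fin 3 → E3 → ℝ} {K : Set E3} (hK : IsCompact K) (hKA : K ⊆ Ann R)
    (hf : ContDiffOn ℝ 1 f (Ann R)) (hX : ∀ a, ContDiffOn ℝ 1 (X a) (Ann R)) (h0 : ∀ x ∈ Ann R, x ∉ K → f x = 0) :
    IntegrableOn (fun x => ∑ a, pd a f x * X a x) (Ann R) ∧ IntegrableOn (fun x => f x * ∑ a, pd a (X a) x) (Ann R) ∧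
      ∫ x in Ann R, (∑ a, pd a f x * X a x) = - ∫ x in Ann R, f x * ∑ a, pd a (X a) x := by
  have hO : IsOpen (Ann R) := UMB.Lin.isOpen_Ann R
  have hM : MeasurableSet (Ann R) := UMB.Lin.measurableSet_Ann R
  have hpf0 : ∀ a, ∀ x ∈ Ann R, x ∉ K → pd a f x = 0 := by
    intro a x hx hxK
    have h1 : f =ᶠ[𝓝 x] fun _ => (0 : ℝ) := by
      filter_upwards [hO.mem_nhds hx, hK.isClosed.isOpen_compl.mem_nhds hxK] with y hy hyK
      exact h0 y hy hyK
    show fderiv ℝ f x _ = 0
    rw [h1.fderiv_eq]
    simp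
  have hI1 : ∀ a, IntegrableOn (fun x => pd a f x * X a x) (Ann R) := fun a =>
    a9_int hK hKA hM ((a9_cont hO hf a).mul (hX a).continuousOn) fun x hx hxK => by
      show pd a f x * X a x = 0
      rw [hpf0 a x hx hxK, zero_mul]
  have hI2 : ∀ a, IntegrableOn (fun x => f x * pd a (X a) x) (Ann R) := fun a =>
    a9_int hK hKA hM (hf.continuousOn.mul (a9_cont hO (hX a) a)) fun x hx hxK => by
      show f x * pd a (X a) x = 0
      rw [h0 x hx hxK, zero_mul]
  have hkey : ∀ a, ∫ x in Ann R, (pd a f x * X a x + f x * pd a (X a) x) = 0 := by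
    intro a
    set F : E3 → ℝ := (Ann R).indicator (fun x => f x * X a x) with hF
    have hF0 : ∀ x, x ∉ Ann R → F x = 0 := fun x hx => indicator_of_notMem hx _
    have hF1 : ∀ x ∈ Ann R, F x = f x * X a x := fun x hx => indicator_of_mem hx _
    have hFC : ContDiff ℝ 1 F := by
      rw [contDiff_iff_contDiffAt]
      intro x
      by_cases hx : x ∈ Ann R
      · have h1 : F =ᶠ[𝓝 x] fun y => f y * X a y := by
          filter_upwards [hO.mem_nhds hx] with y hy
          exact hF1 y hy
        exact ((hf.mul (hX a)).contDiffAt (hO.mem_nhds hx)).congr_of_eventuallyEq h1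
      · have hxK : x ∉ K := fun h => hx (hKA h)
        have h1 : F =ᶠ[𝓝 x] fun _ => (0 : ℝ) := by
          filter_upwards [hK.isClosed.isOpen_compl.mem_nhds hxK] with y hyK
          by_cases hy : y ∈ Ann R
          · rw [hF1 y hy, h0 y hy hyK, zero_mul]
          · exact hF0 y hy
        exact contDiffAt_const.congr_of_eventuallyEq h1
    have h2 := UMB.Lin.int_pd hR a hFC
    have hn1 : ∀ n : Metric.sphere (0 : E3) 1, ‖(n : E3)‖ = 1 := fun n => by
      have := n.2
      rwa [mem_sphere_zero_iff_norm] at this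
    have h3 : ∀ n : Metric.sphere (0 : E3) 1, F (R • (n : E3)) = 0 := fun n => hF0 _ fun h => by
      have h4 := h.2
      rw [norm_smul, hn1, mul_one, Real.norm_eq_abs, abs_of_pos (by linarith)] at h4
      exact lt_irrefl _ h4
    have h4 : ∀ n : Metric.sphere (0 : E3) 1, F (n : E3) = 0 := fun n => hF0 _ fun h => by
      have h4 := h.1
      rw [hn1] at h4
      exact lt_irrefl _ h4
    simp only [h3, h4, zero_mul, integral_zero, mul_zero, sub_zero] at h2
    rw [← h2]
    refine setIntegral_congr_fun hM fun x hx => ?_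
    have h1 : F =ᶠ[𝓝 x] fun y => f y * X a y := by
      filter_upwards [hO.mem_nhds hx] with y hy
      exact hF1 y hy
    have hdf : DifferentiableAt ℝ f x := (hf.contDiffAt (hO.mem_nhds hx)).differentiableAt (by norm_num)
    have hdX : DifferentiableAt ℝ (X a) x := ((hX a).contDiffAt (hO.mem_nhds hx)).differentiableAt (by norm_num)
    have h5 : pd a F x = pd a (fun y => f y * X a y) x := by
      show fderiv ℝ F x _ = fderiv ℝ _ x _
      rw [h1.fderiv_eq]
    show _ = pd a F x
    rw [h5]
    show _ = fderiv ℝ (fun y => f y * X a y) x _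
    rw [fderiv_fun_mul hdf hdX]
    show pd a f x * X a x + f x * pd a (X a) x = f x * pd a (X a) x + X a x * pd a f x
    ring
  refine ⟨?_, ?_, ?_⟩
  · exact integrable_finsetSum _ fun a _ => hI1 a
  · simp only [Finset.mul_sum]
    exact integrable_finsetSum _ fun a _ => hI2 a
  · simp only [Finset.mul_sum]
    rw [integral_finsetSum _ fun a _ => hI1 a, integral_finsetSum _ fun a _ => hI2 a, ← Finset.sum_neg_distrib]
    refine Finset.sum_congr rfl fun a _ => ?_
    have h1 := hkey a
    rw [integral_add (hI1 a) (hI2 a)] at h1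
    linarith

end UMB.FL
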