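import Pool.Agent.Lib.UMB.FL.Defs

/-! # UMB.FL, chunk B1 -/

set_option autoImplicit false

open Filter Topology Set MeasureTheory
open scoped ContDiff

namespace UMB.FL

open Pool.Agent.Lib.PenroseSph (E3 Tens pd chr trg gradNorm)
open UMB.Lin (Ann cAnn sig)

/-- Admissible test functions: `rh` smooth, `≥ 0`, zero for `t ≤ s0` and for `t ≥ T'`. -/
structure Tst (rh : ℝ → ℝ) (s0 T' : ℝ) : Prop where
  smooth : ContDiff ℝ ∞ rh
  nonneg : ∀ t, 0 ≤ rh t
  s0_pos : 0 < s0
  s0_le : s0 ≤ T'
  low : ∀ t, t ≤ s0 → rh t = 0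
  high : ∀ t, T' ≤ t → rh t = 0

/-- The antiderivative. -/
noncomputable def eta (rh : ℝ → ℝ) (t : ℝ) : ℝ := ∫ u in (0 : ℝ)..t, rh u

/-- **B1a** (S/M). Properties of `η(t) = ∫_0^t rh` (`contDiff_infty_iff_deriv`, FTC). -/
theorem eta_props {rh : ℝ → ℝ} {s0 T' : ℝ} (h : Tst rh s0 T') : ContDiff ℝ ∞ (eta rh) ∧ (∀ t, HasDerivAt (eta rh) (rh t) t) ∧
    (∀ t, t ≤ s0 → eta rh t = 0) ∧ (∀ t, T' ≤ t → eta rh t = eta rh T') ∧ ∀ t, 0 ≤ eta rh t ∧ eta rh t ≤ eta rh T' := by
  have hc : Continuous rh := h.smooth.continuous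
  have hd : ∀ t, HasDerivAt (eta rh) (rh t) t := fun t =>
    intervalIntegral.integral_hasDerivAt_right (hc.intervalIntegrable _ _) (hc.stronglyMeasurableAtFilter _ _)
      hc.continuousAt
  have hmono : Monotone (eta rh) := by
    apply monotone_of_deriv_nonneg (fun t => (hd t).differentiableAt)
    intro t
    rw [(hd t).deriv]
    exact h.nonneg t
  have hlow : ∀ t, t ≤ s0 → eta rh t = 0 := by
    intro t ht
    have h1 : ∀ u ∈ uIcc 0 t, rh u = 0 := by
      intro u hu
      apply h.low
      rcases le_total 0 t with h2 | h2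
      · rw [uIcc_of_le h2] at hu
        exact hu.2.trans ht
      · rw [uIcc_of_ge h2] at hu
        exact hu.2.trans h.s0_pos.le
    unfold eta
    rw [intervalIntegral.integral_congr h1]
    simp
  have hhigh : ∀ t, T' ≤ t → eta rh t = eta rh T' := by
    intro t ht
    unfold eta
    rw [← intervalIntegral.integral_add_adjacent_intervals (hc.intervalIntegrable 0 T') (hc.intervalIntegrable T' t)]
    have h1 : ∀ u ∈ uIcc T' t, rh u = 0 := by
      intro u hu
      rw [uIcc_of_le ht] at hu
      exact h.high u hu.1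
    rw [intervalIntegral.integral_congr h1]
    simp
  refine ⟨?_, hd, hlow, hhigh, fun t => ⟨?_, ?_⟩⟩
  · rw [contDiff_infty_iff_deriv]
    refine ⟨fun t => (hd t).differentiableAt, ?_⟩
    have : deriv (eta rh) = rh := funext fun t => (hd t).deriv
    rw [this]
    exact h.smooth
  · have h1 : eta rh (min t s0) = 0 := hlow _ (min_le_right _ _)
    rw [← h1]
    exact hmono (min_le_left _ _)
  · rw [← hhigh (max t T') (le_max_right _ _)]
    exact hmono (le_max_left _ _)

/-- **B1b** (S/M). Bumps: for `0 < h < s < t`, `rh(u) = smoothTransition ((u - s + h)/h) * smoothTransition ((t + h - u)/h)`. -/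
theorem exists_bump {s t h : ℝ} (hh : 0 < h) (hs : h < s) (hst : s ≤ t) : ∃ rh : ℝ → ℝ, Tst rh (s - h) (t + h) ∧
    (∀ u, s ≤ u → u ≤ t → rh u = 1) ∧ (∀ u, rh u ≤ 1) ∧ eta rh (t + h) ≤ t - s + 2 * h := by
  set rh : ℝ → ℝ := fun u => Real.smoothTransition ((u - s + h) / h) * Real.smoothTransition ((t + h - u) / h) with hrh
  have hle : ∀ u, rh u ≤ 1 := fun u =>
    mul_le_one₀ (Real.smoothTransition.le_one _) (Real.smoothTransition.nonneg _) (Real.smoothTransition.le_one _)
  have hT : Tst rh (s - h) (t + h) := by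
    refine ⟨?_, ?_, by linarith, by linarith, ?_, ?_⟩
    · have h1 : ContDiff ℝ ∞ fun u : ℝ => (u - s + h) / h := ((contDiff_id.sub contDiff_const).add contDiff_const).div_const _
      have h2 : ContDiff ℝ ∞ fun u : ℝ => (t + h - u) / h := (contDiff_const.sub contDiff_id).div_const _
      exact (Real.smoothTransition.contDiff.comp h1).mul (Real.smoothTransition.contDiff.comp h2)
    · intro u
      exact mul_nonneg (Real.smoothTransition.nonneg _) (Real.smoothTransition.nonneg _)
    · intro u hu
      have : Real.smoothTransition ((u - s + h) / h) = 0 :=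
        Real.smoothTransition.zero_of_nonpos (div_nonpos_of_nonpos_of_nonneg (by linarith) hh.le)
      simp only [hrh, this, zero_mul]
    · intro u hu
      have : Real.smoothTransition ((t + h - u) / h) = 0 :=
        Real.smoothTransition.zero_of_nonpos (div_nonpos_of_nonpos_of_nonneg (by linarith) hh.le)
      simp only [hrh, this, mul_zero]
  refine ⟨rh, hT, ?_, hle, ?_⟩
  · intro u h1 h2
    have e1 : Real.smoothTransition ((u - s + h) / h) = 1 := by
      apply Real.smoothTransition.one_of_one_le
      rw [le_div_iff₀ hh]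
      linarith
    have e2 : Real.smoothTransition ((t + h - u) / h) = 1 := by
      apply Real.smoothTransition.one_of_one_le
      rw [le_div_iff₀ hh]
      linarith
    simp only [hrh, e1, e2, mul_one]
  · have hc : Continuous rh := hT.smooth.continuous
    have h0 := (eta_props hT).2.2.1 (s - h) le_rfl
    have h1 : eta rh (t + h) = eta rh (s - h) + ∫ u in (s - h)..(t + h), rh u := by
      unfold eta
      rw [intervalIntegral.integral_add_adjacent_intervals (hc.intervalIntegrable _ _) (hc.intervalIntegrable _ _)]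
    rw [h1, h0, zero_add]
    have h2 : ∫ u in (s - h)..(t + h), rh u ≤ ∫ u in (s - h)..(t + h), (1 : ℝ) :=
      intervalIntegral.integral_mono_on (by linarith) (hc.intervalIntegrable _ _) (by simp) fun u _ => hle u
    rw [intervalIntegral.integral_const, smul_eq_mul, mul_one] at h2
    linarith

end UMB.FL
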