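import Pool.Agent.Lib.UMB.FL.B1
import Pool.Agent.Lib.UMB.FL.A4
import Pool.Agent.Lib.UMB.FL.A11
import Pool.Agent.Lib.UMB.FL.A10
import Pool.Agent.Lib.UMB.FL.A13

/-! # UMB.FL, chunk B2 -/

set_option autoImplicit false

open Filter Topology Set MeasureTheory
open scoped ContDiff

namespace UMB.FL

open Pool.Agent.Lib.PenroseSph (E3 Tens pd chr trg gradNorm)
open UMB.Lin (Ann cAnn sig)

/-- A test function is bounded. -/
theorem b2_bdd {rh : ℝ → ℝ} {s0 T' : ℝ} (ht : Tst rh s0 T') : ∃ M : ℝ, ∀ t, |rh t| ≤ M := by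
  obtain ⟨M, hM⟩ := (isCompact_Icc (a := s0) (b := T')).exists_bound_of_continuousOn ht.smooth.continuous.continuousOn
  refine ⟨max M 0, fun t => ?_⟩
  rcases le_or_gt t s0 with h | h
  · rw [ht.low t h, abs_zero]
    exact le_max_right _ _
  · rcases le_or_gt T' t with h' | h'
    · rw [ht.high t h', abs_zero]
      exact le_max_right _ _
    · exact (hM t ⟨h.le, h'.le⟩).trans (le_max_left _ _)

/-- **B2** (M). The exact identity. `f(x) = η(θ x) cut R1 x`, `K = {x ∈ cAnn R | s0 ≤ θ x, ‖x‖ ≤ 4R1}` (compact, contained in `Ann`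
since `θ = 0` on `|x| = 1` and `4R1 < R`), `int_test` with `X = XX P v`. `pd a f = rh(θ) pd a θ cut + η(θ) pd a cut`. Where
`rh (θ x) ≠ 0`: `θ x < T'`, so `|x| < 3R1/2`, `cut = 1` and `∑ pd a θ XX a = mm vol` (`dth_XX_near`). Where `pd a cut ≠ 0`:
`|x| ≥ 3R1` (`cut_vals`), so `η(θ) = η(T')` and `XX a = - C Cst pd a v` (`XX_far`). Hence
`∑ pd a f XX a = rh(θ) mm vol - η(T') C Cst ∑ pd a cut pd a v` on `Ann`, and `flux_cut` with `c = Cv`, `C Cst Cv = C²` (`CC_eq`).
Integrability of `rh(θ) mm vol`: bounded continuous times integrable (`ed_int`). -/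
theorem ident {P : Par} (h : HP P) (hg : AF P.g P.a) {κ0 : ℝ} {v : E3 → ℝ} (hv : HV P κ0 v) {rh : ℝ → ℝ} {s0 T' : ℝ} (ht : Tst rh s0 T')
    (hT : ∀ x ∈ Ann P.R, 3 * P.R1 / 2 ≤ ‖x‖ → T' ≤ P.th v x) :
    IntegrableOn (fun x => rh (P.th v x) * (mm P v x * vol P.g x)) (Ann P.R) ∧
    IntegrableOn (fun x => eta rh (P.th v x) * cut P.R1 x * ∑ a, pd a (XX P v a) x) (Ann P.R) ∧
    ∫ x in Ann P.R, rh (P.th v x) * (mm P v x * vol P.g x) = eta rh T' * (4 * Real.pi * P.CC v ^ 2)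
      - ∫ x in Ann P.R, eta rh (P.th v x) * cut P.R1 x * ∑ a, pd a (XX P v a) x := by
  have hR1 : 4 ≤ P.R1 := by linarith [h.ok.r1_ge, h.ok.R1_ge]
  have hR10 : 0 < P.R1 := by linarith
  have hR8 : 8 * P.R1 ≤ P.R := h.ok.R_ge
  have hRgt : 4 * P.R1 < P.R := by linarith
  obtain ⟨hθs, hθc, hθ1, hθ0⟩ := th_props h hv
  obtain ⟨hes, hed, hel, heh, heb⟩ := eta_props ht
  obtain ⟨-, hmi, hmn⟩ := ed_int h hg hv
  have hopen := UMB.Lin.isOpen_Ann P.R
  have hcutd : ∀ x, DifferentiableAt ℝ (cut P.R1) x := fun x => (cut_smooth hR10).differentiable (by simp) x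
  have hθd : ∀ x ∈ Ann P.R, DifferentiableAt ℝ (P.th v) x := fun x hx =>
    (hθs.contDiffAt (hopen.mem_nhds hx)).differentiableAt (by simp)
  -- the compact set
  set K : Set E3 := {x : E3 | x ∈ cAnn P.R ∧ s0 ≤ P.th v x ∧ ‖x‖ ≤ 4 * P.R1} with hKdef
  have hK : IsCompact K := by
    have h1 : IsClosed (cAnn P.R ∩ P.th v ⁻¹' (Ici s0)) :=
      hθc.preimage_isClosed_of_isClosed (UMB.BR.isCompact_cAnn P.R).isClosed isClosed_Ici
    have h2 : K = (cAnn P.R ∩ P.th v ⁻¹' (Ici s0)) ∩ {x : E3 | ‖x‖ ≤ 4 * P.R1} := by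
      ext x
      constructor
      · rintro ⟨a, b, c⟩
        exact ⟨⟨a, b⟩, c⟩
      · rintro ⟨⟨a, b⟩, c⟩
        exact ⟨a, b, c⟩
    rw [h2]
    refine (UMB.BR.isCompact_cAnn P.R).of_isClosed_subset
      (h1.inter (isClosed_le continuous_norm continuous_const)) ?_
    intro x hx
    exact hx.1.1
  have hKA : K ⊆ Ann P.R := by
    intro x hx
    refine ⟨lt_of_le_of_ne hx.1.1 ?_, by linarith [hx.2.2]⟩
    intro h1
    have h2 := hθ1 x h1.symm
    have h3 := hx.2.1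
    rw [h2] at h3
    linarith [ht.s0_pos]
  set f : E3 → ℝ := fun x => eta rh (P.th v x) * cut P.R1 x with hf
  have hfs : ContDiffOn ℝ ∞ f (Ann P.R) := (hes.comp_contDiffOn hθs).mul (cut_smooth hR10).contDiffOn
  have hf0 : ∀ x ∈ Ann P.R, x ∉ K → f x = 0 := by
    intro x hx hxK
    simp only [hf]
    rcases le_or_gt s0 (P.th v x) with h1 | h1
    · have h2 : 4 * P.R1 ≤ ‖x‖ := by
        by_contra hc
        exact hxK ⟨⟨hx.1.le, hx.2.le⟩, h1, (not_le.1 hc).le⟩
      rw [(cut_vals hR10 x).2.2.2.1 h2, mul_zero]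
    · rw [hel _ h1.le, zero_mul]
  have h1le : (1 : ℕ∞ω) ≤ ∞ := WithTop.coe_le_coe.2 (le_top : (1 : ℕ∞) ≤ ⊤)
  obtain ⟨I1, I2, hE⟩ := int_test h.ok.one_lt_R hK hKA (hfs.of_le h1le)
    (fun a => (XX_smooth h hv a).of_le h1le) hf0
  -- the pointwise identity
  have hpd : ∀ x ∈ Ann P.R, ∀ a, pd a f x = rh (P.th v x) * pd a (P.th v) x * cut P.R1 x + eta rh (P.th v x) * pd a (cut P.R1) x := by
    intro x hx a
    have e1 : HasFDerivAt (fun y => eta rh (P.th v y)) (rh (P.th v x) • fderiv ℝ (P.th v) x) x :=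
      (hed (P.th v x)).comp_hasFDerivAt x (hθd x hx).hasFDerivAt
    have e2 := e1.mul (hcutd x).hasFDerivAt
    have e3 : fderiv ℝ f x = eta rh (P.th v x) • fderiv ℝ (cut P.R1) x + cut P.R1 x • rh (P.th v x) • fderiv ℝ (P.th v) x :=
      e2.fderiv
    unfold pd
    rw [e3]
    simp only [_root_.add_apply, _root_.smul_apply, smul_eq_mul]
    ring
  obtain ⟨c, hc⟩ : ∃ c : ℝ, c = eta rh T' * (P.CC v * P.Cst v) := ⟨_, rfl⟩
  have hpt : ∀ x ∈ Ann P.R, ∑ a, pd a f x * XX P v a x =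
      rh (P.th v x) * (mm P v x * vol P.g x) - c * ∑ a, pd a (cut P.R1) x * pd a v x := by
    intro x hx
    simp only [hpd x hx]
    rcases le_or_gt ‖x‖ (3 * P.R1 / 2) with h1 | h1
    · have h2 : cut P.R1 x = 1 := (cut_vals hR10 x).2.2.1 (by linarith)
      have h3 : ∀ a, pd a (cut P.R1) x = 0 := (cut_vals hR10 x).2.2.2.2 (by linarith)
      have h4 := dth_XX_near h hv hx h1
      simp only [h2, h3, mul_one, mul_zero, zero_mul, add_zero, Finset.sum_const_zero, sub_zero]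
      rw [← h4, Finset.mul_sum]
      exact Finset.sum_congr rfl fun a _ => by ring
    · have h2 : T' ≤ P.th v x := hT x hx h1.le
      have h3 : rh (P.th v x) = 0 := ht.high _ h2
      have h4 : eta rh (P.th v x) = eta rh T' := heh _ h2
      simp only [h3, h4, zero_mul, zero_add, zero_sub]
      rcases lt_or_ge ‖x‖ (3 * P.R1) with h5 | h5
      · have h6 : ∀ a, pd a (cut P.R1) x = 0 := (cut_vals hR10 x).2.2.2.2 h5
        simp only [h6, mul_zero, zero_mul, Finset.sum_const_zero, neg_zero]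
      · have h6 : ∀ a, XX P v a x = - (P.CC v * P.Cst v * pd a v x) := fun a => XX_far h hv hx (by linarith) a
        simp only [h6]
        rw [hc, ← neg_mul, Finset.mul_sum]
        exact Finset.sum_congr rfl fun a _ => by ring
  -- integrability
  obtain ⟨M, hM⟩ := b2_bdd ht
  have hA : IntegrableOn (fun x => rh (P.th v x) * (mm P v x * vol P.g x)) (Ann P.R) := by
    have e1 : AEStronglyMeasurable (fun x => rh (P.th v x)) (volume.restrict (Ann P.R)) :=
      (ht.smooth.continuous.comp_continuousOn hθs.continuousOn).aestronglyMeasurable hopen.measurableSet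
    exact Integrable.bdd_mul hmi e1 (c := M) (Eventually.of_forall fun x => hM _)
  have hB : IntegrableOn (fun x => c * ∑ a, pd a (cut P.R1) x * pd a v x) (Ann P.R) := by
    have e1 : IntegrableOn (fun x => rh (P.th v x) * (mm P v x * vol P.g x) - ∑ a, pd a f x * XX P v a x) (Ann P.R) :=
      hA.sub I1
    refine e1.congr_fun ?_ hopen.measurableSet
    intro x hx
    simp only []
    rw [hpt x hx]
    ring
  have hfl := flux_cut (R := P.R) (R1 := P.R1) (c := P.Cv v) (v := v) (by linarith) hR8 hv.sol.smooth hv.mean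
  have hI : ∫ x in Ann P.R, (∑ a, pd a f x * XX P v a x) =
      (∫ x in Ann P.R, rh (P.th v x) * (mm P v x * vol P.g x)) - c * (4 * Real.pi * P.Cv v) := by
    rw [setIntegral_congr_fun hopen.measurableSet hpt, integral_sub hA hB, integral_const_mul, hfl]
  refine ⟨hA, I2, ?_⟩
  have hCC := CC_eq h.ok (v := v) hv.kap_pos
  have hcc : c * (4 * Real.pi * P.Cv v) = eta rh T' * (4 * Real.pi * P.CC v ^ 2) := by
    rw [hc, hCC]
    ring
  rw [← hcc]
  have hE' : ∫ x in Ann P.R, (∑ a, pd a f x * XX P v a x) = - ∫ x in Ann P.R, f x * ∑ a, pd a (XX P v a) x := hE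
  rw [hI] at hE'
  have e1 : ∫ x in Ann P.R, eta rh (P.th v x) * cut P.R1 x * ∑ a, pd a (XX P v a) x =
      ∫ x in Ann P.R, f x * ∑ a, pd a (XX P v a) x := rfl
  rw [e1]
  linarith

end UMB.FL
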