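import Pool.Agent.Lib.UMB.Asm.Defs
import Pool.Agent.Lib.UMB.S1.Dens
import Pool.Agent.Lib.UMB.W.F6

set_option autoImplicit false

/-!
# UMB, block F (flux): definitions

The flux field is `Z = - SC ∇v` (metric `gh` of the operator), `SC = exp (EE) = e^{-2θ} (C s)^b / |dv|_eps`,
`X^a = √det gh Z^a` (`XX`). The test functions are `η(θ)` times the radial cut-off `cut`.
-/

open Filter Topology Set MeasureTheory
open scoped ContDiff

namespace UMB.FL

open Pool.Agent.Lib.PenroseSph (E3 Tens pd chr trg gradNorm)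
open UMB.Lin (Ann cAnn sig)

/-- Change of the small parameters and of the mollifier. -/
def upd (P : Par) (eps d : ℝ) (eta : E3 → ℝ) : Par := { P with eps := eps, d := d, eta := eta }

theorem upd_op (P : Par) (eps d : ℝ) (eta : E3 → ℝ) : (upd P eps d eta).op = W.OpData.upd P.op eps d eta := rfl

/-- The domain of the metric of the operator. -/
def UU (P : Par) : Set E3 := {x : E3 | P.op.a < ‖x‖}

/-- What block F uses about the parameters. -/
structure HP (P : Par) : Prop where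
  ok : P.Ok
  opok : P.op.Ok
  met : MetOn P.gh (UU P)
  two : ∀ x ∈ Ann P.R, ∀ (t : ℝ) (n : Fin 3 → ℝ), 1 ≤ t → t ≤ 2 →
    (∀ u : Fin 3 → ℝ, (∑ i, n i * u i) ^ 2 ≤ q1 (P.op.G x) u) →
      0 ≤ tr2 (fun i j => P.op.G x i j + (t - 2) * n i * n j) (P.op.k x)

/-- What block F uses about the solution. -/
structure HV (P : Par) (κ0 : ℝ) (v : E3 → ℝ) : Prop where
  sol : W.Sol P.op v
  κ0_pos : 0 < κ0
  kap_ge : κ0 ≤ P.kap v
  kap_le : P.kap v ≤ P.v1
  far : ∀ x ∈ cAnn P.R, P.R1 / 2 ≤ ‖x‖ → v x ≤ P.v1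
  mean : ∀ r : ℝ, 2 * P.R1 ≤ r → r ≤ P.R → Par.mean v r = P.Cv v * (1 / r - 1 / P.R)

/-- `|dv|_eps` for the metric of the operator. -/
noncomputable def gvh (P : Par) (v : E3 → ℝ) (x : E3) : ℝ := Real.sqrt (gsq P.gh v x + P.eps ^ 2)

/-- `log (C s)` for the metric of the operator. -/
noncomputable def LL (P : Par) (v : E3 → ℝ) (x : E3) : ℝ :=
  Real.log (P.CC v) + P.F v (v x) - Real.log (P.ww v (v x)) + Real.log (gvh P v x)

/-- The part of the exponent which depends on the value only: `-2F + b (log C + F - log w)`. -/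
noncomputable def E1 (P : Par) (v : E3 → ℝ) (z : ℝ) : ℝ :=
  -2 * P.F v z + P.b z * (Real.log (P.CC v) + P.F v z - Real.log (P.ww v z))

/-- The exponent of the scalar coefficient. -/
noncomputable def EE (P : Par) (v : E3 → ℝ) (x : E3) : ℝ := E1 P v (v x) + (P.b (v x) - 1) * Real.log (gvh P v x)

/-- The scalar coefficient of `Z`. -/
noncomputable def SC (P : Par) (v : E3 → ℝ) (x : E3) : ℝ := Real.exp (EE P v x)

/-- The vector field `X^a = √det gh Z^a`. -/
noncomputable def XX (P : Par) (v : E3 → ℝ) (a : Fin 3) (x : E3) : ℝ :=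
  - (vol P.gh x * (SC P v x * gradU P.gh v a x))

/-- The Hessian of `v` for the metric of the operator. -/
noncomputable def Hs (P : Par) (v : E3 → ℝ) (x : E3) : Matrix (Fin 3) (Fin 3) ℝ := fun i j =>
  D2 v x i j - ∑ m, P.op.Gam m x i j * D1 v x m

/-- The second order expression `Δ v + (b-1)/|dv|_eps² D²v(∇v,∇v)`. -/
noncomputable def Q2 (P : Par) (v : E3 → ℝ) (x : E3) : ℝ :=
  lapG P.gh v x + (P.b (v x) - 1) / gvh P v x ^ 2 * hgg P.gh v x

/-- The error density. -/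
noncomputable def errD (P : Par) (v : E3 → ℝ) (x : E3) : ℝ :=
  (∑ i, ∑ j, |P.op.aa v x i j - W.aal (P.op.G x) (P.op.p (v x)) P.eps (D1 v x) i j| * |Hs P v x i j|)
    + max 0 (- (tr2 (P.op.aa v x) (P.op.k x) * ∑ i, P.op.nn v x i * D1 v x i))

/-- The density `⟨∇θ, Z⟩ = C⁻¹ e^{-3θ} (C s)^{b+1} |dv|²/|dv|_eps²`. -/
noncomputable def mm (P : Par) (v : E3 → ℝ) (x : E3) : ℝ :=
  (P.CC v)⁻¹ * Real.exp (-3 * P.th v x) * (P.CC v * P.s v x) ^ (P.b (v x) + 1) * (gsq P.g v x / P.gv v x ^ 2)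

/-- The density of `Err`. -/
noncomputable def ed (P : Par) (v : E3 → ℝ) (x : E3) : ℝ :=
  Real.exp (-3 * P.th v x) * ((P.CC v * P.s v x) ^ (P.b (v x) + 1) * |Real.log (P.CC v * P.s v x)|) * vol P.g x

/-- The shell. -/
def shell (P : Par) (v : E3 → ℝ) : Set E3 := {x : E3 | P.v1 ≤ v x ∧ v x ≤ 2 * P.v1}

/-- Radial cut-off: `1` for `r ≤ 3R1`, `0` for `r ≥ 4R1`. -/
noncomputable def cut (R1 : ℝ) (x : E3) : ℝ := Real.smoothTransition (4 - ‖x‖ / R1)

theorem Ann_sub_UU {P : Par} (h : P.op.Ok) : Ann P.R ⊆ UU P := fun _ hx => h.a_lt.trans hx.1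

theorem cAnn_sub_UU {P : Par} (h : P.op.Ok) : cAnn P.R ⊆ UU P := fun _ hx => h.a_lt.trans_le hx.1

theorem Err_eq (P : Par) (v : E3 → ℝ) : P.Err v = ∫ x in shell P v ∩ Ann P.R, ed P v x := rfl

theorem CC_pos {P : Par} (h : P.Ok) (v : E3 → ℝ) : 0 < P.CC v := by
  unfold Par.CC
  have h1 := h.r1_ge
  have h2 := h.R1_ge
  have h3 := h.R_ge
  have : 0 < P.R := by linarith
  positivity

/-- Restriction of a metric to a smaller open set. -/
theorem met_mono {g : Tens} {U V : Set E3} (h : MetOn g U) (hV : IsOpen V) (hVU : V ⊆ U) : MetOn g V where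
  isOpen := hV
  smooth := fun i j => (h.smooth i j).mono hVU
  symm := fun x hx => h.symm x (hVU hx)
  pos := fun x hx => h.pos x (hVU hx)

theorem HP.metA {P : Par} (h : HP P) : MetOn P.gh (Ann P.R) :=
  met_mono h.met (UMB.Lin.isOpen_Ann P.R) (Ann_sub_UU h.opok)

theorem HV.kap_pos {P : Par} {κ0 : ℝ} {v : E3 → ℝ} (h : HV P κ0 v) : 0 < P.kap v := lt_of_lt_of_le h.κ0_pos h.kap_ge

end UMB.FL
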