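import Pool.Agent.Lib.UMB.FL.B2
import Pool.Agent.Lib.UMB.FL.A5
import Pool.Agent.Lib.UMB.FL.A6
import Pool.Agent.Lib.UMB.FL.A7
import Pool.Agent.Lib.UMB.FL.A8

/-! # UMB.FL, chunk F1 -/

set_option autoImplicit false

open Filter Topology Set MeasureTheory
open scoped ContDiff

namespace UMB.FL

open Pool.Agent.Lib.PenroseSph (E3 Tens pd chr trg gradNorm)
open UMB.Lin (Ann cAnn sig)

theorem f1_errD_nonneg (P : Par) (v : E3 → ℝ) (x : E3) : 0 ≤ errD P v x := by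
  unfold errD
  exact add_nonneg (Finset.sum_nonneg fun i _ => Finset.sum_nonneg fun j _ =>
    mul_nonneg (abs_nonneg _) (abs_nonneg _)) (le_max_left _ _)

theorem f1_shell_meas {P : Par} {κ0 : ℝ} {v : E3 → ℝ} (hv : HV P κ0 v) : MeasurableSet (shell P v ∩ Ann P.R) := by
  have hc : ContinuousOn v (Ann P.R) := hv.sol.smooth.continuousOn
  have ho : IsOpen (Ann P.R) := UMB.Lin.isOpen_Ann P.R
  have h1 : shell P v ∩ Ann P.R = Ann P.R \ (Ann P.R ∩ v ⁻¹' (Icc P.v1 (2 * P.v1))ᶜ) := by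
    ext x
    unfold shell
    simp only [mem_inter_iff, Set.mem_sdiff, mem_preimage, mem_compl_iff, mem_Icc]
    constructor
    · rintro ⟨h2, h3⟩
      exact ⟨h3, fun h4 => h4.2 h2⟩
    · rintro ⟨h2, h3⟩
      refine ⟨?_, h2⟩
      by_contra h4
      exact h3 ⟨h2, h4⟩
  rw [h1]
  exact ho.measurableSet.diff (hc.isOpen_inter_preimage ho isClosed_Icc.isOpen_compl).measurableSet

theorem f1_cut (R1 : ℝ) (x : E3) : 0 ≤ cut R1 x ∧ cut R1 x ≤ 1 := by
  unfold cut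
  exact ⟨Real.smoothTransition.nonneg _, Real.smoothTransition.le_one _⟩

/-- The pointwise inequality. -/
theorem f1_alg {e c E V S Q b L G C0 er tr : ℝ} (he : 0 ≤ e) (heE : e ≤ E) (hc : 0 ≤ c) (hc1 : c ≤ 1) (hV : 0 ≤ V) (hS : 0 ≤ S)
    (hG : 0 ≤ G) (hQ : Q ≤ er) (her : 0 ≤ er) (hVS : V * S ≤ C0) (htr : V * S * (|b| * |L| * G) ≤ tr) :
    -(E * (C0 * er + tr)) ≤ e * c * -(V * (S * (Q + b * L * G))) := by
  have hE : 0 ≤ E := he.trans heE
  have h1 : V * (S * (Q + b * L * G)) ≤ C0 * er + tr := by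
    have a1 : V * S * Q ≤ C0 * er := by
      calc V * S * Q ≤ V * S * er := mul_le_mul_of_nonneg_left hQ (mul_nonneg hV hS)
        _ ≤ C0 * er := mul_le_mul_of_nonneg_right hVS her
    have a2 : V * S * (b * L * G) ≤ V * S * (|b| * |L| * G) := by
      refine mul_le_mul_of_nonneg_left ?_ (mul_nonneg hV hS)
      refine mul_le_mul_of_nonneg_right ?_ hG
      rw [← abs_mul]
      exact le_abs_self _
    have e1 : V * (S * (Q + b * L * G)) = V * S * Q + V * S * (b * L * G) := by ring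
    rw [e1]
    linarith
  have h0 : 0 ≤ C0 * er + tr := by
    have b1 : 0 ≤ V * S := mul_nonneg hV hS
    have b2 : 0 ≤ C0 * er := mul_nonneg (b1.trans hVS) her
    have b3 : 0 ≤ V * S * (|b| * |L| * G) := by positivity
    linarith
  have h2 : e * c * (V * (S * (Q + b * L * G))) ≤ E * (C0 * er + tr) := by
    have h3 : e * c ≤ E := by nlinarith
    calc e * c * (V * (S * (Q + b * L * G))) ≤ e * c * (C0 * er + tr) :=
          mul_le_mul_of_nonneg_left h1 (mul_nonneg he hc)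
      _ ≤ E * (C0 * er + tr) := mul_le_mul_of_nonneg_right h3 h0
  linarith

/-- **F1** (M). THE FLUX INEQUALITY. `C1` depends on `P` (without `eps d eta`, so on `g k q r1 R1 R`) and `κ0`; `Cq` on `q` only.
From `ident`: `- div X = vol SC (Q2 + b' LL gsq) ≤ vol SC errD + vol SC |b'| |LL| gsq` (`div_XX`, `Q2_le`),
`0 ≤ η(θ) cut ≤ η(T')`, `vol SC ≤ C eps⁻¹` (`SC_bd`), `trans_bd`; integrate over `Ann` (`errD_int`, `err_int`, `ed_int`;
`∫_Ann indicator shell ed = Err`, `Err_eq`). -/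
theorem F1 {q : ℝ} (hq : 0 < q) : ∃ Cq : ℝ, 0 ≤ Cq ∧ ∀ (P : Par), P.q = q → HP P → AF P.g P.a → ∀ κ0 : ℝ, 0 < κ0 →
    ∃ C1 : ℝ, 0 ≤ C1 ∧ ∀ (eps d : ℝ) (etm : E3 → ℝ), HP (upd P eps d etm) → ∀ v : E3 → ℝ, HV (upd P eps d etm) κ0 v →
      ∀ (rh : ℝ → ℝ) (s0 T' : ℝ), Tst rh s0 T' →
        (∀ x ∈ Ann P.R, 3 * P.R1 / 2 ≤ ‖x‖ → T' ≤ (upd P eps d etm).th v x) →
        ∫ x in Ann P.R, rh ((upd P eps d etm).th v x) * (mm (upd P eps d etm) v x * vol P.g x) ≤
          eta rh T' * (4 * Real.pi * (upd P eps d etm).CC v ^ 2 + Cq / (upd P eps d etm).CC v * (upd P eps d etm).Err v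
            + C1 * (eps⁻¹ ^ 2 * d ^ (1 / 2 : ℝ))) := by
  obtain ⟨Cq, hCq, htr⟩ := trans_bd hq
  refine ⟨Cq, hCq, fun P hPq hP hg κ0 hκ0 => ?_⟩
  obtain ⟨C, hC, hSC⟩ := SC_bd hP hκ0
  obtain ⟨C', hC', herr⟩ := err_int hP
  refine ⟨C * C', mul_nonneg hC hC', fun eps d etm hP' v hv rh s0 T' ht hT => ?_⟩
  obtain ⟨Q, hQdef⟩ : ∃ Q : Par, Q = upd P eps d etm := ⟨_, rfl⟩
  have hQR : Q.R = P.R := by rw [hQdef]; rfl
  have hQg : Q.g = P.g := by rw [hQdef]; rfl
  have hQgh : Q.gh = P.gh := by rw [hQdef]; rfl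
  have hQq : Q.q = q := by rw [hQdef]; exact hPq
  have hQeps : Q.eps = eps := by rw [hQdef]; rfl
  have hgQ : AF Q.g Q.a := by rw [hQdef]; exact hg
  have hS := hSC eps d etm hP' v hv
  have hE := herr eps d etm hP' v hv.sol
  rw [← hQdef] at hP' hv hT hS hE ⊢
  have heps : 0 < eps := by rw [← hQeps]; exact hP'.ok.eps_pos
  obtain ⟨-, hI2, hid⟩ := ident hP' hgQ hv ht (by rw [hQR]; intro x hx hx2; exact hT x hx (by rw [hQdef] at hx2; exact hx2))
  obtain ⟨-, -, -, -, het⟩ := eta_props ht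
  have hA : MeasurableSet (Ann P.R) := (UMB.Lin.isOpen_Ann P.R).measurableSet
  rw [hQR, hQg] at hid
  rw [hQR] at hI2
  rw [hid]
  have hed := ed_int hP' hgQ hv
  have hedI : IntegrableOn (fun x => (shell Q v ∩ Ann P.R).indicator (ed Q v) x) (Ann P.R) := by
    have hm := f1_shell_meas hv
    rw [hQR] at hm
    have h1 := hed.1
    rw [hQR] at h1
    exact h1.indicator hm
  have herI : IntegrableOn (errD Q v) (Ann P.R) := by
    have := errD_int hP' hv.sol
    rwa [hQR] at this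
  have hpt : ∀ x ∈ Ann P.R, -(eta rh T' * (C * eps⁻¹ * errD Q v x + Cq / Q.CC v * (shell Q v ∩ Ann P.R).indicator (ed Q v) x)) ≤
      eta rh (Q.th v x) * cut Q.R1 x * ∑ a, pd a (XX Q v a) x := by
    intro x hx
    have hx' : x ∈ Ann Q.R := by rw [hQR]; exact hx
    rw [div_XX hP' hv hx']
    have hgsq : 0 ≤ gsq Q.gh v x := by
      exact hP'.metA.gsq_nonneg hx'
    refine f1_alg (het _).1 (het _).2 (f1_cut _ _).1 (f1_cut _ _).2 (Real.sqrt_nonneg _) (Real.exp_pos _).le hgsq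
      (Q2_le hP' hv hx') (f1_errD_nonneg Q v x) ?_ ?_
    · have := hS x hx
      rw [← hQgh] at this
      exact this
    · have h1 := htr Q κ0 v hQq hP' hv x hx'
      have h2 : (shell Q v).indicator (ed Q v) x = (shell Q v ∩ Ann P.R).indicator (ed Q v) x := by
        by_cases h3 : x ∈ shell Q v
        · rw [indicator_of_mem h3, indicator_of_mem (show x ∈ shell Q v ∩ Ann P.R from ⟨h3, hx⟩)]
        · rw [indicator_of_notMem h3, indicator_of_notMem (fun h4 => h3 h4.1)]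
      rw [h2] at h1
      exact h1
  have hint : ∫ x in Ann P.R, -(eta rh T' * (C * eps⁻¹ * errD Q v x +
      Cq / Q.CC v * (shell Q v ∩ Ann P.R).indicator (ed Q v) x)) =
      -(eta rh T' * (C * eps⁻¹ * (∫ x in Ann P.R, errD Q v x) + Cq / Q.CC v * Q.Err v)) := by
    rw [integral_neg, integral_const_mul, integral_add (herI.const_mul _) (hedI.const_mul _), integral_const_mul,
      integral_const_mul]
    have h9 : ∫ x in Ann P.R, (shell Q v ∩ Ann P.R).indicator (ed Q v) x = Q.Err v := by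
      rw [Err_eq, hQR, setIntegral_indicator (by have hm := f1_shell_meas hv; rwa [hQR] at hm)]
      have h10 : Ann P.R ∩ (shell Q v ∩ Ann P.R) = shell Q v ∩ Ann P.R := by
        ext x
        simp only [mem_inter_iff]
        tauto
      rw [h10]
    rw [h9]
  have hmono : -(eta rh T' * (C * eps⁻¹ * (∫ x in Ann P.R, errD Q v x) + Cq / Q.CC v * Q.Err v)) ≤
      ∫ x in Ann P.R, eta rh (Q.th v x) * cut Q.R1 x * ∑ a, pd a (XX Q v a) x := by
    rw [← hint]
    refine setIntegral_mono_on ?_ hI2 hA hpt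
    exact ((herI.const_mul _).add (hedI.const_mul _)).const_mul _ |>.neg
  have hE2 : C * eps⁻¹ * (∫ x in Ann P.R, errD Q v x) ≤ C * C' * (eps⁻¹ ^ 2 * d ^ (1 / 2 : ℝ)) := by
    calc C * eps⁻¹ * (∫ x in Ann P.R, errD Q v x) ≤ C * eps⁻¹ * (C' * (eps⁻¹ * d ^ (1 / 2 : ℝ))) :=
          mul_le_mul_of_nonneg_left hE (by positivity)
      _ = C * C' * (eps⁻¹ ^ 2 * d ^ (1 / 2 : ℝ)) := by ring
  have h0 : 0 ≤ eta rh T' := (het T').1
  have h5 := mul_le_mul_of_nonneg_left hE2 h0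
  linarith [hmono, h5]

end UMB.FL
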